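import Mathlib

set_option autoImplicit false

/-!
# Braid groups, the Artin action, the reduced Burau representation, and real Puiseux series

`m` is the number of generators: `Braid m` is the braid group on `m + 1` strands.
-/

namespace Pool.Agent.V11209.Bur

open FreeGroup (of)
open LaurentPolynomial

/-- Artin's relators for the braid group on `m + 1` strands: `σ_i σ_j = σ_j σ_i` for `i + 1 < j`
and `σ_i σ_j σ_i = σ_j σ_i σ_j` for `i + 1 = j`. -/
def braidRels (m : ℕ) : Set (FreeGroup (Fin m)) :=
  {r | (∃ i j : Fin m, (i : ℕ) + 1 < j ∧ r = of i * of j * (of i)⁻¹ * (of j)⁻¹) ∨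
    (∃ i j : Fin m, (i : ℕ) + 1 = j ∧ r = (of i * of j * of i) * (of j * of i * of j)⁻¹)}

/-- The braid group on `m + 1` strands. -/
abbrev Braid (m : ℕ) : Type := PresentedGroup (braidRels m)

section Sig

variable {ι : Type} [DecidableEq ι]

/-- `x_p ↦ x_p x_q x_p⁻¹`, `x_q ↦ x_p`, and the other generators are fixed. -/
def sigF (p q : ι) : FreeGroup ι →* FreeGroup ι :=
  FreeGroup.lift fun k => if k = p then of p * of q * (of p)⁻¹ else if k = q then of p else of k

/-- `x_p ↦ x_q`, `x_q ↦ x_q⁻¹ x_p x_q`, and the other generators are fixed. -/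
def sigB (p q : ι) : FreeGroup ι →* FreeGroup ι :=
  FreeGroup.lift fun k => if k = p then of q else if k = q then (of q)⁻¹ * of p * of q else of k

theorem sigF_p (p q : ι) : sigF p q (of p) = of p * of q * (of p)⁻¹ := by simp [sigF]
theorem sigF_q {p q : ι} (h : p ≠ q) : sigF p q (of q) = of p := by
  simp [sigF, h.symm]
theorem sigF_k {p q k : ι} (h : k ≠ p) (h' : k ≠ q) : sigF p q (of k) = of k := by
  simp [sigF, h, h']
theorem sigB_p (p q : ι) : sigB p q (of p) = of q := by simp [sigB]
theorem sigB_q {p q : ι} (h : p ≠ q) : sigB p q (of q) = (of q)⁻¹ * of p * of q := by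
  simp [sigB, h.symm]
theorem sigB_k {p q k : ι} (h : k ≠ p) (h' : k ≠ q) : sigB p q (of k) = of k := by
  simp [sigB, h, h']

/-- The automorphism `x_p ↦ x_p x_q x_p⁻¹`, `x_q ↦ x_p` (the other generators are fixed). -/
def sig (p q : ι) (h : p ≠ q) : MulAut (FreeGroup ι) :=
  MonoidHom.toMulEquiv (sigF p q) (sigB p q)
    (by
      ext k
      by_cases h1 : k = p
      · subst h1
        simp [sigF_p, sigB_p, sigB_q h, mul_assoc]
      · by_cases h2 : k = q
        · subst h2
          simp [sigF_q h, sigB_p]
        · simp [sigF_k h1 h2, sigB_k h1 h2])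
    (by
      ext k
      by_cases h1 : k = p
      · subst h1
        simp [sigB_p, sigF_q h]
      · by_cases h2 : k = q
        · subst h2
          simp [sigF_q h, sigF_p, sigB_q h, mul_assoc]
        · simp [sigF_k h1 h2, sigB_k h1 h2])

theorem sig_apply (p q : ι) (h : p ≠ q) (w : FreeGroup ι) : sig p q h w = sigF p q w := rfl

theorem sig_braid (p q r : ι) (h1 : p ≠ q) (h2 : q ≠ r) (h3 : p ≠ r) :
    sig p q h1 * sig q r h2 * sig p q h1 = sig q r h2 * sig p q h1 * sig q r h2 := by
  apply MulEquiv.toMonoidHom_injective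
  apply FreeGroup.ext_hom
  intro k
  show sigF p q (sigF q r (sigF p q (of k))) = sigF q r (sigF p q (sigF q r (of k)))
  by_cases a : k = p
  · subst a
    simp [sigF_p, sigF_q h1, sigF_k h1 h3, sigF_k h3.symm h2.symm, mul_assoc]
  · by_cases b : k = q
    · subst b
      simp [sigF_p, sigF_q h1, sigF_q h2, sigF_k h1 h3, sigF_k h3.symm h2.symm, mul_assoc]
    · by_cases c : k = r
      · subst c
        simp [sigF_q h1, sigF_q h2, sigF_k h1 h3, sigF_k h3.symm h2.symm]
      · simp [sigF_k a b, sigF_k b c]

theorem sig_comm (p q r s : ι) (h1 : p ≠ q) (h2 : r ≠ s) (a : p ≠ r) (b : p ≠ s) (c : q ≠ r)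
    (d : q ≠ s) : sig p q h1 * sig r s h2 = sig r s h2 * sig p q h1 := by
  apply MulEquiv.toMonoidHom_injective
  apply FreeGroup.ext_hom
  intro k
  show sigF p q (sigF r s (of k)) = sigF r s (sigF p q (of k))
  by_cases e : k = p
  · subst e
    simp [sigF_p, sigF_k a b, sigF_k c d]
  · by_cases e2 : k = q
    · subst e2
      simp [sigF_q h1, sigF_k c d, sigF_k a b]
    · by_cases e3 : k = r
      · subst e3
        simp [sigF_p, sigF_k a.symm c.symm, sigF_k b.symm d.symm]
      · by_cases e4 : k = s
        · subst e4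
          simp [sigF_q h2, sigF_k b.symm d.symm, sigF_k a.symm c.symm]
        · simp [sigF_k e e2, sigF_k e3 e4]

end Sig

/-- The Artin automorphism of the generator `σ_i` acting on the free group on `x_0, …, x_m`:
`x_i ↦ x_i x_{i+1} x_i⁻¹`, `x_{i+1} ↦ x_i`, the other generators are fixed. -/
def artinGen {m : ℕ} (i : Fin m) : MulAut (FreeGroup (Fin (m + 1))) :=
  sig i.castSucc i.succ (Fin.castSucc_lt_succ).ne

theorem artin_rels (m : ℕ) : ∀ r ∈ braidRels m, FreeGroup.lift (artinGen (m := m)) r = 1 := by
  rintro r (⟨i, j, h, rfl⟩ | ⟨i, j, h, rfl⟩)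
  · simp only [map_mul, map_inv, FreeGroup.lift_apply_of]
    have hc : artinGen i * artinGen j = artinGen j * artinGen i := by
      apply sig_comm
      · intro e
        have := congrArg Fin.val e
        simp at this
        omega
      · intro e
        have := congrArg Fin.val e
        simp at this
        omega
      · intro e
        have := congrArg Fin.val e
        simp at this
        omega
      · intro e
        have := congrArg Fin.val e
        simp at this
        omega
    rw [hc]
    group
  · simp only [map_mul, map_inv, FreeGroup.lift_apply_of]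
    have hjs : j.castSucc = i.succ := by
      ext
      simp [← h]
    have hc : artinGen i * artinGen j * artinGen i = artinGen j * artinGen i * artinGen j := by
      unfold artinGen
      have h3 : i.castSucc ≠ j.succ := by
        intro e
        have := congrArg Fin.val e
        simp at this
        omega
      have h4 : i.succ ≠ j.succ := by
        intro e
        have := congrArg Fin.val e
        simp at this
        omega
      have := sig_braid i.castSucc i.succ j.succ (Fin.castSucc_lt_succ).ne h4 h3
      simp only [hjs]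
      exact this
    rw [hc, mul_inv_cancel]

/-- The Artin action of the braid group on `m + 1` strands on the free group of rank `m + 1`. -/
def artin (m : ℕ) : Braid m →* MulAut (FreeGroup (Fin (m + 1))) :=
  PresentedGroup.toGroup (artin_rels m)

theorem artin_of (m : ℕ) (i : Fin m) : artin m (PresentedGroup.of i) = artinGen i := by
  simp [artin]

/-- A positive cone of a bi-order (a total order invariant under left and right
multiplication). -/
def IsBiOrderCone {G : Type} [Group G] (P : Set G) : Prop :=
  (1 : G) ∉ P ∧ (∀ a ∈ P, ∀ b ∈ P, a * b ∈ P) ∧ (∀ g : G, g ≠ 1 → g ∈ P ∨ g⁻¹ ∈ P) ∧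
    ∀ a ∈ P, ∀ g : G, g * a * g⁻¹ ∈ P

/-- A braid is order-preserving if its Artin automorphism preserves some bi-order of the free
group. -/
def OrderPreserving {m : ℕ} (β : Braid m) : Prop :=
  ∃ P : Set (FreeGroup (Fin (m + 1))), IsBiOrderCone P ∧ (fun w => artin m β w) '' P = P

/-! ### the homology of the infinite cyclic cover -/

/-- The total winding number. -/
def wind (m : ℕ) : FreeGroup (Fin (m + 1)) →* Multiplicative ℤ :=
  FreeGroup.lift fun _ => Multiplicative.ofAdd 1

/-- The kernel of the total winding number. -/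
def K (m : ℕ) : Type := (wind m).ker

instance K_group (m : ℕ) : Group (K m) := Subgroup.toGroup (wind m).ker

/-- The inclusion of the kernel. -/
def incl {m : ℕ} (k : K m) : FreeGroup (Fin (m + 1)) := Subtype.val k

theorem wind_incl {m : ℕ} (k : K m) : wind m (incl k) = 1 := Subtype.property k

/-- The element of the kernel given by a word of winding number zero. -/
def mkK {m : ℕ} (w : FreeGroup (Fin (m + 1))) (h : wind m w = 1) : K m := Subtype.mk w h

theorem K_ext {m : ℕ} {k l : K m} (h : incl k = incl l) : k = l := Subtype.ext h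

theorem incl_mkK {m : ℕ} (w : FreeGroup (Fin (m + 1))) (h : wind m w = 1) :
    incl (mkK w h) = w := rfl
theorem incl_mul {m : ℕ} (k l : K m) : incl (k * l) = incl k * incl l := rfl
theorem incl_inv {m : ℕ} (k : K m) : incl k⁻¹ = (incl k)⁻¹ := rfl
theorem incl_one {m : ℕ} : incl (1 : K m) = 1 := rfl

/-- The abelianization of the kernel. -/
def Ab (m : ℕ) : Type := Abelianization (K m)

instance Ab_group (m : ℕ) : CommGroup (Ab m) := Abelianization.commGroup (K m)

/-- The first homology of the kernel `K` (its abelianization, written additively). -/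
def H1 (m : ℕ) : Type := Additive (Ab m)

instance H1_group (m : ℕ) : AddCommGroup (H1 m) := Additive.addCommGroup

/-- The endomorphism of the abelianization induced by an endomorphism of `K`. -/
def abMap {m : ℕ} (f : K m →* K m) : Ab m →* Ab m := Abelianization.map f

/-- The endomorphism of `H1` induced by an endomorphism of `K`. -/
def ind {m : ℕ} (f : K m →* K m) : H1 m →+ H1 m := MonoidHom.toAdditive (abMap f)

/-- The class of an element of `K` in `H1`. -/
def cls {m : ℕ} (k : K m) : H1 m := Additive.ofMul (Abelianization.of k : Ab m)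

theorem cls_mul {m : ℕ} (k l : K m) : cls (k * l) = cls k + cls l := by
  exact congrArg (Additive.ofMul : Abelianization (K m) → Additive (Abelianization (K m)))
    (map_mul Abelianization.of k l)

theorem cls_one {m : ℕ} : cls (1 : K m) = 0 := by
  exact congrArg (Additive.ofMul : Abelianization (K m) → Additive (Abelianization (K m)))
    (map_one Abelianization.of)

theorem cls_inv {m : ℕ} (k : K m) : cls k⁻¹ = - cls k := by
  exact congrArg (Additive.ofMul : Abelianization (K m) → Additive (Abelianization (K m)))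
    (map_inv Abelianization.of k)

theorem cls_surj {m : ℕ} (z : H1 m) : ∃ k : K m, cls k = z := by
  obtain ⟨k, hk⟩ := QuotientGroup.mk_surjective (Additive.toMul z : Abelianization (K m))
  exact ⟨k, congrArg Additive.ofMul hk⟩

theorem ind_cls {m : ℕ} (f : K m →* K m) (k : K m) : ind f (cls k) = cls (f k) := rfl

theorem end_ext {m : ℕ} {f g : H1 m →+ H1 m} (h : ∀ k : K m, f (cls k) = g (cls k)) :
    f = g := by
  apply AddMonoidHom.ext
  intro z
  obtain ⟨k, rfl⟩ := cls_surj z
  exact h k

theorem conj_mem {m : ℕ} (g : FreeGroup (Fin (m + 1))) (k : K m) :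
    wind m (g * incl k * g⁻¹) = 1 := by
  rw [_root_.map_mul, _root_.map_mul, wind_incl, mul_one, _root_.map_inv, mul_inv_cancel]

/-- Conjugation `k ↦ g k g⁻¹` on the kernel `K`. -/
def conjK {m : ℕ} (g : FreeGroup (Fin (m + 1))) : K m →* K m where
  toFun k := mkK (g * incl k * g⁻¹) (conj_mem g k)
  map_one' := K_ext (by
    show g * incl 1 * g⁻¹ = incl 1
    rw [incl_one]
    group)
  map_mul' k l := K_ext (by
    show g * incl (k * l) * g⁻¹ = (g * incl k * g⁻¹) * (g * incl l * g⁻¹)
    rw [incl_mul]
    group)

theorem incl_conjK {m : ℕ} (g : FreeGroup (Fin (m + 1))) (k : K m) :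
    incl (conjK g k) = g * incl k * g⁻¹ := rfl

/-- The action of the deck transformation `t ^ n` on `H1`: conjugation by `x_0 ^ n`. -/
def deck (m : ℕ) (n : ℤ) : H1 m →+ H1 m := ind (conjK (of 0 ^ n))

theorem deck_cls {m : ℕ} (n : ℤ) (k : K m) : deck m n (cls k) = cls (conjK (of 0 ^ n) k) := rfl

theorem deck_zero {m : ℕ} (z : H1 m) : deck m 0 z = z := by
  obtain ⟨k, rfl⟩ := cls_surj z
  rw [deck_cls]
  congr 1
  apply K_ext
  rw [incl_conjK]
  simp

theorem deck_add {m : ℕ} (a b : ℤ) (z : H1 m) : deck m (a + b) z = deck m a (deck m b z) := by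
  obtain ⟨k, rfl⟩ := cls_surj z
  rw [deck_cls, deck_cls, deck_cls]
  congr 1
  apply K_ext
  rw [incl_conjK, incl_conjK, incl_conjK, zpow_add]
  group

/-- auxiliary: the deck action as a homomorphism of monoids -/
def deckHom (m : ℕ) : Multiplicative ℤ →* AddMonoid.End (H1 m) where
  toFun n := deck m (Multiplicative.toAdd n)
  map_one' := AddMonoidHom.ext fun z => deck_zero z
  map_mul' _ _ := AddMonoidHom.ext fun z => deck_add _ _ z

/-- auxiliary: the action of Laurent polynomials -/
noncomputable def act (m : ℕ) : ℤ[T;T⁻¹] →ₐ[ℤ] AddMonoid.End (H1 m) :=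
  AddMonoidAlgebra.lift ℤ (AddMonoid.End (H1 m)) ℤ (deckHom m)

/-- The action of `f = ∑ a_n T ^ n` on `z`: the sum of the `a_n • (t ^ n z)`. -/
noncomputable def smulH {m : ℕ} (f : ℤ[T;T⁻¹]) (z : H1 m) : H1 m :=
  Finsupp.sum f.coeff fun n a => a • deck m n z

theorem smulH_eq {m : ℕ} (f : ℤ[T;T⁻¹]) (z : H1 m) : smulH f z = act m f z := by
  unfold smulH act
  rw [AddMonoidAlgebra.lift_apply]
  unfold Finsupp.sum
  have key : ∀ (s : Finset ℤ) (g : ℤ → AddMonoid.End (H1 m)),
      (∑ n ∈ s, g n) z = ∑ n ∈ s, g n z := by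
    intro s g
    induction s using Finset.induction_on with
    | empty => rfl
    | insert a s ha ih =>
      rw [Finset.sum_insert ha, Finset.sum_insert ha, ← ih]
      rfl
  rw [key]
  apply Finset.sum_congr rfl
  intro n _
  rfl

/-- `H1` is a module over `ℤ[T;T⁻¹]`, `T` acting by the deck transformation. -/
noncomputable instance H1_module (m : ℕ) : Module ℤ[T;T⁻¹] (H1 m) where
  smul := smulH
  one_smul z := (smulH_eq 1 z).trans (by rw [_root_.map_one]; rfl)
  mul_smul f g z := by
    show smulH (f * g) z = smulH f (smulH g z)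
    rw [smulH_eq, smulH_eq, smulH_eq, _root_.map_mul]
    rfl
  smul_zero f := (smulH_eq f 0).trans (map_zero (act m f))
  smul_add f x y := by
    show smulH f (x + y) = smulH f x + smulH f y
    rw [smulH_eq, smulH_eq, smulH_eq, map_add]
  add_smul f g z := by
    show smulH (f + g) z = smulH f z + smulH g z
    rw [smulH_eq, smulH_eq, smulH_eq, map_add]
    rfl
  zero_smul z := (smulH_eq 0 z).trans (by rw [map_zero]; rfl)

theorem smul_def (m : ℕ) (f : ℤ[T;T⁻¹]) (z : H1 m) : f • z = act m f z := smulH_eq f z

theorem T_smul (m : ℕ) (n : ℤ) (z : H1 m) :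
    (T n : ℤ[T;T⁻¹]) • z = deck m n z := by
  rw [smul_def]
  have h := AddMonoidAlgebra.lift_single (R := ℤ) (A := AddMonoid.End (H1 m)) (deckHom m) n (1 : ℤ)
  rw [Algebra.smul_def, _root_.map_one, one_mul] at h
  exact DFunLike.congr_fun h z

theorem T_smul_cls (m : ℕ) (n : ℤ) (k : K m) :
    (T n : ℤ[T;T⁻¹]) • cls k = cls (conjK (of 0 ^ n) k) := by
  rw [T_smul]
  rfl

/-! ### the reduced Burau representation -/

theorem wind_of (m : ℕ) (j : Fin (m + 1)) : wind m (of j) = Multiplicative.ofAdd 1 := by
  simp [wind]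

theorem wind_artinGen {m : ℕ} (i : Fin m) (w : FreeGroup (Fin (m + 1))) :
    wind m (artinGen i w) = wind m w := by
  have : (wind m).comp (sigF i.castSucc i.succ) = wind m := by
    apply FreeGroup.ext_hom
    intro k
    show wind m (sigF i.castSucc i.succ (of k)) = wind m (of k)
    have hne : i.castSucc ≠ i.succ := (Fin.castSucc_lt_succ).ne
    by_cases h1 : k = i.castSucc
    · subst h1
      rw [sigF_p, _root_.map_mul, _root_.map_mul, _root_.map_inv, wind_of, wind_of]
      simp
    · by_cases h2 : k = i.succ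
      · subst h2
        rw [sigF_q hne, wind_of, wind_of]
      · rw [sigF_k h1 h2]
  exact DFunLike.congr_fun this w

theorem wind_artin {m : ℕ} (β : Braid m) (w : FreeGroup (Fin (m + 1))) :
    wind m (artin m β w) = wind m w := by
  let S : Subgroup (MulAut (FreeGroup (Fin (m + 1)))) :=
    { carrier := {φ | ∀ w, wind m (φ w) = wind m w}
      mul_mem' := by
        intro a b ha hb w
        show wind m (a (b w)) = wind m w
        rw [ha, hb]
      one_mem' := fun w => rfl
      inv_mem' := by
        intro a ha w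
        have := ha (a⁻¹ w)
        rw [MulAut.apply_inv_self] at this
        exact this.symm }
  have hS : (⊤ : Subgroup (Braid m)) ≤ S.comap (artin m) := by
    rw [← PresentedGroup.closure_range_of, Subgroup.closure_le]
    rintro _ ⟨i, rfl⟩ w
    rw [artin_of]
    exact wind_artinGen i w
  exact hS (Subgroup.mem_top β) w

theorem artin_mem {m : ℕ} (β : Braid m) (k : K m) : wind m (artin m β (incl k)) = 1 :=
  (wind_artin β (incl k)).trans (wind_incl k)

/-- The restriction of the Artin action of a braid to the kernel `K` of the total winding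
number. -/
def resK {m : ℕ} (β : Braid m) : K m →* K m where
  toFun k := mkK (artin m β (incl k)) (artin_mem β k)
  map_one' := K_ext (by
    show artin m β (incl 1) = incl 1
    rw [incl_one, _root_.map_one])
  map_mul' k l := K_ext (by
    show artin m β (incl (k * l)) = artin m β (incl k) * artin m β (incl l)
    rw [incl_mul, _root_.map_mul])

theorem incl_resK {m : ℕ} (β : Braid m) (k : K m) : incl (resK β k) = artin m β (incl k) := rfl

theorem ind_resK_T {m : ℕ} (β : Braid m) (n : ℤ) (z : H1 m) :
    ind (resK β) ((T n : ℤ[T;T⁻¹]) • z) = (T n : ℤ[T;T⁻¹]) • ind (resK β) z := by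
  obtain ⟨k, rfl⟩ := cls_surj z
  rw [T_smul_cls, ind_cls, ind_cls, T_smul_cls]
  have hc : wind m (artin m β (of 0 ^ n) * (of (0 : Fin (m + 1)) ^ n)⁻¹) = 1 := by
    rw [_root_.map_mul, wind_artin, _root_.map_inv, mul_inv_cancel]
  have e : resK β (conjK (of (0 : Fin (m + 1)) ^ n) k) =
      mkK _ hc * conjK (of (0 : Fin (m + 1)) ^ n) (resK β k) * (mkK _ hc)⁻¹ := by
    apply K_ext
    rw [incl_resK, incl_conjK, incl_mul, incl_mul, incl_conjK, incl_resK, incl_inv, incl_mkK,
      _root_.map_mul, _root_.map_mul, _root_.map_inv]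
    group
  rw [e, cls_mul, cls_mul, cls_inv]
  abel

theorem C_smul' {m : ℕ} (a : ℤ) (y : H1 m) : (C a : ℤ[T;T⁻¹]) • y = a • y := by
  have : (C a : ℤ[T;T⁻¹]) = a • (1 : ℤ[T;T⁻¹]) := by
    rw [zsmul_eq_mul, mul_one]
    simp
  rw [this, smul_assoc, one_smul]

theorem ind_resK_smul {m : ℕ} (β : Braid m) (f : ℤ[T;T⁻¹]) (z : H1 m) :
    ind (resK β) (f • z) = f • ind (resK β) z := by
  induction f using LaurentPolynomial.induction_on' with
  | add p q hp hq => rw [add_smul, map_add, hp, hq, add_smul]
  | C_mul_T n a =>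
    rw [mul_smul, mul_smul, C_smul', C_smul', map_zsmul, ind_resK_T]

/-- The reduced Burau representation: the action of a braid on `H1`, a linear map over
`ℤ[T;T⁻¹]`. -/
noncomputable def burau {m : ℕ} (β : Braid m) : H1 m →ₗ[ℤ[T;T⁻¹]] H1 m where
  toFun := ind (resK β)
  map_add' := map_add (ind (resK β))
  map_smul' := ind_resK_smul β

theorem burau_cls {m : ℕ} (β : Braid m) (k : K m) : burau β (cls k) = cls (resK β k) := rfl

theorem burau_mul {m : ℕ} (a b : Braid m) : burau (a * b) = burau a ∘ₗ burau b := by
  apply LinearMap.ext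
  intro z
  obtain ⟨k, rfl⟩ := cls_surj z
  show cls (resK (a * b) k) = cls (resK a (resK b k))
  congr 1
  apply K_ext
  rw [incl_resK, incl_resK, incl_resK, _root_.map_mul]
  rfl

theorem burau_one {m : ℕ} : burau (1 : Braid m) = LinearMap.id := by
  apply LinearMap.ext
  intro z
  obtain ⟨k, rfl⟩ := cls_surj z
  rfl

/-- The matrix of the reduced Burau representation in a basis of `H1`. -/
noncomputable def burauMatrix {m : ℕ} (b : Module.Basis (Fin m) ℤ[T;T⁻¹] (H1 m)) (β : Braid m) :
    Matrix (Fin m) (Fin m) ℤ[T;T⁻¹] :=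
  Matrix.of fun i j => b.repr (burau β (b j)) i

/-! ### real Puiseux series -/

/-- The Hahn series `t`, as a unit. -/
noncomputable def tE : (HahnSeries ℚ ℝ)ˣ where
  val := HahnSeries.single 1 1
  inv := HahnSeries.single (-1) 1
  val_inv := by
    rw [HahnSeries.single_mul_single]
    simp
  inv_val := by
    rw [HahnSeries.single_mul_single]
    simp

/-- The ring homomorphism from `ℤ[T;T⁻¹]` to Hahn series that sends `T` to `t`. -/
noncomputable def toE : ℤ[T;T⁻¹] →+* HahnSeries ℚ ℝ :=
  LaurentPolynomial.eval₂ (Int.castRingHom (HahnSeries ℚ ℝ)) tE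

/-- `f` is a real Puiseux series: its exponents lie in `(1/N) ℤ` for some `N ≥ 1`
(the exponents of a Hahn series are well-ordered, hence here bounded below). -/
def IsPuiseux (f : HahnSeries ℚ ℝ) : Prop :=
  ∃ N : ℕ, 1 ≤ N ∧ ∀ q ∈ f.support, ∃ k : ℤ, q = k / N

/-- `μ` is a root of the characteristic polynomial of `A`. -/
def IsEigenvalue {m : ℕ} (A : Matrix (Fin m) (Fin m) ℤ[T;T⁻¹]) (μ : HahnSeries ℚ ℝ) : Prop :=
  (A.charpoly.map toE).IsRoot μ

end Pool.Agent.V11209.Bur
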