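import Mathlib

set_option autoImplicit false
set_option linter.unusedSectionVars false

/-!
# Magnus coefficients and the Magnus bi-order of a free group

`cf w L` is the coefficient of the monomial `L` in the Magnus expansion `x_j ↦ 1 + X_j` of `w`.
-/

namespace Pool.Agent.V11209.Mag

open Monoid
open scoped Pointwise

section

variable {α : Type} [DecidableEq α]

/-- integer valued functions on words -/
abbrev M (α : Type) : Type := List α → ℤ

/-- left multiplication by `1 + X_j` -/
def act1 (j : α) (f : M α) : M α
  | [] => f []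
  | (i :: L) => f (i :: L) + if i = j then f L else 0

/-- left multiplication by `(1 + X_j)⁻¹` -/
def act1inv (j : α) (f : M α) : M α
  | [] => f []
  | (i :: L) => f (i :: L) - if i = j then act1inv j f L else 0

theorem act1_nil (j : α) (f : M α) : act1 j f [] = f [] := rfl
theorem act1_cons (j i : α) (f : M α) (L : List α) :
    act1 j f (i :: L) = f (i :: L) + if i = j then f L else 0 := rfl
theorem act1inv_nil (j : α) (f : M α) : act1inv j f [] = f [] := rfl
theorem act1inv_cons (j i : α) (f : M α) (L : List α) :
    act1inv j f (i :: L) = f (i :: L) - if i = j then act1inv j f L else 0 := rfl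

/-- left multiplication by `1 + X_j` as a permutation -/
def p1 (j : α) : Equiv.Perm (M α) where
  toFun := act1 j
  invFun := act1inv j
  left_inv f := by
    funext L
    induction L with
    | nil => rfl
    | cons i L ih =>
      rw [act1inv_cons, ih, act1_cons]
      ring
  right_inv f := by
    funext L
    cases L with
    | nil => rfl
    | cons i L =>
      rw [act1_cons, act1inv_cons]
      ring

theorem p1_apply (j : α) (f : M α) : p1 j f = act1 j f := rfl
theorem p1_inv_apply (j : α) (f : M α) : (p1 j)⁻¹ f = act1inv j f := rfl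

/-- the action of the free group on functions on words -/
def rep : FreeGroup α →* Equiv.Perm (M α) := FreeGroup.lift p1

/-- the unit -/
def delta : M α
  | [] => 1
  | (_ :: _) => 0

/-- the Magnus coefficients of `w` -/
def cf (w : FreeGroup α) : M α := rep w delta

theorem rep_of_mul (j : α) (w : FreeGroup α) (f : M α) :
    rep (FreeGroup.of j * w) f = act1 j (rep w f) := by
  rw [map_mul]
  simp [rep, p1_apply]

theorem rep_inv_of_mul (j : α) (w : FreeGroup α) (f : M α) :
    act1 j (rep ((FreeGroup.of j)⁻¹ * w) f) = rep w f := by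
  rw [← rep_of_mul, mul_inv_cancel_left]

theorem cf_one : cf (1 : FreeGroup α) = delta := by
  simp [cf]

theorem cf_of_mul (j : α) (w : FreeGroup α) : cf (FreeGroup.of j * w) = act1 j (cf w) :=
  rep_of_mul j w delta

theorem act1_inj (j : α) : Function.Injective (act1 (α := α) j) := (p1 j).injective

/-- induction on free groups -/
theorem ind {P : FreeGroup α → Prop} (h1 : P 1) (hm : ∀ j w, P w → P (FreeGroup.of j * w))
    (hi : ∀ j w, P w → P ((FreeGroup.of j)⁻¹ * w)) : ∀ w, P w := by
  intro w
  have key : ∀ w v : FreeGroup α, P v → P (w * v) := by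
    intro w
    induction w using FreeGroup.induction_on with
    | C1 => intro v hv; simpa using hv
    | of j => intro v hv; exact hm j v hv
    | inv_of j _ => intro v hv; exact hi j v hv
    | mul x y hx hy => intro v hv; rw [mul_assoc]; exact hx _ (hy _ hv)
  simpa using key w 1 h1

/-- `conv g L f = ∑_{L = A ++ B} f A * g B` -/
def conv (g : M α) : List α → M α → ℤ
  | [], f => f [] * g []
  | (a :: L), f => f [] * g (a :: L) + conv g L (fun A => f (a :: A))

theorem conv_nil (g f : M α) : conv g [] f = f [] * g [] := rfl
theorem conv_cons (g f : M α) (a : α) (L : List α) :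
    conv g (a :: L) f = f [] * g (a :: L) + conv g L (fun A => f (a :: A)) := rfl

theorem conv_add (g : M α) (L : List α) : ∀ (f f' : M α),
    conv g L (fun A => f A + f' A) = conv g L f + conv g L f' := by
  induction L with
  | nil => intro f f'; simp only [conv_nil]; ring
  | cons a L ih => intro f f'; simp only [conv_cons]; rw [ih]; ring

theorem conv_zero (g : M α) (L : List α) : conv g L (fun _ => 0) = 0 := by
  induction L with
  | nil => simp [conv_nil]
  | cons a L ih => rw [conv_cons, ih]; ring

theorem conv_ite (g : M α) (L : List α) (p : Prop) [Decidable p] (f : M α) :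
    conv g L (fun A => if p then f A else 0) = if p then conv g L f else 0 := by
  split_ifs with h
  · rfl
  · exact conv_zero g L

theorem conv_delta (g : M α) (L : List α) : conv g L delta = g L := by
  cases L with
  | nil => simp [conv_nil, delta]
  | cons a L =>
    rw [conv_cons]
    have : (fun A => (delta (a :: A) : ℤ)) = fun _ => 0 := by
      funext A; rfl
    rw [this, conv_zero]
    simp [delta]

theorem conv_act1 (g f : M α) (j : α) (L : List α) :
    conv g L (act1 j f) = act1 j (fun L => conv g L f) L := by
  cases L with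
  | nil => rfl
  | cons a L =>
    rw [conv_cons, act1_cons, act1_nil]
    have : (fun A => act1 j f (a :: A)) = fun A => f (a :: A) + if a = j then f A else 0 := by
      funext A; rfl
    rw [this, conv_add, conv_ite, conv_cons]
    ring

theorem rep_eq_conv (u : FreeGroup α) : ∀ g : M α, rep u g = fun L => conv g L (cf u) := by
  induction u using ind with
  | h1 =>
    intro g
    funext L
    rw [cf_one, conv_delta]
    simp
  | hm j w ih =>
    intro g
    rw [rep_of_mul, ih g, cf_of_mul]
    funext L
    rw [conv_act1]
  | hi j w ih =>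
    intro g
    apply act1_inj j
    rw [rep_inv_of_mul, ih g]
    funext L
    rw [← conv_act1, ← cf_of_mul, mul_inv_cancel_left]

theorem cf_mul (u v : FreeGroup α) (L : List α) : cf (u * v) L = conv (cf v) L (cf u) := by
  have : cf (u * v) = rep u (cf v) := by
    simp [cf]
  rw [this, rep_eq_conv]

theorem cf_nil (w : FreeGroup α) : cf w [] = 1 := by
  induction w using ind with
  | h1 => rw [cf_one]; rfl
  | hm j w ih => rw [cf_of_mul, act1_nil, ih]
  | hi j w ih =>
    have h := rep_inv_of_mul j w (delta (α := α))
    have h2 := congrFun h []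
    rw [act1_nil] at h2
    exact h2.trans ih

/-- The set of alternating lists. -/
def Alt (L : List α) : Prop := L.IsChain (· ≠ ·)

theorem alt_cons {i : α} {L : List α} (h : Alt (i :: L)) : L.head? ≠ some i := by
  cases L with
  | nil => simp
  | cons a L =>
    unfold Alt at h
    rw [List.isChain_cons_cons] at h
    intro h2
    simp at h2
    exact h.1 h2.symm

theorem alt_tail {i : α} {L : List α} (h : Alt (i :: L)) : Alt L := by
  unfold Alt at *
  exact h.of_cons

theorem alt_cons' {i : α} {L : List α} (h : Alt L) (h2 : L.head? ≠ some i) : Alt (i :: L) := by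
  cases L with
  | nil => unfold Alt; simp
  | cons a L =>
    unfold Alt at *
    rw [List.isChain_cons_cons]
    refine ⟨?_, h⟩
    intro h3
    apply h2
    simp [h3]

theorem act1_other (i : α) (f : M α) (L : List α) (h : L.head? ≠ some i) :
    act1 i f L = f L := by
  cases L with
  | nil => rfl
  | cons a L =>
    rw [act1_cons, if_neg, add_zero]
    rintro rfl
    exact h rfl

theorem act1inv_other (i : α) (f : M α) (L : List α) (h : L.head? ≠ some i) :
    act1inv i f L = f L := by
  cases L with
  | nil => rfl
  | cons a L =>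
    rw [act1inv_cons, if_neg, sub_zero]
    rintro rfl
    exact h rfl

theorem pow_act (i : α) (n : ℤ) : ∀ f : M α,
    (∀ L : List α, L.head? ≠ some i → ((p1 i) ^ n) f L = f L) ∧
    (∀ L : List α, L.head? ≠ some i → ((p1 i) ^ n) f (i :: L) = f (i :: L) + n * f L) := by
  induction n using Int.induction_on with
  | zero => intro f; simp
  | succ k ih =>
    intro f
    have e : ∀ L, ((p1 i) ^ ((k : ℤ) + 1)) f L = ((p1 i) ^ (k : ℤ)) (act1 i f) L := by
      intro L
      rw [zpow_add_one]
      rfl
    obtain ⟨h1, h2⟩ := ih (act1 i f)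
    refine ⟨fun L hL => ?_, fun L hL => ?_⟩
    · rw [e, h1 L hL, act1_other i f L hL]
    · rw [e, h2 L hL, act1_other i f L hL, act1_cons, if_pos rfl]
      ring
  | pred k ih =>
    intro f
    have e : ∀ L, ((p1 i) ^ (-(k : ℤ) - 1)) f L = ((p1 i) ^ (-(k : ℤ))) (act1inv i f) L := by
      intro L
      rw [zpow_sub_one]
      rfl
    obtain ⟨h1, h2⟩ := ih (act1inv i f)
    refine ⟨fun L hL => ?_, fun L hL => ?_⟩
    · rw [e, h1 L hL, act1inv_other i f L hL]
    · rw [e, h2 L hL, act1inv_other i f L hL, act1inv_cons, if_pos rfl,
        act1inv_other i f L hL]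
      ring

/-- The ping-pong sets. -/
def PP (i : α) : Set (M α) :=
  {f | ∃ L : List α, Alt (i :: L) ∧ f (i :: L) ≠ 0 ∧ ∀ L' : List α, Alt L' → f L' ≠ 0 →
    L'.length ≤ (i :: L).length ∧ (L'.length = (i :: L).length → L'.head? = some i)}

theorem pp_step (i j : α) (hij : i ≠ j) (n : ℤ) (hn : n ≠ 0) (f : M α) (hf : f ∈ PP j) :
    ((p1 i) ^ n) f ∈ PP i := by
  obtain ⟨L, hL, hfL, hmax⟩ := hf
  obtain ⟨h1, h2⟩ := pow_act i n f
  have hh : (j :: L).head? ≠ some i := by
    simp only [List.head?_cons, ne_eq, Option.some.injEq]
    exact fun h => hij h.symm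
  have hz : f (i :: j :: L) = 0 := by
    by_contra hne
    have := (hmax (i :: j :: L) (alt_cons' hL hh) hne).1
    simp at this
  refine ⟨j :: L, alt_cons' hL hh, ?_, ?_⟩
  · rw [h2 _ hh, hz, zero_add]
    exact mul_ne_zero hn hfL
  · intro L' hL' hne
    by_cases hc : L'.head? = some i
    · refine ⟨?_, fun _ => hc⟩
      cases L' with
      | nil => simp
      | cons a L'' =>
        simp only [List.head?_cons, Option.some.injEq] at hc
        subst hc
        rw [h2 L'' (alt_cons hL')] at hne
        by_cases hfz : f L'' = 0
        · rw [hfz, mul_zero, add_zero] at hne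
          have := (hmax _ hL' hne).1
          simp only [List.length_cons] at this ⊢
          omega
        · have := (hmax _ (alt_tail hL') hfz).1
          simp only [List.length_cons] at this ⊢
          omega
    · rw [h1 L' hc] at hne
      have := (hmax _ hL' hne).1
      simp only [List.length_cons] at this ⊢
      refine ⟨by omega, fun h => ?_⟩
      omega

theorem rep_injective [Nontrivial α] : Function.Injective (rep (α := α)) := by
  have this : rep (α := α) =
      (CoprodI.lift fun i => FreeGroup.lift fun _ : Unit => p1 i).comp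
        (@freeGroupEquivCoprodI α).toMonoidHom := by
    ext i : 1
    simp [rep]
  rw [this, MonoidHom.coe_comp]
  clear this
  refine Function.Injective.comp ?_ (MulEquiv.injective freeGroupEquivCoprodI)
  let H : α → Type _ := fun _i => FreeGroup Unit
  let f : ∀ i, H i →* Equiv.Perm (M α) := fun i => FreeGroup.lift fun _ => p1 i
  refine CoprodI.lift_injective_of_ping_pong (H := H) f ?_ PP ?_ ?_ ?_
  · right
    refine ⟨Classical.arbitrary α, ?_⟩
    show 3 ≤ Cardinal.mk (FreeGroup Unit)
    rw [FreeGroup.freeGroupUnitEquivInt.cardinal_eq, Cardinal.mk_denumerable]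
    exact Cardinal.natCast_le_aleph0
  · intro i
    refine ⟨fun L => if L = [i] then 1 else 0, [], ?_, ?_, ?_⟩
    · unfold Alt; simp
    · simp
    · intro L' _ hne
      by_cases h : L' = [i]
      · subst h; simp
      · simp [h] at hne
  · intro i j hij
    rw [Function.onFun, Set.disjoint_left]
    rintro v ⟨L1, a1, b1, c1⟩ ⟨L2, a2, b2, c2⟩
    have h1 := c1 _ a2 b2
    have h2 := c2 _ a1 b1
    have h3 := h1.2 (le_antisymm h1.1 h2.1)
    simp only [List.head?_cons, Option.some.injEq] at h3
    exact hij h3.symm
  · intro i j hij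
    refine FreeGroup.freeGroupUnitEquivInt.forall_congr_left.mpr ?_
    intro n hne1
    have hnne0 : n ≠ 0 := by
      rintro rfl
      apply hne1
      simp [H, FreeGroup.freeGroupUnitEquivInt]
    change FreeGroup.lift (fun _ => p1 i) (FreeGroup.of () ^ n) • PP j ⊆ PP i
    simp only [map_zpow, FreeGroup.lift_apply_of]
    rintro _ ⟨v, hv, rfl⟩
    exact pp_step i j hij n hnne0 v hv

theorem faithful [Nontrivial α] (w : FreeGroup α) (h : ∀ L : List α, L ≠ [] → cf w L = 0) :
    w = 1 := by
  have hd : cf w = delta := by
    funext L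
    cases L with
    | nil => rw [cf_nil]; rfl
    | cons a L => rw [h _ (by simp)]; rfl
  have key : rep w = rep (1 : FreeGroup α) := by
    apply Equiv.ext
    intro g
    funext L
    rw [rep_eq_conv w g, hd]
    simp only [conv_delta]
    simp
  exact rep_injective key

/-! ### the positive cone -/

/-- The lists smaller in the length-lexicographic order. -/
theorem conv_low (u v : FreeGroup α) (L : List α) (hL : L ≠ [])
    (h : ∀ L' : List α, L' ≠ [] → L'.length < L.length → cf u L' = 0) :
    cf (u * v) L = cf u L + cf v L := by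
  rw [cf_mul]
  have key : ∀ (L : List α) (g f : M α), (∀ L' : List α, L'.length < L.length → f L' = 0) →
      conv g L f = f L * g [] := by
    intro L
    induction L with
    | nil => intro g f _; rw [conv_nil]
    | cons a L ih =>
      intro g f hf
      rw [conv_cons, hf [] (by simp), ih g _ (fun L' hL' => hf (a :: L') (by simpa using hL'))]
      ring
  cases L with
  | nil => exact absurd rfl hL
  | cons a L =>
    rw [conv_cons, key L _ _ (fun L' hL' => h (a :: L') (by simp) (by simpa using hL'))]
    rw [cf_nil, cf_nil]
    ring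

variable (α) in
/-- The span of the coefficient functions of words of length less than `n`. -/
def Low (n : ℕ) : Submodule ℤ (FreeGroup α → ℤ) :=
  Submodule.span ℤ {f | ∃ L : List α, L.length < n ∧ f = fun w => cf w L}

theorem low_mono {n m : ℕ} (h : n ≤ m) : Low α n ≤ Low α m := by
  apply Submodule.span_mono
  rintro f ⟨L, hL, rfl⟩
  exact ⟨L, by omega, rfl⟩

theorem mem_low {n : ℕ} {L : List α} (h : L.length < n) : (fun w => cf w L) ∈ Low α n :=
  Submodule.subset_span ⟨L, h, rfl⟩

theorem low_zero (f : FreeGroup α → ℤ) (hf : f ∈ Low α 0) : f = 0 := by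
  unfold Low at hf
  have : {f : FreeGroup α → ℤ | ∃ L : List α, L.length < 0 ∧ f = fun w => cf w L} = ∅ := by
    ext f
    simp
  rw [this, Submodule.span_empty] at hf
  simpa using hf

/-- Integration. -/
theorem low_int (n : ℕ) (j : α) (f : FreeGroup α → ℤ) (hf : f ∈ Low α n) :
    ∃ F ∈ Low α (n + 1), F 1 = 0 ∧ ∀ i w, F (FreeGroup.of i * w) =
      F w + if i = j then f w else 0 := by
  unfold Low at hf
  induction hf using Submodule.span_induction with
  | mem f hf =>
    obtain ⟨L, hL, rfl⟩ := hf
    refine ⟨fun w => cf w (j :: L), mem_low (by simpa using hL), ?_, ?_⟩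
    · show cf (1 : FreeGroup α) (j :: L) = 0
      rw [cf_one]; rfl
    · intro i w
      show cf (FreeGroup.of i * w) (j :: L) = cf w (j :: L) + if i = j then cf w L else 0
      rw [cf_of_mul, act1_cons]
      simp only [eq_comm]
  | zero => exact ⟨0, Submodule.zero_mem _, rfl, fun i w => by simp⟩
  | add a b _ _ ha hb =>
    obtain ⟨a', ha', ha1, ha2⟩ := ha
    obtain ⟨b', hb', hb1, hb2⟩ := hb
    refine ⟨a' + b', Submodule.add_mem _ ha' hb', by simp [ha1, hb1], fun i w => ?_⟩
    have e1 := ha2 i w
    have e2 := hb2 i w
    simp only [Pi.add_apply]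
    rw [e1, e2]
    split_ifs <;> ring
  | smul c a _ ha =>
    obtain ⟨a', ha', ha1, ha2⟩ := ha
    refine ⟨c • a', Submodule.smul_mem _ c ha', by simp [ha1], fun i w => ?_⟩
    have e1 := ha2 i w
    simp only [Pi.smul_apply, smul_eq_mul]
    rw [e1]
    split_ifs <;> ring

theorem const_of (g : FreeGroup α → ℤ) (h : ∀ i w, g (FreeGroup.of i * w) = g w) (w : FreeGroup α) :
    g w = g 1 := by
  induction w using ind with
  | h1 => rfl
  | hm j w ih => rw [h, ih]
  | hi j w ih =>
    have := h j ((FreeGroup.of j)⁻¹ * w)
    rw [mul_inv_cancel_left] at this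
    rw [← this, ih]

/-- An endomorphism that is the identity on the abelianization. -/
def IA (φ : FreeGroup α →* FreeGroup α) : Prop :=
  ∀ w i, cf (φ w) [i] = cf w [i]

theorem cf_single_mul (u v : FreeGroup α) (i : α) : cf (u * v) [i] = cf u [i] + cf v [i] := by
  apply conv_low u v [i] (by simp)
  intro L' h1 h2
  exfalso
  apply h1
  simp only [List.length_cons, List.length_nil] at h2
  exact List.length_eq_zero_iff.1 (by omega)

variable [Fintype α]

theorem ia_low (φ : FreeGroup α →* FreeGroup α) (hφ : IA φ) (n : ℕ) :
    ∀ L : List α, L.length = n → (fun w => cf (φ w) L - cf w L) ∈ Low α n := by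
  induction n using Nat.strong_induction_on with
  | _ n ih =>
    intro L hL
    cases L with
    | nil =>
      have : (fun w => cf (φ w) ([] : List α) - cf w []) = 0 := by
        funext w
        rw [cf_nil, cf_nil]
        rfl
      rw [this]
      exact Submodule.zero_mem _
    | cons a L =>
      simp only [List.length_cons] at hL
      subst hL
      -- convolutions are low
      have hc1 : ∀ K : List α, K.length < L.length + 1 → ∀ h : M α,
          (fun w => conv (cf (φ w)) K h) ∈ Low α (K.length + 1) := by
        intro K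
        induction K with
        | nil =>
          intro _ h
          have : (fun w => conv (cf (φ w)) [] h) = h [] • (fun w => cf w ([] : List α)) := by
            funext w
            simp only [conv_nil, cf_nil, Pi.smul_apply, smul_eq_mul]
          rw [this]
          exact Submodule.smul_mem _ _ (mem_low (by simp))
        | cons b K ihK =>
          intro hK h
          have h1 := ihK (by simp only [List.length_cons] at hK; omega) (fun A => h (b :: A))
          have h2 := ih (K.length + 1) (by simpa using hK) (b :: K) (by simp)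
          have : (fun w => conv (cf (φ w)) (b :: K) h) =
              h [] • (fun w => cf (φ w) (b :: K) - cf w (b :: K)) +
              (h [] • (fun w => cf w (b :: K)) +
                (fun w => conv (cf (φ w)) K (fun A => h (b :: A)))) := by
            funext w
            simp only [conv_cons, Pi.add_apply, Pi.smul_apply, smul_eq_mul]
            ring
          rw [this]
          refine Submodule.add_mem _ (Submodule.smul_mem _ _ (low_mono (by simp) h2))
            (Submodule.add_mem _ (Submodule.smul_mem _ _ (mem_low (by simp)))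
              (low_mono (by simp) h1))
      have hc2 : ∀ h : M α,
          (fun w => conv (cf (φ w)) L h - h [] * cf (φ w) L) ∈ Low α L.length := by
        intro h
        cases L with
        | nil =>
          have : (fun w => conv (cf (φ w)) [] h - h [] * cf (φ w) []) = 0 := by
            funext w
            simp [conv_nil]
          rw [this]
          exact Submodule.zero_mem _
        | cons b K =>
          have h1 := hc1 K (by simp) (fun A => h (b :: A))
          have : (fun w => conv (cf (φ w)) (b :: K) h - h [] * cf (φ w) (b :: K)) =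
              (fun w => conv (cf (φ w)) K (fun A => h (b :: A))) := by
            funext w
            rw [conv_cons]
            ring
          rw [this]
          exact h1
      -- the differences
      have hdiff : ∀ j : α, ∃ s ∈ Low α L.length, ∀ w,
          (cf (φ (FreeGroup.of j * w)) (a :: L) - cf (FreeGroup.of j * w) (a :: L)) =
          (cf (φ w) (a :: L) - cf w (a :: L)) + s w := by
        intro j
        have hI := ih L.length (by simp) L rfl
        refine ⟨(if a = j then (1 : ℤ) else 0) • (fun w => cf (φ w) L - cf w L) +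
          (fun w => conv (cf (φ w)) L (fun A => cf (φ (FreeGroup.of j)) (a :: A)) -
            cf (φ (FreeGroup.of j)) [a] * cf (φ w) L),
          Submodule.add_mem _ (Submodule.smul_mem _ _ hI) (hc2 _), ?_⟩
        intro w
        have e1 : cf (φ (FreeGroup.of j)) [a] = if a = j then (1 : ℤ) else 0 := by
          rw [hφ]
          have := cf_of_mul j (1 : FreeGroup α)
          rw [mul_one, cf_one] at this
          rw [this, act1_cons]
          simp [delta]
        rw [map_mul, cf_mul, conv_cons, cf_nil, cf_of_mul, act1_cons]
        simp only [Pi.add_apply, Pi.smul_apply, smul_eq_mul]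
        rw [e1]
        split_ifs <;> ring
      choose s hs hs2 using hdiff
      choose S hS hS1 hS2 using fun j => low_int L.length j (s j) (hs j)
      have hconst := const_of (fun w => (cf (φ w) (a :: L) - cf w (a :: L)) - (∑ j, S j) w) (by
        intro i w
        rw [hs2 i w, Finset.sum_apply, Finset.sum_apply,
          Finset.sum_congr rfl (fun j _ => hS2 j i w), Finset.sum_add_distrib,
          Finset.sum_ite_eq Finset.univ i (fun j => s j w)]
        simp only [Finset.mem_univ, if_true]
        ring)
      have h1 : (∑ j, S j) (1 : FreeGroup α) = 0 := by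
        rw [Finset.sum_apply]
        exact Finset.sum_eq_zero (fun j _ => hS1 j)
      have : (fun w => cf (φ w) (a :: L) - cf w (a :: L)) = ∑ j, S j := by
        funext w
        have h2 := hconst w
        simp only [h1, map_one, sub_self] at h2
        linarith
      rw [this]
      exact Submodule.sum_mem _ (fun j _ => hS j)

theorem low_eval (n : ℕ) (f : FreeGroup α → ℤ) (hf : f ∈ Low α n) (w : FreeGroup α)
    (hw : ∀ L : List α, L ≠ [] → L.length < n → cf w L = 0) : f w = f 1 := by
  unfold Low at hf
  induction hf using Submodule.span_induction with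
  | mem f hf =>
    obtain ⟨L, hL, rfl⟩ := hf
    by_cases h : L = []
    · subst h
      simp only [cf_nil]
    · simp only
      rw [hw L h hL, cf_one]
      cases L with
      | nil => exact absurd rfl h
      | cons a L => rfl
  | zero => rfl
  | add a b _ _ ha hb => simp only [Pi.add_apply]; rw [ha, hb]
  | smul c a _ ha => simp only [Pi.smul_apply]; rw [ha]

theorem ia_eq (φ : FreeGroup α →* FreeGroup α) (hφ : IA φ) (w : FreeGroup α) (L : List α)
    (hw : ∀ L' : List α, L' ≠ [] → L'.length < L.length → cf w L' = 0) :
    cf (φ w) L = cf w L := by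
  have h := low_eval _ _ (ia_low φ hφ L.length L rfl) w hw
  simp only [map_one, sub_self] at h
  linarith

end

/-! ### the order -/

section

variable {n : ℕ}

/-- Shortlex comparison of words. -/
def SL (L L' : List (Fin n)) : Prop := List.Shortlex (· < ·) L L'

/-- The Magnus positive cone. -/
def Cone (n : ℕ) : Set (FreeGroup (Fin n)) :=
  {w | ∃ L : List (Fin n), L ≠ [] ∧ 0 < cf w L ∧ ∀ L', L' ≠ [] → SL L' L → cf w L' = 0}

theorem SL_wf : WellFounded (SL (n := n)) := List.Shortlex.wf wellFounded_lt

theorem SL_len {L L' : List (Fin n)} (h : SL L L') : L.length ≤ L'.length := by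
  rcases List.shortlex_def.1 h with h | h
  · exact h.le
  · exact h.1.le

theorem SL_of_len {L L' : List (Fin n)} (h : L.length < L'.length) : SL L L' :=
  List.Shortlex.of_length_lt h

theorem SL_tri (L L' : List (Fin n)) : SL L L' ∨ L = L' ∨ SL L' L := by
  by_contra hcon
  push Not at hcon
  exact hcon.2.1 ((List.Shortlex.trichotomous (r := ((· < ·) : Fin n → Fin n → Prop))).trichotomous
    L L' hcon.1 hcon.2.2)

theorem cf_inv_low (w : FreeGroup (Fin n)) (L : List (Fin n)) (hL : L ≠ [])
    (h : ∀ L' : List (Fin n), L' ≠ [] → L'.length < L.length → cf w L' = 0) :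
    cf w⁻¹ L = - cf w L := by
  have h1 := conv_low w w⁻¹ L hL h
  rw [mul_inv_cancel, cf_one] at h1
  have : (delta L : ℤ) = 0 := by
    cases L with
    | nil => exact absurd rfl hL
    | cons a L => rfl
  rw [this] at h1
  linarith

theorem cone_one : (1 : FreeGroup (Fin n)) ∉ Cone n := by
  rintro ⟨L, hL, h, _⟩
  rw [cf_one] at h
  cases L with
  | nil => exact hL rfl
  | cons a L => exact lt_irrefl _ h

theorem cone_total [Nontrivial (Fin n)] (w : FreeGroup (Fin n)) (hw : w ≠ 1) : w ∈ Cone n ∨ w⁻¹ ∈ Cone n := by
  have h1 : ∃ L : List (Fin n), L ≠ [] ∧ cf w L ≠ 0 := by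
    by_contra hcon
    push Not at hcon
    exact hw (faithful w hcon)
  let S : Set (List (Fin n)) := {L | L ≠ [] ∧ cf w L ≠ 0}
  have hS : S.Nonempty := h1
  let L := SL_wf.min S hS
  have hL : L ∈ S := SL_wf.min_mem S hS
  have hmin : ∀ L', L' ≠ [] → SL L' L → cf w L' = 0 := by
    intro L' h2 h3
    by_contra hne
    exact SL_wf.not_lt_min S (x := L') ⟨h2, hne⟩ h3
  rcases lt_or_gt_of_ne hL.2 with h | h
  · right
    refine ⟨L, hL.1, ?_, ?_⟩
    · rw [cf_inv_low w L hL.1 (fun L' a b => hmin L' a (SL_of_len b))]
      linarith
    · intro L' h2 h3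
      rw [cf_inv_low w L' h2 (fun L'' a b => hmin L'' a
        (SL_of_len (lt_of_lt_of_le b (SL_len h3)))), hmin L' h2 h3, neg_zero]
  · left
    exact ⟨L, hL.1, h, hmin⟩

theorem cone_mul (u v : FreeGroup (Fin n)) (hu : u ∈ Cone n) (hv : v ∈ Cone n) :
    u * v ∈ Cone n := by
  obtain ⟨L1, a1, b1, c1⟩ := hu
  obtain ⟨L2, a2, b2, c2⟩ := hv
  have hadd : ∀ L : List (Fin n), L ≠ [] → L.length ≤ L1.length →
      cf (u * v) L = cf u L + cf v L := by
    intro L hL hl
    exact conv_low u v L hL (fun L' h1 h2 => c1 L' h1 (SL_of_len (by omega)))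
  have htr : ∀ {A B C : List (Fin n)}, SL A B → SL B C → SL A C := by
    intro A B C h1 h2
    rcases List.shortlex_def.1 h1 with h1 | h1 <;> rcases List.shortlex_def.1 h2 with h2 | h2
    · exact SL_of_len (by omega)
    · exact SL_of_len (by omega)
    · exact SL_of_len (by omega)
    · refine List.shortlex_def.2 (Or.inr ⟨by omega, ?_⟩)
      have e1 : A < B := h1.2
      have e2 : B < C := h2.2
      exact lt_trans e1 e2
  rcases SL_tri L1 L2 with h | h | h
  · refine ⟨L1, a1, ?_, ?_⟩
    · rw [hadd L1 a1 le_rfl, c2 L1 a1 h]; linarith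
    · intro L' h1 h2
      rw [hadd L' h1 (SL_len h2), c1 L' h1 h2, c2 L' h1 (htr h2 h), add_zero]
  · subst h
    refine ⟨L1, a1, ?_, ?_⟩
    · rw [hadd L1 a1 le_rfl]; linarith
    · intro L' h1 h2
      rw [hadd L' h1 (SL_len h2), c1 L' h1 h2, c2 L' h1 h2, add_zero]
  · refine ⟨L2, a2, ?_, ?_⟩
    · rw [hadd L2 a2 (SL_len h), c1 L2 a2 h]; linarith
    · intro L' h1 h2
      rw [hadd L' h1 ((SL_len h2).trans (SL_len h)), c1 L' h1 (htr h2 h), c2 L' h1 h2, add_zero]

theorem cone_ia (φ : FreeGroup (Fin n) →* FreeGroup (Fin n)) (hφ : IA φ) (u : FreeGroup (Fin n))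
    (hu : u ∈ Cone n) : φ u ∈ Cone n := by
  obtain ⟨L, a, b, c⟩ := hu
  refine ⟨L, a, ?_, ?_⟩
  · rw [ia_eq φ hφ u L (fun L' h1 h2 => c L' h1 (SL_of_len h2))]
    exact b
  · intro L' h1 h2
    rw [ia_eq φ hφ u L' (fun L'' h3 h4 => c L'' h3 (SL_of_len (lt_of_lt_of_le h4 (SL_len h2))))]
    exact c L' h1 h2

theorem cf_single_inv (g : FreeGroup (Fin n)) (i : Fin n) : cf g⁻¹ [i] = - cf g [i] := by
  have h := cf_single_mul g g⁻¹ i
  rw [mul_inv_cancel, cf_one] at h
  have : (delta [i] : ℤ) = 0 := rfl
  linarith

theorem cone_conj (g u : FreeGroup (Fin n)) (hu : u ∈ Cone n) : g * u * g⁻¹ ∈ Cone n := by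
  have := cone_ia (MulAut.conj g).toMonoidHom (by
    intro w i
    show cf (g * w * g⁻¹) [i] = cf w [i]
    rw [cf_single_mul, cf_single_mul, cf_single_inv]
    ring) u hu
  exact this

theorem cone_image (φ : MulAut (FreeGroup (Fin n))) (hφ : IA φ.toMonoidHom) :
    (fun w => φ w) '' Cone n = Cone n := by
  apply Set.Subset.antisymm
  · rintro _ ⟨u, hu, rfl⟩
    exact cone_ia φ.toMonoidHom hφ u hu
  · intro u hu
    refine ⟨φ.symm u, ?_, by simp⟩
    apply cone_ia φ.symm.toMonoidHom ?_ u hu
    intro w i
    have := hφ (φ.symm w) i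
    have e : φ.toMonoidHom (φ.symm w) = w := φ.apply_symm_apply w
    rw [e] at this
    exact this.symm

end

end Pool.Agent.V11209.Mag
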