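import Mathlib
import Pool.Agent.V11209.BurauDefs
import Pool.Agent.V11209.Mag

set_option autoImplicit false

namespace Pool.Agent.V11209.Bur

open FreeGroup (of)
open LaurentPolynomial

/-! ### Fox calculus -/

abbrev R := ℤ[T;T⁻¹]

/-- the unit `T` -/
noncomputable def Tu : Rˣ := ⟨T 1, T (-1), by rw [← T_add]; simp, by rw [← T_add]; simp⟩

theorem Tu_zpow (n : ℤ) : ((Tu ^ n : Rˣ) : R) = T n := by
  have h : ∀ n : ℕ, ((Tu ^ n : Rˣ) : R) = T n := by
    intro n
    rw [Units.val_pow_eq_pow_val]
    show (T 1 : R) ^ n = T n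
    rw [T_pow]
    simp
  have h' : ∀ n : ℕ, (((Tu ^ n)⁻¹ : Rˣ) : R) = T (-(n : ℤ)) := by
    intro n
    rw [← inv_pow, Units.val_pow_eq_pow_val]
    show (T (-1) : R) ^ n = T (-(n : ℤ))
    rw [T_pow]
    simp
  cases n with
  | ofNat n =>
    show ((Tu ^ (n : ℤ) : Rˣ) : R) = T n
    rw [zpow_natCast]
    exact h n
  | negSucc n =>
    rw [zpow_negSucc]
    exact h' (n + 1)

abbrev V (m : ℕ) := Fin m → R

noncomputable def phi (m : ℕ) : Multiplicative ℤ →* MulAut (Multiplicative (V m)) :=
  (MulAutMultiplicative (V m)).symm.toMonoidHom.comp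
    ((DistribMulAction.toAddAut Rˣ (V m)).comp (zpowersHom Rˣ Tu))

theorem phi_apply (m : ℕ) (n : Multiplicative ℤ) (v : Multiplicative (V m)) :
    Multiplicative.toAdd (phi m n v) = (T (Multiplicative.toAdd n) : R) • Multiplicative.toAdd v := by
  rw [← Tu_zpow]
  rfl

/-- the vectors of the generators -/
noncomputable def ee (m : ℕ) (j : Fin (m + 1)) : V m :=
  Fin.cases 0 (fun i => Pi.single i 1) j

/-- the Fox derivatives, as a homomorphism to a semidirect product -/
noncomputable def fox (m : ℕ) :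
    FreeGroup (Fin (m + 1)) →* (Multiplicative (V m)) ⋊[phi m] (Multiplicative ℤ) :=
  FreeGroup.lift fun j => ⟨Multiplicative.ofAdd (ee m j), Multiplicative.ofAdd 1⟩

theorem fox_right (m : ℕ) (w : FreeGroup (Fin (m + 1))) : (fox m w).right = wind m w := by
  have : (SemidirectProduct.rightHom).comp (fox m) = wind m := by
    apply FreeGroup.ext_hom
    intro k
    simp [fox, wind]
  exact DFunLike.congr_fun this w

/-- Fox derivatives -/
noncomputable def D (m : ℕ) (w : FreeGroup (Fin (m + 1))) : V m := Multiplicative.toAdd (fox m w).left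

theorem D_mul (m : ℕ) (a b : FreeGroup (Fin (m + 1))) :
    D m (a * b) = D m a + (T (Multiplicative.toAdd (wind m a)) : R) • D m b := by
  unfold D
  rw [_root_.map_mul, SemidirectProduct.mul_left, toAdd_mul, phi_apply, fox_right]

theorem D_of (m : ℕ) (j : Fin (m + 1)) : D m (of j) = ee m j := by
  simp [D, fox]

theorem D_one (m : ℕ) : D m 1 = 0 := by
  simp [D]

theorem D_inv (m : ℕ) (a : FreeGroup (Fin (m + 1))) :
    D m a⁻¹ = - ((T (- Multiplicative.toAdd (wind m a)) : R) • D m a) := by
  have h := D_mul m a⁻¹ a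
  rw [inv_mul_cancel, D_one, _root_.map_inv, toAdd_inv] at h
  exact eq_neg_of_add_eq_zero_left h.symm

/-- Fox derivatives on `K` -/
noncomputable def DK (m : ℕ) : K m →* Multiplicative (V m) where
  toFun := fun k => Multiplicative.ofAdd (D m (incl k))
  map_one' := by
    show Multiplicative.ofAdd (D m (incl 1)) = 1
    rw [incl_one, D_one]
    rfl
  map_mul' := fun a b => by
    show Multiplicative.ofAdd (D m (incl (a * b))) = _
    rw [incl_mul, D_mul, wind_incl]
    simp

/-- Fox derivatives on `H1` -/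
noncomputable def DH (m : ℕ) : H1 m →+ V m where
  toFun := fun z => Multiplicative.toAdd
    (Abelianization.lift (DK m) (Additive.toMul z : Abelianization (K m)))
  map_zero' := congrArg Multiplicative.toAdd (map_one (Abelianization.lift (DK m)))
  map_add' := fun a b => congrArg Multiplicative.toAdd
    (map_mul (Abelianization.lift (DK m)) (Additive.toMul a : Abelianization (K m))
      (Additive.toMul b : Abelianization (K m)))

theorem DH_cls {m : ℕ} (k : K m) : DH m (cls k) = D m (incl k) := rfl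

theorem DH_T {m : ℕ} (z : H1 m) (n : ℤ) : DH m ((T n : R) • z) = (T n : R) • DH m z := by
  obtain ⟨k, rfl⟩ := cls_surj z
  rw [T_smul_cls, DH_cls, DH_cls, incl_conjK]
  have h0 : ∀ n : ℕ, D m (of (0 : Fin (m + 1)) ^ n) = 0 := by
    intro n
    induction n with
    | zero => rw [pow_zero, D_one]
    | succ n ih =>
      rw [pow_succ, D_mul, ih, D_of]
      simp [ee]
  have h1 : D m (of (0 : Fin (m + 1)) ^ n) = 0 := by
    cases n with
    | ofNat n =>
      show D m (of (0 : Fin (m + 1)) ^ (n : ℤ)) = 0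
      rw [zpow_natCast]
      exact h0 n
    | negSucc n =>
      rw [zpow_negSucc, D_inv, h0]
      simp
  have hw : wind m (of (0 : Fin (m + 1)) ^ n) = Multiplicative.ofAdd n := by
    rw [_root_.map_zpow, wind_of, ← ofAdd_zsmul]
    simp
  rw [D_mul, D_mul, D_inv, h1, hw]
  simp

/-- Fox derivatives as a linear map -/
noncomputable def DL (m : ℕ) : H1 m →ₗ[R] V m where
  toFun := DH m
  map_add' := map_add _
  map_smul' f z := by
    show DH m (f • z) = f • DH m z
    induction f using LaurentPolynomial.induction_on' with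
    | add p q hp hq => rw [add_smul, map_add, hp, hq, add_smul]
    | C_mul_T n a =>
      rw [mul_smul, mul_smul, C_smul', map_zsmul, DH_T]
      have : (C a : R) = a • (1 : R) := by
        rw [zsmul_eq_mul, mul_one]
        simp
      rw [this, smul_assoc, one_smul]

theorem DL_cls {m : ℕ} (k : K m) : DL m (cls k) = D m (incl k) := rfl

/-- the elements `x_{i+1} x_0⁻¹` -/
def gk {m : ℕ} (i : Fin m) : K m := mkK (of i.succ * (of 0)⁻¹) (by
  rw [_root_.map_mul, _root_.map_inv, wind_of, wind_of, mul_inv_cancel])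

theorem incl_gk {m : ℕ} (i : Fin m) : incl (gk i) = of i.succ * (of 0)⁻¹ := rfl

theorem DL_gk {m : ℕ} (i : Fin m) : DL m (cls (gk i)) = Pi.single i 1 := by
  rw [DL_cls, incl_gk]
  rw [D_mul, D_inv, D_of, D_of]
  simp [ee]

/-- the linear map sending the basis to the classes of `x_{i+1} x_0⁻¹` -/
noncomputable def sL (m : ℕ) : V m →ₗ[R] H1 m :=
  (Pi.basisFun R (Fin m)).constr R (fun i => cls (gk i))

theorem sL_single {m : ℕ} (i : Fin m) : sL m (Pi.single i 1) = cls (gk i) := by
  unfold sL
  have := (Pi.basisFun R (Fin m)).constr_basis R (fun i => cls (gk i)) i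
  rwa [Pi.basisFun_apply] at this

theorem DL_sL {m : ℕ} : DL m ∘ₗ sL m = LinearMap.id := by
  apply (Pi.basisFun R (Fin m)).ext
  intro i
  rw [Pi.basisFun_apply, LinearMap.comp_apply, sL_single, DL_gk]
  rfl

/-- `w x_0^{-wind w}` -/
def nk {m : ℕ} (w : FreeGroup (Fin (m + 1))) : K m :=
  mkK (w * (of 0) ^ (-(Multiplicative.toAdd (wind m w)))) (by
    rw [_root_.map_mul, _root_.map_zpow, wind_of, ← ofAdd_zsmul]
    simp)

theorem incl_nk {m : ℕ} (w : FreeGroup (Fin (m + 1))) :
    incl (nk w) = w * (of 0) ^ (-(Multiplicative.toAdd (wind m w))) := rfl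

theorem T_cls {m : ℕ} (n : ℤ) (k l : K m)
    (h : incl l = (of (0 : Fin (m + 1))) ^ n * incl k * (of (0 : Fin (m + 1))) ^ (-n)) :
    (T n : R) • cls k = cls l := by
  rw [T_smul_cls]
  congr 1
  apply K_ext
  rw [h, incl_conjK, zpow_neg]

theorem ee_smul {m : ℕ} (j : Fin (m + 1)) (c : R) :
    ∃ v : V m, sL m v = c • (if h : j = 0 then (0 : H1 m) else cls (gk (j.pred h))) := by
  by_cases h : j = 0
  · exact ⟨0, by simp [h]⟩
  · refine ⟨c • Pi.single (j.pred h) 1, ?_⟩
    rw [map_smul, sL_single, dif_neg h]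

theorem nk_step {m : ℕ} (w : FreeGroup (Fin (m + 1))) (j : Fin (m + 1)) :
    cls (nk (w * of j)) = cls (nk w) + (T (Multiplicative.toAdd (wind m w)) : R) •
      (if h : j = 0 then (0 : H1 m) else cls (gk (j.pred h))) := by
  by_cases h : j = 0
  · subst h
    simp only [dif_pos, smul_zero, add_zero]
    congr 1
    apply K_ext
    rw [incl_nk, incl_nk, _root_.map_mul, wind_of]
    simp only [toAdd_mul, toAdd_ofAdd]
    group
  · rw [dif_neg h]
    obtain ⟨i, rfl⟩ := Fin.exists_succ_eq.2 h
    rw [Fin.pred_succ]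
    let a : ℤ := Multiplicative.toAdd (wind m w)
    have hl : wind m ((of (0 : Fin (m + 1))) ^ a * incl (gk i) * (of 0) ^ (-a)) = 1 := by
      rw [_root_.map_mul, _root_.map_mul, wind_incl, _root_.map_zpow,
        _root_.map_zpow]
      simp
    have e := T_cls a (gk i) (mkK _ hl) rfl
    show cls (nk (w * of i.succ)) = cls (nk w) + (T a : R) • cls (gk i)
    rw [e, ← cls_mul]
    congr 1
    apply K_ext
    rw [incl_nk, incl_mul, incl_mkK, incl_nk, incl_gk]
    show w * of i.succ * (of 0) ^ (-(Multiplicative.toAdd (wind m (w * of i.succ)))) =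
      (w * (of 0) ^ (-a)) * ((of 0) ^ a * (of i.succ * (of 0)⁻¹) * (of 0) ^ (-a))
    rw [_root_.map_mul, wind_of]
    simp only [toAdd_mul, toAdd_ofAdd]
    show w * of i.succ * (of 0) ^ (-(a + 1)) = _
    group

theorem sL_surj {m : ℕ} : Function.Surjective (sL m) := by
  have key : ∀ w : FreeGroup (Fin (m + 1)), cls (nk w⁻¹) ∈ LinearMap.range (sL m) := by
    intro w
    induction w using Pool.Agent.V11209.Mag.ind with
    | h1 =>
      have : nk (1⁻¹ : FreeGroup (Fin (m + 1))) = 1 := by
        apply K_ext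
        rw [incl_nk, incl_one]
        simp
      rw [this, cls_one]
      exact Submodule.zero_mem _
    | hm j w ih =>
      have h := nk_step (w⁻¹ * (of j)⁻¹) j
      rw [inv_mul_cancel_right] at h
      rw [mul_inv_rev]
      have h2 := eq_sub_of_add_eq h.symm
      rw [h2]
      refine Submodule.sub_mem _ ih ?_
      obtain ⟨v, hv⟩ := ee_smul j (T (Multiplicative.toAdd (wind m (w⁻¹ * (of j)⁻¹))) : R)
      exact ⟨v, hv⟩
    | hi j w ih =>
      rw [mul_inv_rev, inv_inv, nk_step]
      refine Submodule.add_mem _ ih ?_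
      obtain ⟨v, hv⟩ := ee_smul j (T (Multiplicative.toAdd (wind m w⁻¹)) : R)
      exact ⟨v, hv⟩
  intro z
  obtain ⟨k, rfl⟩ := cls_surj z
  have h := key (incl k)⁻¹
  rw [inv_inv] at h
  have e : nk (incl k) = k := by
    apply K_ext
    rw [incl_nk, wind_incl]
    simp
  rw [e] at h
  exact h

theorem sL_inj {m : ℕ} : Function.Injective (sL m) := by
  intro a b hab
  have := congrArg (DL m) hab
  have h2 : ∀ v, DL m (sL m v) = v := fun v => LinearMap.congr_fun DL_sL v
  rwa [h2, h2] at this

/-- The basis of `H1` given by the classes of `x_{i+1} x_0⁻¹`. -/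
noncomputable def bH (m : ℕ) : Module.Basis (Fin m) R (H1 m) :=
  (Pi.basisFun R (Fin m)).map (LinearEquiv.ofBijective (sL m) ⟨sL_inj, sL_surj⟩)

theorem bH_apply {m : ℕ} (i : Fin m) : bH m i = cls (gk i) := by
  unfold bH
  rw [Module.Basis.map_apply, Pi.basisFun_apply]
  exact sL_single i

theorem bH_repr {m : ℕ} (z : H1 m) (i : Fin m) : (bH m).repr z i = DL m z i := by
  obtain ⟨v, rfl⟩ := sL_surj z
  have h2 : DL m (sL m v) = v := LinearMap.congr_fun DL_sL v
  rw [h2]
  unfold bH
  rw [Module.Basis.map_repr]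
  have : (LinearEquiv.ofBijective (sL m) ⟨sL_inj, sL_surj⟩).symm (sL m v) = v := by
    rw [LinearEquiv.symm_apply_eq]
    rfl
  simp [this]

end Pool.Agent.V11209.Bur
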