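import Mathlib
import Pool.Agent.V11209.BurauDefs
import Pool.Agent.V11209.BurauProof
import Pool.Agent.V11209.Mag

set_option autoImplicit false

namespace Pool.Agent.V11209.Bur

open FreeGroup (of)
open LaurentPolynomial
open Pool.Agent.V11209.Mag (cf)

/-! ### order preserving -/

theorem cf_of_single {α : Type} [DecidableEq α] (j k : α) : cf (of j) [k] = if j = k then 1 else 0 := by
  have h := Mag.cf_of_mul j (1 : FreeGroup α)
  rw [mul_one] at h
  rw [h, Mag.act1_cons, Mag.cf_one]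
  unfold Mag.delta
  by_cases e : j = k
  · simp [e]
  · simp [e, Ne.symm e]

/-- the linear part -/
def lin {α : Type} [DecidableEq α] (k : α) : FreeGroup α →* Multiplicative ℤ where
  toFun w := Multiplicative.ofAdd (cf w [k])
  map_one' := by
    rw [Mag.cf_one]
    simp [Mag.delta]
  map_mul' a b := by
    rw [Mag.cf_single_mul]
    rfl

theorem lin_sigF {α : Type} [DecidableEq α] {p q : α} (h : p ≠ q) (k : α) (w : FreeGroup α) :
    cf (sigF p q w) [k] = cf w [Equiv.swap p q k] := by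
  have : (lin k).comp (sigF p q) = lin (Equiv.swap p q k) := by
    apply FreeGroup.ext_hom
    intro j
    show Multiplicative.ofAdd (cf (sigF p q (of j)) [k]) =
      Multiplicative.ofAdd (cf (of j) [Equiv.swap p q k])
    congr 1
    rw [cf_of_single]
    by_cases h1 : j = p
    · subst h1
      rw [sigF_p, Mag.cf_single_mul, Mag.cf_single_mul]
      have hi : cf (of j)⁻¹ [k] = - cf (of j) [k] := by
        have h := Mag.cf_single_mul (of j) (of j)⁻¹ k
        rw [mul_inv_cancel, Mag.cf_one] at h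
        have h0 : (Mag.delta : Mag.M α) [k] = 0 := by simp [Mag.delta]
        rw [h0] at h
        linarith
      rw [hi, cf_of_single, cf_of_single]
      have : (j = Equiv.swap j q k) ↔ q = k := by
        constructor
        · intro e
          apply (Equiv.swap j q).injective
          rw [← e, Equiv.swap_apply_right]
        · rintro rfl
          simp
      simp only [this]
      ring
    · by_cases h2 : j = q
      · subst h2
        rw [sigF_q h, cf_of_single]
        have : (j = Equiv.swap p j k) ↔ p = k := by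
          constructor
          · intro e
            apply (Equiv.swap p j).injective
            rw [← e, Equiv.swap_apply_left]
          · rintro rfl
            simp
        simp only [this]
      · rw [sigF_k h1 h2, cf_of_single]
        have : (j = Equiv.swap p q k) ↔ j = k := by
          constructor
          · intro e
            apply (Equiv.swap p q).injective
            rw [← e, Equiv.swap_apply_of_ne_of_ne h1 h2]
          · rintro rfl
            rw [Equiv.swap_apply_of_ne_of_ne h1 h2]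
        simp only [this]
  exact congrArg Multiplicative.toAdd (DFunLike.congr_fun this w)

/-- automorphisms acting trivially on the abelianization -/
def IAs (m : ℕ) : Subgroup (MulAut (FreeGroup (Fin (m + 1)))) where
  carrier := {φ | ∀ w i, cf (φ w) [i] = cf w [i]}
  mul_mem' := by
    intro a b ha hb w i
    show cf (a (b w)) [i] = cf w [i]
    rw [ha, hb]
  one_mem' := fun w i => rfl
  inv_mem' := by
    intro a ha w i
    have := ha (a⁻¹ w) i
    rw [MulAut.apply_inv_self] at this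
    exact this.symm

theorem sq_mem (m : ℕ) (i : Fin m) : artinGen i * artinGen i ∈ IAs m := by
  intro w k
  show cf (sigF i.castSucc i.succ (sigF i.castSucc i.succ w)) [k] = cf w [k]
  have hne : i.castSucc ≠ i.succ := (Fin.castSucc_lt_succ).ne
  rw [lin_sigF hne, lin_sigF hne, Equiv.swap_apply_self]

theorem orderPreserving_of_IA {m : ℕ} (hm : 1 ≤ m) (β : Braid m) (h : artin m β ∈ IAs m) :
    OrderPreserving β := by
  have : Nontrivial (Fin (m + 1)) := by
    rw [Fin.nontrivial_iff_two_le]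
    omega
  refine ⟨Mag.Cone (m + 1), ⟨Mag.cone_one, ?_, ?_, ?_⟩, ?_⟩
  · intro a ha b hb
    exact Mag.cone_mul a b ha hb
  · intro g hg
    exact Mag.cone_total g hg
  · intro a ha g
    exact Mag.cone_conj g a ha
  · exact Mag.cone_image (artin m β) h

/-! ### matrices -/

/-- the first generator of the three-strand braid group -/
def s1 : Braid 2 := PresentedGroup.of 0
/-- the second generator of the three-strand braid group -/
def s2 : Braid 2 := PresentedGroup.of 1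

/-- matrix of a braid -/
noncomputable def mat (β : Braid 2) : Matrix (Fin 2) (Fin 2) R :=
  burauMatrix (bH 2) β

theorem burauMatrix_eq {m : ℕ} (b : Module.Basis (Fin m) ℤ[T;T⁻¹] (H1 m)) (β : Braid m) :
    burauMatrix b β = LinearMap.toMatrix b b (burau β) := by
  funext i j
  rw [LinearMap.toMatrix_apply]
  rfl

theorem mat_mul (a b : Braid 2) : mat (a * b) = mat a * mat b := by
  unfold mat
  rw [burauMatrix_eq, burauMatrix_eq, burauMatrix_eq, burau_mul,
    LinearMap.toMatrix_comp (bH 2) (bH 2) (bH 2)]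

theorem mat_one : mat 1 = 1 := by
  unfold mat
  rw [burauMatrix_eq, burau_one, LinearMap.toMatrix_id]

theorem mat_apply (β : Braid 2) (i j : Fin 2) : mat β i j = D 2 (artin 2 β (incl (gk j))) i := by
  unfold mat
  rw [burauMatrix_eq, LinearMap.toMatrix_apply, bH_repr, bH_apply, burau_cls, DL_cls, incl_resK]

theorem s1_g0 : artin 2 s1 (incl (gk (0 : Fin 2))) = of 0 * (of 0 * of 1 * (of (0 : Fin 3))⁻¹)⁻¹ := by
  show artin 2 s1 (of (1 : Fin 3) * (of 0)⁻¹) = _
  unfold s1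
  rw [artin_of, _root_.map_mul, _root_.map_inv]
  show sigF (0 : Fin 3) 1 (of 1) * (sigF (0 : Fin 3) 1 (of 0))⁻¹ = _
  rw [sigF_q (by decide), sigF_p]

theorem s1_g1 : artin 2 s1 (incl (gk (1 : Fin 2))) = of 2 * (of 0 * of 1 * (of (0 : Fin 3))⁻¹)⁻¹ := by
  show artin 2 s1 (of (2 : Fin 3) * (of 0)⁻¹) = _
  unfold s1
  rw [artin_of, _root_.map_mul, _root_.map_inv]
  show sigF (0 : Fin 3) 1 (of 2) * (sigF (0 : Fin 3) 1 (of 0))⁻¹ = _
  rw [sigF_k (by decide) (by decide), sigF_p]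

theorem s2_g0 : artin 2 s2 (incl (gk (0 : Fin 2))) = of 1 * of 2 * (of (1 : Fin 3))⁻¹ * (of 0)⁻¹ := by
  show artin 2 s2 (of (1 : Fin 3) * (of 0)⁻¹) = _
  unfold s2
  rw [artin_of, _root_.map_mul, _root_.map_inv]
  show sigF (1 : Fin 3) 2 (of 1) * (sigF (1 : Fin 3) 2 (of 0))⁻¹ = _
  rw [sigF_p, sigF_k (by decide) (by decide)]

theorem s2_g1 : artin 2 s2 (incl (gk (1 : Fin 2))) = of (1 : Fin 3) * (of 0)⁻¹ := by
  show artin 2 s2 (of (2 : Fin 3) * (of 0)⁻¹) = _
  unfold s2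
  rw [artin_of, _root_.map_mul, _root_.map_inv]
  show sigF (1 : Fin 3) 2 (of 2) * (sigF (1 : Fin 3) 2 (of 0))⁻¹ = _
  rw [sigF_q (by decide), sigF_k (by decide) (by decide)]

theorem ee0 : ee 2 (0 : Fin 3) = ![0, 0] := by
  funext i
  fin_cases i <;> rfl
theorem ee1 : ee 2 (1 : Fin 3) = ![1, 0] := by
  show (Pi.single (0 : Fin 2) (1 : R) : Fin 2 → R) = _
  funext i
  fin_cases i <;> simp
theorem ee2 : ee 2 (2 : Fin 3) = ![0, 1] := by
  show (Pi.single (1 : Fin 2) (1 : R) : Fin 2 → R) = _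
  funext i
  fin_cases i <;> simp

theorem TT : (T 1 : R) * T (-1) = 1 := by
  rw [← T_add]
  simp

theorem mat2_ext (M N : Matrix (Fin 2) (Fin 2) R) (h00 : M 0 0 = N 0 0) (h01 : M 0 1 = N 0 1)
    (h10 : M 1 0 = N 1 0) (h11 : M 1 1 = N 1 1) : M = N := by
  funext i j
  fin_cases i <;> fin_cases j <;> assumption

theorem D3 (w : FreeGroup (Fin 3)) (j : Fin 3) (n : ℤ) (hn : wind 2 w = Multiplicative.ofAdd n) :
    D 2 (w * of j) = D 2 w + (T n : R) • ee 2 j ∧
    wind 2 (w * of j) = Multiplicative.ofAdd (n + 1) ∧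
    D 2 (w * (of j)⁻¹) = D 2 w - (T (n - 1) : R) • ee 2 j ∧
    wind 2 (w * (of j)⁻¹) = Multiplicative.ofAdd (n - 1) := by
  refine ⟨?_, ?_, ?_, ?_⟩
  · rw [D_mul, hn, D_of]
    rfl
  · rw [_root_.map_mul, hn, wind_of]
    rfl
  · rw [D_mul, hn, D_inv, D_of, wind_of, smul_neg, smul_smul, ← T_add, ← sub_eq_add_neg,
      ← sub_eq_add_neg]
    rfl
  · rw [_root_.map_mul, hn, _root_.map_inv, wind_of]
    rfl

theorem mat_s1 : mat s1 = !![-T 1, -T 1; 0, 1] := by
  have h0 : D 2 (artin 2 s1 (incl (gk (0 : Fin 2)))) = ![-T 1, 0] := by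
    rw [s1_g0]
    have e : (of 0 * (of 0 * of 1 * (of (0 : Fin 3))⁻¹)⁻¹ : FreeGroup (Fin 3)) =
      1 * of 0 * of 0 * (of 1)⁻¹ * (of 0)⁻¹ := by group
    rw [e]
    have a1 := D3 1 0 0 (_root_.map_one _)
    have a2 := D3 _ 0 _ a1.2.1
    have a3 := D3 _ 1 _ a2.2.1
    have a4 := D3 _ 0 _ a3.2.2.2
    rw [a4.2.2.1, a3.2.2.1, a2.1, a1.1, D_one, ee0, ee1]
    norm_num
  have h1 : D 2 (artin 2 s1 (incl (gk (1 : Fin 2)))) = ![-T 1, 1] := by
    rw [s1_g1]
    have e : (of 2 * (of 0 * of 1 * (of (0 : Fin 3))⁻¹)⁻¹ : FreeGroup (Fin 3)) =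
      1 * of 2 * of 0 * (of 1)⁻¹ * (of 0)⁻¹ := by group
    rw [e]
    have a1 := D3 1 2 0 (_root_.map_one _)
    have a2 := D3 _ 0 _ a1.2.1
    have a3 := D3 _ 1 _ a2.2.1
    have a4 := D3 _ 0 _ a3.2.2.2
    rw [a4.2.2.1, a3.2.2.1, a2.1, a1.1, D_one, ee0, ee1, ee2]
    norm_num
  apply mat2_ext <;> rw [mat_apply]
  · exact congrFun h0 0
  · exact congrFun h1 0
  · exact congrFun h0 1
  · exact congrFun h1 1

theorem mat_s2 : mat s2 = !![1 - T 1, 1; T 1, 0] := by
  have h0 : D 2 (artin 2 s2 (incl (gk (0 : Fin 2)))) = ![1 - T 1, T 1] := by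
    rw [s2_g0]
    have e : (of 1 * of 2 * (of (1 : Fin 3))⁻¹ * (of 0)⁻¹ : FreeGroup (Fin 3)) =
      1 * of 1 * of 2 * (of 1)⁻¹ * (of 0)⁻¹ := by group
    rw [e]
    have a1 := D3 1 1 0 (_root_.map_one _)
    have a2 := D3 _ 2 _ a1.2.1
    have a3 := D3 _ 1 _ a2.2.1
    have a4 := D3 _ 0 _ a3.2.2.2
    rw [a4.2.2.1, a3.2.2.1, a2.1, a1.1, D_one, ee0, ee1, ee2]
    norm_num
  have h1 : D 2 (artin 2 s2 (incl (gk (1 : Fin 2)))) = ![1, 0] := by
    rw [s2_g1]
    have e : (of (1 : Fin 3) * (of 0)⁻¹ : FreeGroup (Fin 3)) =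
      1 * of 1 * (of 0)⁻¹ := by group
    rw [e]
    have a1 := D3 1 1 0 (_root_.map_one _)
    have a2 := D3 _ 0 _ a1.2.1
    rw [a2.2.2.1, a1.1, D_one, ee0, ee1]
    funext i
    fin_cases i <;> simp
  apply mat2_ext <;> rw [mat_apply]
  · exact congrFun h0 0
  · exact congrFun h1 0
  · exact congrFun h0 1
  · exact congrFun h1 1

theorem mat_inv (a : Braid 2) (Y : Matrix (Fin 2) (Fin 2) R) (h : mat a * Y = 1) :
    mat a⁻¹ = Y := by
  have h1 : mat a⁻¹ * mat a = 1 := by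
    rw [← mat_mul, inv_mul_cancel, mat_one]
  calc mat a⁻¹ = mat a⁻¹ * (mat a * Y) := by rw [h, mul_one]
    _ = Y := by rw [← mul_assoc, h1, one_mul]

theorem mat_s1_inv : mat s1⁻¹ = !![-T (-1), -1; 0, 1] := by
  apply mat_inv
  rw [mat_s1, Matrix.mul_fin_two, Matrix.one_fin_two]
  apply mat2_ext
  · show -T 1 * -T (-1) + -T 1 * 0 = (1 : R)
    linear_combination TT
  · show -T 1 * -1 + -T 1 * 1 = (0 : R)
    ring
  · show 0 * -T (-1) + 1 * 0 = (0 : R)
    ring
  · show 0 * -1 + 1 * 1 = (1 : R)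
    ring

theorem mat_s2_inv : mat s2⁻¹ = !![0, T (-1); 1, 1 - T (-1)] := by
  apply mat_inv
  rw [mat_s2, Matrix.mul_fin_two, Matrix.one_fin_two]
  apply mat2_ext
  · show (1 - T 1) * 0 + 1 * 1 = (1 : R)
    ring
  · show (1 - T 1) * T (-1) + 1 * (1 - T (-1)) = (0 : R)
    linear_combination -TT
  · show T 1 * 0 + 0 * 1 = (0 : R)
    ring
  · show T 1 * T (-1) + 0 * (1 - T (-1)) = (1 : R)
    linear_combination TT

/-- the braid `[σ_1², σ_2²]` -/
def beta : Braid 2 := (s1 * s1) * (s2 * s2) * (s1⁻¹ * s1⁻¹) * (s2⁻¹ * s2⁻¹)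

theorem beta_IA : artin 2 beta ∈ IAs 2 := by
  have h1 : artin 2 (s1 * s1) ∈ IAs 2 := by
    unfold s1
    rw [_root_.map_mul, artin_of]
    exact sq_mem 2 0
  have h2 : artin 2 (s2 * s2) ∈ IAs 2 := by
    unfold s2
    rw [_root_.map_mul, artin_of]
    exact sq_mem 2 1
  have e : beta = (s1 * s1) * (s2 * s2) * (s1 * s1)⁻¹ * (s2 * s2)⁻¹ := by
    unfold beta
    group
  rw [e, _root_.map_mul, _root_.map_mul, _root_.map_mul, _root_.map_inv, _root_.map_inv]
  exact (IAs 2).mul_mem ((IAs 2).mul_mem ((IAs 2).mul_mem h1 h2) ((IAs 2).inv_mem h1))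
    ((IAs 2).inv_mem h2)

theorem mat_beta : mat beta = mat s1 * mat s1 * (mat s2 * mat s2) * (mat s1⁻¹ * mat s1⁻¹) *
    (mat s2⁻¹ * mat s2⁻¹) := by
  unfold beta
  simp only [mat_mul]

theorem det_beta : (mat beta).det = 1 := by
  have h1 : (mat s1).det * (mat s1⁻¹).det = 1 := by
    rw [← Matrix.det_mul, ← mat_mul, mul_inv_cancel, mat_one, Matrix.det_one]
  have h2 : (mat s2).det * (mat s2⁻¹).det = 1 := by
    rw [← Matrix.det_mul, ← mat_mul, mul_inv_cancel, mat_one, Matrix.det_one]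
  rw [mat_beta]
  simp only [Matrix.det_mul]
  linear_combination ((mat s1).det * (mat s1⁻¹).det * ((mat s2).det * (mat s2⁻¹).det) ^ 2 + ((mat s2).det * (mat s2⁻¹).det) ^ 2) * h1 + ((mat s2).det * (mat s2⁻¹).det + 1) * h2

theorem trace_aux (t u : R) (h : t * u = 1) :
    (!![-t, -t; 0, 1] * !![-t, -t; 0, 1] * (!![1 - t, 1; t, 0] * !![1 - t, 1; t, 0]) *
      (!![-u, -1; 0, 1] * !![-u, -1; 0, 1]) *
      (!![0, u; 1, 1 - u] * !![0, u; 1, 1 - u]) : Matrix (Fin 2) (Fin 2) R).trace =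
    3 * (t + u) ^ 2 - (t + u) ^ 3 - 2 := by
  simp only [Matrix.mul_fin_two, Matrix.trace_fin_two_of]
  linear_combination (-2 + 3 * u ^ 2 - u ^ 3 + 3 * t * u - 2 * t * u ^ 2 + t * u ^ 3 +
    2 * t ^ 2 - t ^ 2 * u + t ^ 2 * u ^ 2) * h

theorem trace_beta : (mat beta).trace = 3 * (T 1 + T (-1)) ^ 2 - (T 1 + T (-1)) ^ 3 - 2 := by
  rw [mat_beta, mat_s1, mat_s2, mat_s1_inv, mat_s2_inv]
  exact trace_aux (T 1) (T (-1)) TT

/-! ### the ordered field -/

theorem toE_T (n : ℤ) : toE (T n) = ((tE ^ n : (HahnSeries ℚ ℝ)ˣ) : HahnSeries ℚ ℝ) := by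
  unfold toE
  rw [LaurentPolynomial.eval₂_T]

theorem toE_T1 : toE (T 1) = HahnSeries.single (1 : ℚ) (1 : ℝ) := by
  rw [toE_T, zpow_one]
  rfl

theorem toE_Tm1 : toE (T (-1)) = HahnSeries.single (-1 : ℚ) (1 : ℝ) := by
  rw [toE_T, zpow_neg_one]
  rfl

theorem four_lt : (4 : Lex (HahnSeries ℚ ℝ)) < toLex (toE (T (-1))) := by
  rw [HahnSeries.lt_iff]
  have h4 : (ofLex (4 : Lex (HahnSeries ℚ ℝ))) = HahnSeries.single (0 : ℚ) (4 : ℝ) := by
    show (4 : HahnSeries ℚ ℝ) = _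
    have : (4 : HahnSeries ℚ ℝ) = HahnSeries.C (4 : ℝ) := by
      rw [map_ofNat]
    rw [this]
    rfl
  refine ⟨-1, ?_, ?_⟩
  · intro j hj
    rw [h4, ofLex_toLex, toE_Tm1, HahnSeries.coeff_single_of_ne, HahnSeries.coeff_single_of_ne]
    · exact hj.ne
    · intro e
      rw [e] at hj
      norm_num at hj
  · rw [h4, ofLex_toLex, toE_Tm1, HahnSeries.coeff_single_of_ne (by norm_num),
      HahnSeries.coeff_single_same]
    norm_num

theorem T_pos : (0 : Lex (HahnSeries ℚ ℝ)) < toLex (toE (T 1)) := by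
  rw [← HahnSeries.leadingCoeff_pos_iff, ofLex_toLex, toE_T1]
  simp

theorem root_neg (μ : HahnSeries ℚ ℝ) (h : μ ^ 2 - toE (mat beta).trace * μ + 1 = 0) :
    μ.leadingCoeff < 0 := by
  rw [← ofLex_toLex μ, HahnSeries.leadingCoeff_neg_iff]
  by_contra hc
  push Not at hc
  rw [trace_beta] at h
  simp only [map_sub, map_mul, map_pow, map_add, map_ofNat] at h
  have h1 := four_lt
  have h2 := T_pos
  let s : Lex (HahnSeries ℚ ℝ) := toLex (toE (T 1)) + toLex (toE (T (-1)))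
  have hs : 4 < s := by
    show 4 < toLex (toE (T 1)) + toLex (toE (T (-1)))
    linarith
  have hh : (toLex μ) ^ 2 - (3 * s ^ 2 - s ^ 3 - 2) * toLex μ + 1 = 0 := h
  have h3 : 0 < s ^ 3 + 2 - 3 * s ^ 2 := by nlinarith [sq_nonneg s]
  nlinarith [mul_nonneg h3.le hc, sq_nonneg (toLex μ)]

theorem final : ∃ m : ℕ, 1 ≤ m ∧ ∃ β : Braid m, OrderPreserving β ∧
    Nonempty (Module.Basis (Fin m) ℤ[T;T⁻¹] (H1 m)) ∧
    ∀ (b : Module.Basis (Fin m) ℤ[T;T⁻¹] (H1 m)) (μ : HahnSeries ℚ ℝ), IsPuiseux μ →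
      IsEigenvalue (burauMatrix b β) μ → μ.leadingCoeff < 0 := by
  refine ⟨2, by norm_num, beta, orderPreserving_of_IA (by norm_num) _ beta_IA, ⟨bH 2⟩, ?_⟩
  intro b μ _ hr
  have e : (burauMatrix b beta).charpoly = (mat beta).charpoly := by
    have : Module.Free R (H1 2) := Module.Free.of_basis (bH 2)
    have : Module.Finite R (H1 2) := Module.Finite.of_basis (bH 2)
    unfold mat
    rw [burauMatrix_eq, burauMatrix_eq, LinearMap.charpoly_toMatrix, LinearMap.charpoly_toMatrix]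
  unfold IsEigenvalue at hr
  rw [e, Matrix.charpoly_fin_two, det_beta] at hr
  apply root_neg
  simpa [Polynomial.IsRoot] using hr

end Pool.Agent.V11209.Bur
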