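import Mathlib

set_option autoImplicit false

/-!
# Barrels in the Poincaré disk and the piecewise isometry `φ`
-/

namespace Pool.Agent.V11209.Bar

/-- The hyperbolic distance of the Poincaré disk. -/
noncomputable def hdist (z w : ℂ) : ℝ :=
  Real.arcosh (1 + 2 * ‖z - w‖ ^ 2 / ((1 - ‖z‖ ^ 2) * (1 - ‖w‖ ^ 2)))

/-- The hyperbolic distance from `z` to a subset `A` of the disk. -/
noncomputable def distTo (A : Set ℂ) (z : ℂ) : ℝ := sInf (hdist z '' A)

/-- The imaginary axis of the disk. -/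
def imAxis : Set ℂ := {w | ‖w‖ < 1 ∧ w.re = 0}

/-- The real axis of the disk. -/
def reAxis : Set ℂ := {w | ‖w‖ < 1 ∧ w.im = 0}

/-- The signed hyperbolic distance to the imaginary axis (negative when `Re z < 0`). -/
noncomputable def del (z : ℂ) : ℝ := if z.re < 0 then - distTo imAxis z else distTo imAxis z

/-- The signed hyperbolic distance to the real axis (negative when `Im z < 0`). -/
noncomputable def del' (z : ℂ) : ℝ := if z.im < 0 then - distTo reAxis z else distTo reAxis z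

/-- `τ_a(z) = (z + a) / (ā z + 1)`. -/
noncomputable def tau (a z : ℂ) : ℂ := (z + a) / ((starRingEnd ℂ) a * z + 1)

/-- `b_α`. -/
noncomputable def ba (α : ℝ) : ℝ := 1 / 2 * Real.arcosh (1 / (1 - 2 * α ^ 2))

/-- The half-open barrel `Q_α`. -/
def Q (α : ℝ) : Set ℂ :=
  {z | ‖z‖ < 1 ∧ (-ba α ≤ del z ∧ del z < ba α) ∧ (-ba α ≤ del' z ∧ del' z < ba α)}

/-- `β_α`. -/
noncomputable def beta (α : ℝ) : ℝ :=
  α * (1 - Real.sqrt (1 - α ^ 2)) / (Real.sqrt (1 - α ^ 2) - α ^ 2)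

/-- `H(c, s) = τ_c ({δ < s})`. -/
def H (c s : ℝ) : Set ℂ := tau c '' {z | ‖z‖ < 1 ∧ del z < s}

/-- The quadrangle. -/
def quadrangle (α β : ℝ) : Set ℂ := Q α ∩ H (-β) (ba α)

/-- The lens. -/
def lens (α : ℝ) : Set ℂ := Q α \ H α (-ba α)

/-- The hourglass. -/
def hourglass (α β : ℝ) : Set ℂ := Q α \ (quadrangle α β ∪ lens α)

/-- The reflection `σ(z) = i z̄`. -/
noncomputable def sigma (z : ℂ) : ℂ := Complex.I * (starRingEnd ℂ) z

/-- `φ` is the piecewise isometry of `Q_α` given by `τ_β` on the quadrangle, `τ_{-α}` on the lens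
and `τ_{-α} τ_β` on the hourglass. -/
def IsPhi (α β : ℝ) (φ : Q α → Q α) : Prop :=
  ∀ z : Q α, ((z : ℂ) ∈ quadrangle α β → (φ z : ℂ) = tau β z) ∧
    ((z : ℂ) ∈ lens α → (φ z : ℂ) = tau (-α) z) ∧
    ((z : ℂ) ∈ hourglass α β → (φ z : ℂ) = tau (-α) (tau β z))

/-- `ψ = σ φ σ`. -/
def IsPsi (α : ℝ) (φ ψ : Q α → Q α) : Prop :=
  ∀ z w : Q α, (w : ℂ) = sigma z → (ψ z : ℂ) = sigma (φ w)

end Pool.Agent.V11209.Bar
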