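import Mathlib
import Pool.Agent.V11209.BarDefs

set_option autoImplicit false

namespace Pool.Agent.V11209.Bar

/-! ### hyperboloid coordinates -/

noncomputable def cX (z : ℂ) : ℝ := 2 * z.re / (1 - ‖z‖ ^ 2)
noncomputable def cY (z : ℂ) : ℝ := 2 * z.im / (1 - ‖z‖ ^ 2)
noncomputable def cT (z : ℂ) : ℝ := (1 + ‖z‖ ^ 2) / (1 - ‖z‖ ^ 2)

theorem nsq (z : ℂ) : ‖z‖ ^ 2 = z.re ^ 2 + z.im ^ 2 := by
  rw [← Complex.normSq_eq_norm_sq, Complex.normSq_apply]
  ring

theorem one_sub_pos {z : ℂ} (hz : ‖z‖ < 1) : 0 < 1 - ‖z‖ ^ 2 := by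
  have := norm_nonneg z
  nlinarith

theorem cT_sq {z : ℂ} (hz : ‖z‖ < 1) : cT z ^ 2 = 1 + cX z ^ 2 + cY z ^ 2 := by
  have h := one_sub_pos hz
  have h2 := nsq z
  unfold cT cX cY
  field_simp
  rw [h2]
  ring

theorem cT_pos {z : ℂ} (hz : ‖z‖ < 1) : 0 < cT z := by
  have h := one_sub_pos hz
  unfold cT
  positivity

theorem form_eq {z w : ℂ} (hz : ‖z‖ < 1) (hw : ‖w‖ < 1) :
    1 + 2 * ‖z - w‖ ^ 2 / ((1 - ‖z‖ ^ 2) * (1 - ‖w‖ ^ 2)) =
      cT z * cT w - cX z * cX w - cY z * cY w := by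
  have h := one_sub_pos hz
  have h' := one_sub_pos hw
  have e1 := nsq z
  have e2 := nsq w
  have e3 := nsq (z - w)
  rw [Complex.sub_re, Complex.sub_im] at e3
  unfold cT cX cY
  field_simp
  rw [e1, e2, e3]
  ring

theorem dist_im {z : ℂ} (hz : ‖z‖ < 1) : distTo imAxis z = |Real.arsinh (cX z)| := by
  set c : ℝ := Real.sqrt (1 + cX z ^ 2) with hc
  have hc2 : c ^ 2 = 1 + cX z ^ 2 := Real.sq_sqrt (by positivity)
  have hc1 : 1 ≤ c := by
    rw [hc, Real.one_le_sqrt]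
    nlinarith [sq_nonneg (cX z)]
  have hT := cT_pos hz
  have hTT := cT_sq hz
  have hval : Real.arcosh c = |Real.arsinh (cX z)| := by
    rw [hc, ← Real.cosh_arsinh, ← Real.cosh_abs, Real.arcosh_cosh (abs_nonneg _)]
  rw [← hval]
  apply IsLeast.csInf_eq
  constructor
  · -- attained
    set t : ℝ := cY z / (c + cT z) with ht
    have hcT : 0 < c + cT z := by linarith
    have ht2 : 1 - t ^ 2 = 2 * c / (c + cT z) := by
      rw [ht]
      field_simp
      nlinarith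
    have htp : 0 < 1 - t ^ 2 := by
      rw [ht2]
      positivity
    have hwn : ‖(t : ℂ) * Complex.I‖ ^ 2 = t ^ 2 := by
      rw [nsq]
      simp
    have hw : ‖(t : ℂ) * Complex.I‖ < 1 := by
      have h0 := norm_nonneg ((t : ℂ) * Complex.I)
      nlinarith
    refine ⟨(t : ℂ) * Complex.I, ⟨hw, by simp⟩, ?_⟩
    unfold hdist
    rw [form_eq hz hw]
    congr 1
    have x0 : cX ((t : ℂ) * Complex.I) = 0 := by
      unfold cX
      simp
    have y0 : cY ((t : ℂ) * Complex.I) = cY z / c := by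
      unfold cY
      rw [hwn, ht2]
      have : ((t : ℂ) * Complex.I).im = t := by simp
      rw [this, ht]
      unfold cY
      field_simp
    have t0 : cT ((t : ℂ) * Complex.I) = cT z / c := by
      show (1 + ‖(t : ℂ) * Complex.I‖ ^ 2) / (1 - ‖(t : ℂ) * Complex.I‖ ^ 2) = cT z / c
      rw [hwn, ht2]
      have e : 1 + t ^ 2 = 2 * cT z / (c + cT z) := by
        rw [ht]
        field_simp
        nlinarith
      rw [e]
      field_simp
    rw [x0, y0, t0]
    field_simp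
    nlinarith
  · rintro _ ⟨w, ⟨hw, hre⟩, rfl⟩
    unfold hdist
    rw [form_eq hz hw]
    have x0 : cX w = 0 := by
      unfold cX
      rw [hre]
      simp
    have hTw := cT_pos hw
    have hTTw := cT_sq hw
    rw [x0] at hTTw
    rw [x0, mul_zero, sub_zero]
    have key : c ≤ cT z * cT w - cY z * cY w := by
      have h1 : c ^ 2 ≤ (cT z * cT w - cY z * cY w) ^ 2 := by
        nlinarith [sq_nonneg (cT z * cY w - cY z * cT w)]
      have h2 : 0 ≤ cT z * cT w - cY z * cY w := by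
        have h3 : (cY z * cY w) ^ 2 ≤ (cT z * cT w) ^ 2 := by
          rw [mul_pow, mul_pow]
          apply mul_le_mul <;> nlinarith [sq_nonneg (cX z), sq_nonneg (cY z), sq_nonneg (cY w)]
        have := abs_le_of_sq_le_sq h3 (by positivity)
        linarith [(abs_le.1 this).2]
      exact le_of_sq_le_sq h1 h2 |>.trans le_rfl
    rw [Real.arcosh_le_arcosh (by linarith) (by linarith)]
    exact key

theorem del_eq {z : ℂ} (hz : ‖z‖ < 1) : del z = Real.arsinh (cX z) := by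
  have h := one_sub_pos hz
  unfold del
  rw [dist_im hz]
  split_ifs with hre
  · have : cX z < 0 := by
      unfold cX
      exact div_neg_of_neg_of_pos (by linarith) h
    have h2 : Real.arsinh (cX z) < 0 := Real.arsinh_neg_iff.2 this
    rw [abs_of_neg h2, neg_neg]
  · have : 0 ≤ cX z := by
      unfold cX
      push Not at hre
      positivity
    rw [abs_of_nonneg (Real.arsinh_nonneg_iff.2 this)]

theorem sigma_re (z : ℂ) : (sigma z).re = z.im := by
  unfold sigma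
  simp

theorem sigma_im (z : ℂ) : (sigma z).im = z.re := by
  unfold sigma
  simp

theorem sigma_norm (z : ℂ) : ‖sigma z‖ = ‖z‖ := by
  unfold sigma
  rw [norm_mul, Complex.norm_I, one_mul, Complex.norm_conj]

theorem sigma_sigma (z : ℂ) : sigma (sigma z) = z := by
  apply Complex.ext
  · rw [sigma_re, sigma_im]
  · rw [sigma_im, sigma_re]

theorem sigma_sub (z w : ℂ) : sigma (z - w) = sigma z - sigma w := by
  unfold sigma
  rw [map_sub, mul_sub]

theorem hdist_sigma (z w : ℂ) : hdist (sigma z) (sigma w) = hdist z w := by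
  unfold hdist
  rw [← sigma_sub, sigma_norm, sigma_norm, sigma_norm]

theorem dist_re (z : ℂ) : distTo reAxis z = distTo imAxis (sigma z) := by
  unfold distTo
  congr 1
  ext r
  constructor
  · rintro ⟨w, ⟨h1, h2⟩, rfl⟩
    exact ⟨sigma w, ⟨by rwa [sigma_norm], by rwa [sigma_re]⟩, hdist_sigma z w⟩
  · rintro ⟨w, ⟨h1, h2⟩, rfl⟩
    refine ⟨sigma w, ⟨by rwa [sigma_norm], by rwa [sigma_im]⟩, ?_⟩
    rw [← hdist_sigma, sigma_sigma]

theorem del'_eq_sigma (z : ℂ) : del' z = del (sigma z) := by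
  unfold del del'
  rw [sigma_re, dist_re]

theorem cX_sigma (z : ℂ) : cX (sigma z) = cY z := by
  unfold cX cY
  rw [sigma_re, sigma_norm]

theorem cY_sigma (z : ℂ) : cY (sigma z) = cX z := by
  unfold cX cY
  rw [sigma_im, sigma_norm]

theorem del'_eq {z : ℂ} (hz : ‖z‖ < 1) : del' z = Real.arsinh (cY z) := by
  rw [del'_eq_sigma, del_eq (by rwa [sigma_norm]), cX_sigma]

/-! ### the row coordinate -/

/-- the row coordinate -/
noncomputable def xi (z : ℂ) : ℝ := Real.log (‖1 + z‖ / ‖1 - z‖)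

theorem one_add_pos {z : ℂ} (hz : ‖z‖ < 1) : 0 < ‖1 + z‖ := by
  rw [norm_pos_iff]
  intro h
  have : z = -1 := by
    rw [← sub_eq_zero]
    rw [← h]
    ring
  rw [this] at hz
  simp at hz

theorem one_sub_pos' {z : ℂ} (hz : ‖z‖ < 1) : 0 < ‖1 - z‖ := by
  rw [norm_pos_iff]
  intro h
  have : z = 1 := (sub_eq_zero.1 h).symm
  rw [this] at hz
  simp at hz

/-- `X = √(1 + Y²) sinh ξ` -/
theorem cX_xi {z : ℂ} (hz : ‖z‖ < 1) : cX z = Real.sqrt (1 + cY z ^ 2) * Real.sinh (xi z) := by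
  have h := one_sub_pos hz
  have p1 := one_add_pos hz
  have p2 := one_sub_pos' hz
  have hs : Real.sinh (xi z) = 2 * z.re / (‖1 + z‖ * ‖1 - z‖) := by
    rw [Real.sinh_eq, xi, Real.exp_neg, Real.exp_log (by positivity)]
    have e1 := nsq (1 + z)
    have e2 := nsq (1 - z)
    simp only [Complex.add_re, Complex.add_im, Complex.sub_re, Complex.sub_im, Complex.one_re,
      Complex.one_im] at e1 e2
    field_simp
    nlinarith
  have hc : Real.sqrt (1 + cY z ^ 2) = ‖1 + z‖ * ‖1 - z‖ / (1 - ‖z‖ ^ 2) := by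
    rw [Real.sqrt_eq_iff_mul_self_eq (by positivity) (by positivity)]
    have e1 := nsq (1 + z)
    have e2 := nsq (1 - z)
    simp only [Complex.add_re, Complex.add_im, Complex.sub_re, Complex.sub_im, Complex.one_re,
      Complex.one_im] at e1 e2
    have e3 := nsq z
    unfold cY
    have : ‖1 + z‖ * ‖1 - z‖ / (1 - ‖z‖ ^ 2) * (‖1 + z‖ * ‖1 - z‖ / (1 - ‖z‖ ^ 2)) =
      (‖1 + z‖ ^ 2 * ‖1 - z‖ ^ 2) / (1 - ‖z‖ ^ 2) ^ 2 := by
      rw [div_mul_div_comm]
      congr 1 <;> ring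
    rw [this, e1, e2]
    field_simp
    rw [e3]
    ring
  rw [hs, hc]
  unfold cX
  field_simp

/-! ### translations -/

theorem tau_den {a : ℝ} (ha : |a| < 1) {z : ℂ} (hz : ‖z‖ < 1) : (a : ℂ) * z + 1 ≠ 0 := by
  intro h
  have h1 : (a : ℂ) * z = -1 := by
    rw [← sub_eq_zero]
    rw [← h]
    ring
  have h2 : ‖(a : ℂ) * z‖ = 1 := by
    rw [h1]
    simp
  rw [norm_mul, Complex.norm_real, Real.norm_eq_abs] at h2
  have := norm_nonneg z
  have := abs_nonneg a
  nlinarith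

theorem tau_real (a : ℝ) (z : ℂ) : tau a z = (z + a) / (a * z + 1) := by
  unfold tau
  rw [Complex.conj_ofReal]

theorem tau_one_sub {a : ℝ} (ha : |a| < 1) {z : ℂ} (hz : ‖z‖ < 1) :
    1 - ‖tau a z‖ ^ 2 = (1 - a ^ 2) * (1 - ‖z‖ ^ 2) / ‖(a : ℂ) * z + 1‖ ^ 2 := by
  have hd := tau_den ha hz
  have hd' : ‖(a : ℂ) * z + 1‖ ≠ 0 := norm_ne_zero_iff.2 hd
  rw [tau_real, norm_div, div_pow]
  have e1 := nsq (z + a)
  have e2 := nsq ((a : ℂ) * z + 1)
  have e3 := nsq z
  simp at e1 e2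
  generalize ‖(a : ℂ) * z + 1‖ = D at *
  rw [eq_div_iff (pow_ne_zero 2 hd'), sub_mul, div_mul_cancel₀ _ (pow_ne_zero 2 hd'), e1, e2, e3]
  ring

theorem tau_mem {a : ℝ} (ha : |a| < 1) {z : ℂ} (hz : ‖z‖ < 1) : ‖tau a z‖ < 1 := by
  have h := tau_one_sub ha hz
  have hd' : 0 < ‖(a : ℂ) * z + 1‖ := norm_pos_iff.2 (tau_den ha hz)
  have h1 := one_sub_pos hz
  have h2 : 0 < 1 - a ^ 2 := by
    rw [abs_lt] at ha
    nlinarith
  have h3 : 0 < 1 - ‖tau a z‖ ^ 2 := by
    rw [h]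
    positivity
  have := norm_nonneg (tau a z)
  nlinarith

theorem cY_tau {a : ℝ} (ha : |a| < 1) {z : ℂ} (hz : ‖z‖ < 1) : cY (tau a z) = cY z := by
  have hd := tau_den ha hz
  have hd' : 0 < ‖(a : ℂ) * z + 1‖ := norm_pos_iff.2 hd
  have h1 := one_sub_pos hz
  have h2 : 0 < 1 - a ^ 2 := by
    rw [abs_lt] at ha
    nlinarith
  unfold cY
  rw [tau_one_sub ha hz]
  have him : (tau a z).im = (1 - a ^ 2) * z.im / ‖(a : ℂ) * z + 1‖ ^ 2 := by
    rw [tau_real, Complex.div_im, Complex.normSq_eq_norm_sq]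
    simp
    field_simp
    ring
  rw [him]
  field_simp

theorem xi_tau {a : ℝ} (ha : |a| < 1) {z : ℂ} (hz : ‖z‖ < 1) :
    xi (tau a z) = xi z + Real.log ((1 + a) / (1 - a)) := by
  have hd := tau_den ha hz
  have hd' : 0 < ‖(a : ℂ) * z + 1‖ := norm_pos_iff.2 hd
  have p1 := one_add_pos hz
  have p2 := one_sub_pos' hz
  rw [abs_lt] at ha
  have q1 : 0 < 1 + a := by linarith
  have q2 : 0 < 1 - a := by linarith
  have e1 : ‖1 + tau a z‖ = (1 + a) * ‖1 + z‖ / ‖(a : ℂ) * z + 1‖ := by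
    have : 1 + tau a z = ((1 + a : ℝ) : ℂ) * (1 + z) / ((a : ℂ) * z + 1) := by
      rw [tau_real, eq_div_iff hd, add_mul, div_mul_cancel₀ _ hd]
      push_cast
      ring
    rw [this, norm_div, norm_mul, Complex.norm_real, Real.norm_eq_abs, abs_of_pos q1]
  have e2 : ‖1 - tau a z‖ = (1 - a) * ‖1 - z‖ / ‖(a : ℂ) * z + 1‖ := by
    have : 1 - tau a z = ((1 - a : ℝ) : ℂ) * (1 - z) / ((a : ℂ) * z + 1) := by
      rw [tau_real, eq_div_iff hd, sub_mul, div_mul_cancel₀ _ hd]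
      push_cast
      ring
    rw [this, norm_div, norm_mul, Complex.norm_real, Real.norm_eq_abs, abs_of_pos q2]
  unfold xi
  rw [e1, e2, ← Real.log_mul (by positivity) (by positivity)]
  congr 1
  generalize ‖(a : ℂ) * z + 1‖ = D at *
  field_simp

theorem tau_tau_neg {a : ℝ} (ha : |a| < 1) {z : ℂ} (hz : ‖z‖ < 1) :
    tau ((-a : ℝ) : ℂ) (tau a z) = z := by
  have hd := tau_den ha hz
  have h2 : (1 : ℂ) - (a : ℂ) ^ 2 ≠ 0 := by
    have : 1 - a ^ 2 ≠ 0 := by
      rw [abs_lt] at ha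
      have : 0 < 1 - a ^ 2 := by nlinarith
      exact this.ne'
    exact_mod_cast this
  rw [tau_real, tau_real]
  push_cast
  have h3 : -(a : ℂ) * ((z + a) / (a * z + 1)) + 1 = (1 - (a : ℂ) ^ 2) / (a * z + 1) := by
    rw [eq_div_iff hd, add_mul, mul_assoc, div_mul_cancel₀ _ hd]
    ring
  have h4 : (z + a) / (a * z + 1) + -(a : ℂ) = (1 - (a : ℂ) ^ 2) * z / (a * z + 1) := by
    rw [eq_div_iff hd, add_mul, div_mul_cancel₀ _ hd]
    ring
  rw [h3, h4, div_div_div_cancel_right₀ hd, mul_div_assoc, mul_comm, div_mul_cancel₀ _ h2]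

end Pool.Agent.V11209.Bar
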