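import Mathlib
import Pool.Agent.V11209.BarDefs
import Pool.Agent.V11209.BarCoord

set_option autoImplicit false

namespace Pool.Agent.V11209.Bar

/-- the chosen parameter -/
noncomputable def al : ℝ := 8 / 17

theorem beta_al : beta al = 16 / 191 := by
  have h : Real.sqrt (1 - al ^ 2) = 15 / 17 := by
    unfold al
    rw [show (1 : ℝ) - (8 / 17) ^ 2 = (15 / 17) ^ 2 by norm_num]
    exact Real.sqrt_sq (by norm_num)
  unfold beta
  rw [h]
  unfold al
  norm_num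

noncomputable def lA : ℝ := Real.log (25 / 9)
noncomputable def lB : ℝ := Real.log (207 / 175)

theorem lB_pos : 0 < lB := Real.log_pos (by norm_num)
theorem lB_lt : lB < lA := Real.log_lt_log (by norm_num) (by norm_num)

theorem ba_eq : ba al = (lA + lB) / 2 := by
  unfold ba
  have h1 : (1 : ℝ) / (1 - 2 * al ^ 2) = 289 / 161 := by
    unfold al
    norm_num
  have h2 : lA + lB = Real.log (23 / 7) := by
    unfold lA lB
    rw [← Real.log_mul (by norm_num) (by norm_num)]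
    norm_num
  have h3 : Real.cosh (Real.log (23 / 7)) = 289 / 161 := by
    rw [Real.cosh_log (by norm_num)]
    norm_num
  rw [h1, h2, ← h3, Real.arcosh_cosh (Real.log_nonneg (by norm_num))]
  ring

noncomputable def SS : ℝ := Real.sinh (ba al)

theorem SS_sq : SS ^ 2 = 64 / 161 := by
  have h2 : lA + lB = Real.log (23 / 7) := by
    unfold lA lB
    rw [← Real.log_mul (by norm_num) (by norm_num)]
    norm_num
  have h3 : Real.cosh (Real.log (23 / 7)) = 289 / 161 := by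
    rw [Real.cosh_log (by norm_num)]
    norm_num
  have h4 : Real.cosh (2 * ba al) = 289 / 161 := by
    rw [ba_eq, h2, ← h3]
    congr 1
    ring
  rw [Real.cosh_two_mul] at h4
  have h5 := Real.cosh_sq (ba al)
  unfold SS
  linarith

theorem ba_pos : 0 < ba al := by
  rw [ba_eq]
  have := lB_pos
  have := lB_lt
  linarith

theorem SS_pos : 0 < SS := Real.sinh_pos_iff.2 ba_pos

/-- half-length of the rows -/
noncomputable def mm (y : ℝ) : ℝ := Real.arsinh (SS / Real.sqrt (1 + y ^ 2))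

theorem sq_pos (y : ℝ) : 0 < Real.sqrt (1 + y ^ 2) := Real.sqrt_pos.2 (by positivity)

theorem lt_mm {z : ℂ} (hz : ‖z‖ < 1) : del z < ba al ↔ xi z < mm (cY z) := by
  have h := sq_pos (cY z)
  rw [del_eq hz, ← Real.arsinh_sinh (ba al), Real.arsinh_lt_arsinh, cX_xi hz]
  unfold mm
  rw [← Real.arsinh_sinh (xi z), Real.arsinh_lt_arsinh, Real.arsinh_sinh, lt_div_iff₀ h, mul_comm]
  rfl

theorem mm_le {z : ℂ} (hz : ‖z‖ < 1) : -ba al ≤ del z ↔ -mm (cY z) ≤ xi z := by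
  have h := sq_pos (cY z)
  rw [del_eq hz, ← Real.arsinh_sinh (-ba al), Real.arsinh_le_arsinh, cX_xi hz]
  unfold mm
  rw [← Real.arsinh_sinh (xi z), ← Real.arsinh_neg, Real.arsinh_le_arsinh, Real.arsinh_sinh,
    Real.sinh_neg, ← neg_div, div_le_iff₀ h, mul_comm]
  rfl

theorem mem_Q {z : ℂ} : z ∈ Q al ↔ ‖z‖ < 1 ∧ (-mm (cY z) ≤ xi z ∧ xi z < mm (cY z)) ∧
    (-SS ≤ cY z ∧ cY z < SS) := by
  unfold Q
  rw [Set.mem_ofPred_eq]
  constructor
  · rintro ⟨hz, ⟨h1, h2⟩, h3, h4⟩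
    refine ⟨hz, ⟨(mm_le hz).1 h1, (lt_mm hz).1 h2⟩, ?_, ?_⟩
    · rw [del'_eq hz, ← Real.arsinh_sinh (-ba al), Real.arsinh_le_arsinh, Real.sinh_neg] at h3
      exact h3
    · rw [del'_eq hz, ← Real.arsinh_sinh (ba al), Real.arsinh_lt_arsinh] at h4
      exact h4
  · rintro ⟨hz, ⟨h1, h2⟩, h3, h4⟩
    refine ⟨hz, ⟨(mm_le hz).2 h1, (lt_mm hz).2 h2⟩, ?_, ?_⟩
    · rw [del'_eq hz, ← Real.arsinh_sinh (-ba al), Real.arsinh_le_arsinh, Real.sinh_neg]
      exact h3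
    · rw [del'_eq hz, ← Real.arsinh_sinh (ba al), Real.arsinh_lt_arsinh]
      exact h4

theorem mm_bounds {y : ℝ} (h1 : -SS ≤ y) (h2 : y < SS) : lA ≤ 2 * mm y ∧ 2 * mm y ≤ lA + lB := by
  have hs := sq_pos y
  have hS := SS_pos
  have hS2 := SS_sq
  have hy : y ^ 2 ≤ SS ^ 2 := sq_le_sq' h1 h2.le
  constructor
  · have e1 : Real.sinh (Real.log (5 / 3)) = 8 / 15 := by
      rw [Real.sinh_log (by norm_num)]
      norm_num
    have e2 : lA = 2 * Real.log (5 / 3) := by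
      unfold lA
      rw [show (25 : ℝ) / 9 = (5 / 3) ^ 2 by norm_num, Real.log_pow]
      norm_num
    rw [e2]
    apply mul_le_mul_of_nonneg_left _ (by norm_num)
    unfold mm
    rw [← Real.arsinh_sinh (Real.log (5 / 3)), Real.arsinh_le_arsinh, e1]
    rw [le_div_iff₀ hs]
    have h3 : (8 / 15 * Real.sqrt (1 + y ^ 2)) ^ 2 ≤ SS ^ 2 := by
      rw [mul_pow, Real.sq_sqrt (by positivity), hS2]
      nlinarith
    exact le_of_sq_le_sq h3 hS.le
  · have e3 : 2 * ba al = lA + lB := by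
      rw [ba_eq]
      ring
    rw [← e3]
    apply mul_le_mul_of_nonneg_left _ (by norm_num)
    unfold mm
    rw [← Real.arsinh_sinh (ba al), Real.arsinh_le_arsinh]
    apply div_le_self hS.le
    rw [Real.one_le_sqrt]
    nlinarith [sq_nonneg y]

/-! ### the four translations -/

noncomputable def be : ℝ := 16 / 191

theorem al_abs : |al| < 1 := by
  unfold al
  rw [abs_of_pos] <;> norm_num
theorem be_abs : |be| < 1 := by
  unfold be
  rw [abs_of_pos] <;> norm_num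
theorem nal_abs : |(-al)| < 1 := by rw [abs_neg]; exact al_abs
theorem nbe_abs : |(-be)| < 1 := by rw [abs_neg]; exact be_abs

theorem xi_al {z : ℂ} (hz : ‖z‖ < 1) : xi (tau (al : ℝ) z) = xi z + lA := by
  rw [xi_tau al_abs hz]
  unfold al lA
  norm_num
theorem xi_be {z : ℂ} (hz : ‖z‖ < 1) : xi (tau (be : ℝ) z) = xi z + lB := by
  rw [xi_tau be_abs hz]
  unfold be lB
  norm_num
theorem xi_nal {z : ℂ} (hz : ‖z‖ < 1) : xi (tau ((-al : ℝ) : ℂ) z) = xi z - lA := by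
  rw [xi_tau nal_abs hz]
  have : Real.log ((1 + -al) / (1 - -al)) = - lA := by
    unfold al lA
    rw [← Real.log_inv]
    norm_num
  rw [this]
  ring
theorem xi_nbe {z : ℂ} (hz : ‖z‖ < 1) : xi (tau ((-be : ℝ) : ℂ) z) = xi z - lB := by
  rw [xi_tau nbe_abs hz]
  have : Real.log ((1 + -be) / (1 - -be)) = - lB := by
    unfold be lB
    rw [← Real.log_inv]
    norm_num
  rw [this]
  ring

theorem can_al {z : ℂ} (hz : ‖z‖ < 1) : tau ((-al : ℝ) : ℂ) (tau (al : ℝ) z) = z :=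
  tau_tau_neg al_abs hz
theorem can_nal {z : ℂ} (hz : ‖z‖ < 1) : tau (al : ℝ) (tau ((-al : ℝ) : ℂ) z) = z := by
  have := tau_tau_neg nal_abs hz
  rwa [neg_neg] at this
theorem can_be {z : ℂ} (hz : ‖z‖ < 1) : tau ((-be : ℝ) : ℂ) (tau (be : ℝ) z) = z :=
  tau_tau_neg be_abs hz
theorem can_nbe {z : ℂ} (hz : ‖z‖ < 1) : tau (be : ℝ) (tau ((-be : ℝ) : ℂ) z) = z := by
  have := tau_tau_neg nbe_abs hz
  rwa [neg_neg] at this

/-! ### the maps -/

noncomputable def fwd (z : ℂ) : ℂ :=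
  if xi z + lB < mm (cY z) then tau (be : ℝ) z
  else if -mm (cY z) ≤ xi z - lA then tau ((-al : ℝ) : ℂ) z
  else tau ((-al : ℝ) : ℂ) (tau (be : ℝ) z)

noncomputable def bwd (z : ℂ) : ℂ :=
  if -mm (cY z) + lB ≤ xi z then tau ((-be : ℝ) : ℂ) z
  else if xi z < mm (cY z) - lA then tau (al : ℝ) z
  else tau ((-be : ℝ) : ℂ) (tau (al : ℝ) z)

theorem fwd_mem {z : ℂ} (h : z ∈ Q al) : fwd z ∈ Q al := by
  rw [mem_Q] at h
  obtain ⟨hz, ⟨h1, h2⟩, h3, h4⟩ := h
  have hb := mm_bounds h3 h4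
  have := lB_pos
  have := lB_lt
  unfold fwd
  split_ifs with c1 c2
  · rw [mem_Q, cY_tau be_abs hz, xi_be hz]
    exact ⟨tau_mem be_abs hz, ⟨by linarith, c1⟩, h3, h4⟩
  · rw [mem_Q, cY_tau nal_abs hz, xi_nal hz]
    exact ⟨tau_mem nal_abs hz, ⟨c2, by linarith⟩, h3, h4⟩
  · have hz' := tau_mem be_abs hz
    rw [mem_Q, cY_tau nal_abs hz', xi_nal hz', cY_tau be_abs hz, xi_be hz]
    push Not at c1 c2
    exact ⟨tau_mem nal_abs hz', ⟨by linarith, by linarith⟩, h3, h4⟩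

theorem bwd_mem {z : ℂ} (h : z ∈ Q al) : bwd z ∈ Q al := by
  rw [mem_Q] at h
  obtain ⟨hz, ⟨h1, h2⟩, h3, h4⟩ := h
  have hb := mm_bounds h3 h4
  have := lB_pos
  have := lB_lt
  unfold bwd
  split_ifs with c1 c2
  · rw [mem_Q, cY_tau nbe_abs hz, xi_nbe hz]
    exact ⟨tau_mem nbe_abs hz, ⟨by linarith, by linarith⟩, h3, h4⟩
  · rw [mem_Q, cY_tau al_abs hz, xi_al hz]
    exact ⟨tau_mem al_abs hz, ⟨by linarith, by linarith⟩, h3, h4⟩
  · have hz' := tau_mem al_abs hz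
    rw [mem_Q, cY_tau nbe_abs hz', xi_nbe hz', cY_tau al_abs hz, xi_al hz]
    push Not at c1 c2
    exact ⟨tau_mem nbe_abs hz', ⟨by linarith, by linarith⟩, h3, h4⟩

theorem bwd_fwd {z : ℂ} (h : z ∈ Q al) : bwd (fwd z) = z := by
  rw [mem_Q] at h
  obtain ⟨hz, ⟨h1, h2⟩, h3, h4⟩ := h
  have hb := mm_bounds h3 h4
  have := lB_pos
  have := lB_lt
  unfold fwd
  split_ifs with c1 c2
  · unfold bwd
    rw [cY_tau be_abs hz, xi_be hz, if_pos (by linarith), can_be hz]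
  · unfold bwd
    rw [cY_tau nal_abs hz, xi_nal hz, if_neg (by linarith), if_pos (by linarith), can_nal hz]
  · have hz' := tau_mem be_abs hz
    push Not at c1 c2
    unfold bwd
    rw [cY_tau nal_abs hz', xi_nal hz', cY_tau be_abs hz, xi_be hz, if_neg (by linarith),
      if_neg (by linarith), can_nal hz', can_be hz]

theorem fwd_bwd {z : ℂ} (h : z ∈ Q al) : fwd (bwd z) = z := by
  rw [mem_Q] at h
  obtain ⟨hz, ⟨h1, h2⟩, h3, h4⟩ := h
  have hb := mm_bounds h3 h4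
  have := lB_pos
  have := lB_lt
  unfold bwd
  split_ifs with c1 c2
  · unfold fwd
    rw [cY_tau nbe_abs hz, xi_nbe hz, if_pos (by linarith), can_nbe hz]
  · unfold fwd
    rw [cY_tau al_abs hz, xi_al hz, if_neg (by linarith), if_pos (by linarith), can_al hz]
  · have hz' := tau_mem al_abs hz
    push Not at c1 c2
    unfold fwd
    rw [cY_tau nbe_abs hz', xi_nbe hz', cY_tau al_abs hz, xi_al hz, if_neg (by linarith),
      if_neg (by linarith), can_nbe hz', can_al hz]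

/-- `φ` as a permutation of the barrel -/
noncomputable def Phi : Equiv.Perm (Q al) where
  toFun z := ⟨fwd z, fwd_mem z.2⟩
  invFun z := ⟨bwd z, bwd_mem z.2⟩
  left_inv z := Subtype.ext (bwd_fwd z.2)
  right_inv z := Subtype.ext (fwd_bwd z.2)

theorem Phi_coe (z : Q al) : (Phi z : ℂ) = fwd z := rfl

theorem sigma_mem {z : ℂ} (h : z ∈ Q al) : sigma z ∈ Q al := by
  obtain ⟨hz, h1, h2⟩ := h
  refine ⟨by rwa [sigma_norm], ?_, ?_⟩
  · rwa [← del'_eq_sigma]
  · rwa [del'_eq_sigma, sigma_sigma]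

noncomputable def Sig : Equiv.Perm (Q al) where
  toFun z := ⟨sigma z, sigma_mem z.2⟩
  invFun z := ⟨sigma z, sigma_mem z.2⟩
  left_inv z := Subtype.ext (sigma_sigma z)
  right_inv z := Subtype.ext (sigma_sigma z)

/-- `ψ = σ φ σ` -/
noncomputable def Psi : Equiv.Perm (Q al) := Sig * Phi * Sig

theorem Psi_coe (z : Q al) : (Psi z : ℂ) = sigma (fwd (sigma z)) := rfl

/-! ### the pieces -/

theorem mem_H {c s : ℝ} (hc : |c| < 1) {z : ℂ} (hz : ‖z‖ < 1) :
    z ∈ H c s ↔ del (tau ((-c : ℝ) : ℂ) z) < s := by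
  have hnc : |(-c)| < 1 := by rwa [abs_neg]
  unfold H
  constructor
  · rintro ⟨w, ⟨hw, h⟩, rfl⟩
    rwa [tau_tau_neg hc hw]
  · intro h
    refine ⟨tau ((-c : ℝ) : ℂ) z, ⟨tau_mem hnc hz, h⟩, ?_⟩
    have := tau_tau_neg hnc hz
    rwa [neg_neg] at this

theorem quad_iff {z : ℂ} (h : z ∈ Q al) : z ∈ quadrangle al (beta al) ↔
    xi z + lB < mm (cY z) := by
  have hz : ‖z‖ < 1 := h.1
  have hb : beta al = be := beta_al
  unfold quadrangle
  rw [hb, Set.mem_inter_iff, mem_H nbe_abs hz, neg_neg, lt_mm (tau_mem be_abs hz), xi_be hz,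
    cY_tau be_abs hz]
  exact ⟨fun h => h.2, fun h2 => ⟨h, h2⟩⟩

theorem lens_iff {z : ℂ} (h : z ∈ Q al) : z ∈ lens al ↔ -mm (cY z) ≤ xi z - lA := by
  have hz : ‖z‖ < 1 := h.1
  unfold lens
  rw [Set.mem_sdiff, mem_H al_abs hz, not_lt, mm_le (tau_mem nal_abs hz), xi_nal hz,
    cY_tau nal_abs hz]
  exact ⟨fun h => h.2, fun h2 => ⟨h, h2⟩⟩

theorem isPhi : IsPhi al (beta al) Phi := by
  intro z
  have hz := z.2
  have hb : (beta al : ℂ) = ((be : ℝ) : ℂ) := by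
    rw [beta_al]
    rfl
  have hna : -(al : ℂ) = ((-al : ℝ) : ℂ) := by push_cast; rfl
  have hq := quad_iff hz
  have hl := lens_iff hz
  have hmb := mm_bounds (mem_Q.1 hz).2.2.1 (mem_Q.1 hz).2.2.2
  rw [Phi_coe, hb, hna]
  refine ⟨?_, ?_, ?_⟩
  · intro h
    unfold fwd
    rw [if_pos (hq.1 h)]
  · intro h
    have h' := hl.1 h
    unfold fwd
    rw [if_neg (by linarith), if_pos h']
  · rintro ⟨_, h⟩
    rw [Set.mem_union, not_or, hq, hl] at h
    unfold fwd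
    rw [if_neg h.1, if_neg h.2]

theorem isPsi : IsPsi al Phi Psi := by
  intro z w hw
  rw [Psi_coe, Phi_coe, hw]

end Pool.Agent.V11209.Bar
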