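import Mathlib
import Pool.Agent.V11209.BarDefs
import Pool.Agent.V11209.BarCoord
import Pool.Agent.V11209.BarPerm

set_option autoImplicit false

namespace Pool.Agent.V11209.Bar

open Matrix

abbrev MZ := Matrix (Fin 2) (Fin 2) ℤ

/-- the projective vector of `z` -/
noncomputable def vv (z : ℂ) : Fin 2 → ℂ := ![Complex.I * (1 + z), 1 - z]

/-- `M` sends `z` to `w` projectively -/
def Rel (M : MZ) (z w : ℂ) : Prop := ∃ k : ℂ, k ≠ 0 ∧
  (M.map (Int.cast : ℤ → ℂ)) *ᵥ vv z = k • vv w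

theorem rel_one (z : ℂ) : Rel 1 z z := by
  refine ⟨1, one_ne_zero, ?_⟩
  rw [Matrix.map_one _ Int.cast_zero Int.cast_one, Matrix.one_mulVec, one_smul]

theorem rel_mul {M N : MZ} {z w v : ℂ} (h1 : Rel M z w) (h2 : Rel N w v) : Rel (N * M) z v := by
  obtain ⟨k, hk, e⟩ := h1
  obtain ⟨l, hl, f⟩ := h2
  refine ⟨k * l, mul_ne_zero hk hl, ?_⟩
  have : ((N * M).map (Int.cast : ℤ → ℂ)) =
      (N.map (Int.cast : ℤ → ℂ)) * (M.map (Int.cast : ℤ → ℂ)) :=
    Matrix.map_mul (f := Int.castRingHom ℂ)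
  rw [this, ← Matrix.mulVec_mulVec, e, Matrix.mulVec_smul, f, smul_smul]

/-- adjugate -/
def adj (M : MZ) : MZ := !![M 1 1, -M 0 1; -M 1 0, M 0 0]

theorem rel_adj {M : MZ} {z w : ℂ} (h : Rel M z w) (hd : M.det ≠ 0) : Rel (adj M) w z := by
  obtain ⟨k, hk, e⟩ := h
  have hd' : (M.det : ℂ) ≠ 0 := by exact_mod_cast hd
  refine ⟨M.det / k, div_ne_zero hd' hk, ?_⟩
  have e0 := congrFun e 0
  have e1 := congrFun e 1
  simp only [Matrix.mulVec, dotProduct, Fin.sum_univ_two, Matrix.map_apply, Pi.smul_apply,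
    smul_eq_mul] at e0 e1
  have hdet : (M.det : ℂ) = M 0 0 * M 1 1 - M 0 1 * M 1 0 := by
    rw [Matrix.det_fin_two]
    push_cast
    ring
  funext i
  simp only [Matrix.mulVec, dotProduct, Fin.sum_univ_two, Matrix.map_apply, Pi.smul_apply,
    smul_eq_mul]
  fin_cases i
  · show ((adj M 0 0 : ℤ) : ℂ) * vv w 0 + ((adj M 0 1 : ℤ) : ℂ) * vv w 1 = M.det / k * vv z 0
    have a0 : adj M 0 0 = M 1 1 := rfl
    have a1 : adj M 0 1 = -M 0 1 := rfl
    rw [a0, a1, hdet]
    push_cast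
    field_simp
    linear_combination -(M 1 1 : ℂ) * e0 + (M 0 1 : ℂ) * e1
  · show ((adj M 1 0 : ℤ) : ℂ) * vv w 0 + ((adj M 1 1 : ℤ) : ℂ) * vv w 1 = M.det / k * vv z 1
    have a0 : adj M 1 0 = -M 1 0 := rfl
    have a1 : adj M 1 1 = M 0 0 := rfl
    rw [a0, a1, hdet]
    push_cast
    field_simp
    linear_combination (M 1 0 : ℂ) * e0 - (M 0 0 : ℂ) * e1

/-- horizontal matrix -/
def hm (n d : ℤ) : MZ := !![n, 0; 0, d]
/-- vertical matrix -/
def vm (n d : ℤ) : MZ := !![n + d, d - n; d - n, n + d]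

theorem rel_h {n d : ℤ} (hn : 0 < n) (hd : 0 < d) {a : ℝ} (ha : |a| < 1) (h : a * (n + d) = n - d)
    {z : ℂ} (hz : ‖z‖ < 1) : Rel (hm n d) z (tau (a : ℝ) z) := by
  have hden := tau_den ha hz
  have hc : (a : ℂ) * (n + d) = n - d := by exact_mod_cast congrArg (fun x : ℝ => (x : ℂ)) h
  have hnd : ((n : ℂ) + d) ≠ 0 := by
    have : (n + d : ℤ) ≠ 0 := by omega
    exact_mod_cast this
  refine ⟨(n + d) / 2 * (a * z + 1), mul_ne_zero (div_ne_zero hnd two_ne_zero) hden, ?_⟩
  rw [tau_real]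
  have q1 : (a * z + 1) * (1 + (z + a) / (a * z + 1)) = (1 + a) * (1 + z) := by
    rw [mul_add, mul_div_cancel₀ _ hden]
    ring
  have q2 : (a * z + 1) * (1 - (z + a) / (a * z + 1)) = (1 - a) * (1 - z) := by
    rw [mul_sub, mul_div_cancel₀ _ hden]
    ring
  funext i
  simp only [Matrix.mulVec, dotProduct, Fin.sum_univ_two, Matrix.map_apply, Pi.smul_apply,
    smul_eq_mul]
  fin_cases i
  · show ((n : ℤ) : ℂ) * (Complex.I * (1 + z)) + ((0 : ℤ) : ℂ) * (1 - z) =
      (n + d) / 2 * (a * z + 1) * (Complex.I * (1 + (z + a) / (a * z + 1)))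
    push_cast
    have : ((n : ℂ) + d) / 2 * (a * z + 1) * (Complex.I * (1 + (z + a) / (a * z + 1))) =
      ((n : ℂ) + d) / 2 * Complex.I * ((a * z + 1) * (1 + (z + a) / (a * z + 1))) := by ring
    rw [this, q1]
    linear_combination (-1 / 2) * Complex.I * (1 + z) * hc
  · show ((0 : ℤ) : ℂ) * (Complex.I * (1 + z)) + ((d : ℤ) : ℂ) * (1 - z) =
      (n + d) / 2 * (a * z + 1) * (1 - (z + a) / (a * z + 1))
    push_cast
    have : ((n : ℂ) + d) / 2 * (a * z + 1) * (1 - (z + a) / (a * z + 1)) =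
      ((n : ℂ) + d) / 2 * ((a * z + 1) * (1 - (z + a) / (a * z + 1))) := by ring
    rw [this, q2]
    linear_combination (1 / 2) * (1 - z) * hc

theorem sigma_tau {a : ℝ} (z : ℂ) :
    sigma (tau (a : ℝ) (sigma z)) = (z + Complex.I * a) / (1 - Complex.I * a * z) := by
  rw [tau_real]
  unfold sigma
  rw [map_div₀, map_add, map_add, map_mul, map_mul, map_mul, Complex.conj_I, Complex.conj_conj,
    Complex.conj_ofReal, map_one]
  rw [mul_div_assoc']
  congr 1
  · linear_combination (-z) * Complex.I_sq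
  · ring

theorem rel_v {n d : ℤ} (hn : 0 < n) (hd : 0 < d) {a : ℝ} (ha : |a| < 1) (h : a * (n + d) = n - d)
    {z : ℂ} (hz : ‖z‖ < 1) : Rel (vm n d) z (sigma (tau (a : ℝ) (sigma z))) := by
  rw [sigma_tau]
  have hden : (1 - Complex.I * a * z : ℂ) ≠ 0 := by
    intro h0
    have h1 : Complex.I * a * z = 1 := (sub_eq_zero.1 h0).symm
    have h2 : ‖Complex.I * a * z‖ = 1 := by rw [h1]; simp
    rw [norm_mul, norm_mul, Complex.norm_I, one_mul, Complex.norm_real, Real.norm_eq_abs] at h2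
    have := norm_nonneg z
    have := abs_nonneg a
    nlinarith
  have hc : (a : ℂ) * (n + d) = n - d := by exact_mod_cast congrArg (fun x : ℝ => (x : ℂ)) h
  have hnd : ((n : ℂ) + d) ≠ 0 := by
    have : (n + d : ℤ) ≠ 0 := by omega
    exact_mod_cast this
  refine ⟨(n + d) * (1 - Complex.I * a * z), mul_ne_zero hnd hden, ?_⟩
  have q1 : (1 - Complex.I * a * z) * (1 + (z + Complex.I * a) / (1 - Complex.I * a * z)) =
      1 - Complex.I * a * z + z + Complex.I * a := by
    rw [mul_add, mul_div_cancel₀ _ hden]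
    ring
  have q2 : (1 - Complex.I * a * z) * (1 - (z + Complex.I * a) / (1 - Complex.I * a * z)) =
      1 - Complex.I * a * z - z - Complex.I * a := by
    rw [mul_sub, mul_div_cancel₀ _ hden]
    ring
  funext i
  simp only [Matrix.mulVec, dotProduct, Fin.sum_univ_two, Matrix.map_apply, Pi.smul_apply,
    smul_eq_mul]
  fin_cases i
  · show ((n + d : ℤ) : ℂ) * (Complex.I * (1 + z)) + ((d - n : ℤ) : ℂ) * (1 - z) =
      (n + d) * (1 - Complex.I * a * z) *
        (Complex.I * (1 + (z + Complex.I * a) / (1 - Complex.I * a * z)))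
    push_cast
    have : ((n : ℂ) + d) * (1 - Complex.I * a * z) *
        (Complex.I * (1 + (z + Complex.I * a) / (1 - Complex.I * a * z))) =
        ((n : ℂ) + d) * Complex.I * ((1 - Complex.I * a * z) *
          (1 + (z + Complex.I * a) / (1 - Complex.I * a * z))) := by ring
    rw [this, q1]
    linear_combination (1 - z) * hc + (n + d) * (a * z - a) * Complex.I_sq
  · show ((d - n : ℤ) : ℂ) * (Complex.I * (1 + z)) + ((n + d : ℤ) : ℂ) * (1 - z) =
      (n + d) * (1 - Complex.I * a * z) * (1 - (z + Complex.I * a) / (1 - Complex.I * a * z))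
    push_cast
    have : ((n : ℂ) + d) * (1 - Complex.I * a * z) *
        (1 - (z + Complex.I * a) / (1 - Complex.I * a * z)) =
        ((n : ℂ) + d) * ((1 - Complex.I * a * z) *
          (1 - (z + Complex.I * a) / (1 - Complex.I * a * z))) := by ring
    rw [this, q2]
    linear_combination (Complex.I * (1 + z)) * hc

/-! ### fixed points -/

theorem fix_finite (M : MZ) (hM : ¬ (M 0 1 = 0 ∧ M 1 0 = 0 ∧ M 0 0 = M 1 1)) :
    Set.Finite {z : ℂ | ‖z‖ < 1 ∧ Rel M z z} := by
  -- the polynomial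
  let p : Polynomial ℂ := Polynomial.C (M 1 0 : ℂ) * Polynomial.X ^ 2 +
    Polynomial.C ((M 1 1 - M 0 0 : ℤ) : ℂ) * Polynomial.X + Polynomial.C (-(M 0 1 : ℂ))
  have hp : p ≠ 0 := by
    intro h0
    apply hM
    have ev : ∀ x : ℂ, (M 1 0 : ℂ) * x ^ 2 + ((M 1 1 - M 0 0 : ℤ) : ℂ) * x + (-(M 0 1 : ℂ)) = 0 := by
      intro x
      have := congrArg (fun q : Polynomial ℂ => q.eval x) h0
      simpa only [p, Polynomial.eval_add, Polynomial.eval_mul, Polynomial.eval_C,
        Polynomial.eval_pow, Polynomial.eval_X, Polynomial.eval_zero] using this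
    have c0 := ev 0
    have c1 := ev 1
    have c2 := ev (-1)
    have d0 : ((M 0 1 : ℤ) : ℂ) = 0 := by linear_combination -c0
    have d1 : ((M 1 0 : ℤ) : ℂ) = 0 := by linear_combination (c1 + c2) / 2 - c0
    have d2 : ((M 1 1 - M 0 0 : ℤ) : ℂ) = 0 := by linear_combination (c1 - c2) / 2
    refine ⟨by exact_mod_cast d0, by exact_mod_cast d1, ?_⟩
    have : (M 1 1 - M 0 0 : ℤ) = 0 := by exact_mod_cast d2
    omega
  have hfin : Set.Finite {x : ℂ | p.IsRoot x} := Polynomial.finite_setOfPred_isRoot hp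
  apply Set.Finite.of_finite_image (f := fun z : ℂ => Complex.I * (1 + z) / (1 - z))
  · apply hfin.subset
    rintro _ ⟨z, ⟨hz, k, hk, e⟩, rfl⟩
    have hq : (1 - z : ℂ) ≠ 0 := norm_pos_iff.1 (one_sub_pos' hz)
    have e0 := congrFun e 0
    have e1 := congrFun e 1
    simp only [Matrix.mulVec, dotProduct, Fin.sum_univ_two, Matrix.map_apply, Pi.smul_apply,
      smul_eq_mul] at e0 e1
    have v0 : vv z 0 = Complex.I * (1 + z) := rfl
    have v1 : vv z 1 = 1 - z := rfl
    rw [v0, v1] at e0 e1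
    show p.IsRoot _
    have : p.eval (Complex.I * (1 + z) / (1 - z)) = 0 := by
      simp only [p, Polynomial.eval_add, Polynomial.eval_mul, Polynomial.eval_C,
        Polynomial.eval_pow, Polynomial.eval_X]
      generalize Complex.I * (1 + z) = P at *
      generalize (1 - z : ℂ) = Qz at *
      push_cast
      field_simp
      linear_combination P * e1 - Qz * e0
    exact this
  · rintro z ⟨hz, _⟩ w ⟨hw, _⟩ h
    have h1 : (1 - z : ℂ) ≠ 0 := norm_pos_iff.1 (one_sub_pos' hz)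
    have h2 : (1 - w : ℂ) ≠ 0 := norm_pos_iff.1 (one_sub_pos' hw)
    have h3 : Complex.I * (1 + z) / (1 - z) = Complex.I * (1 + w) / (1 - w) := h
    rw [div_eq_div_iff h1 h2] at h3
    have h4 : Complex.I * (2 * (z - w)) = 0 := by linear_combination h3
    rw [mul_eq_zero] at h4
    rcases h4 with h4 | h4
    · exact absurd h4 Complex.I_ne_zero
    · have : (z - w : ℂ) = 0 := by
        rcases mul_eq_zero.1 h4 with h | h
        · exact absurd h two_ne_zero
        · exact h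
      exact sub_eq_zero.1 this

end Pool.Agent.V11209.Bar
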