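import Mathlib
import Pool.Agent.V11209.BarDefs
import Pool.Agent.V11209.BarCoord
import Pool.Agent.V11209.BarPerm
import Pool.Agent.V11209.BarWord

set_option autoImplicit false

namespace Pool.Agent.V11209.Bar

open Matrix

/-- the matrices of the positive letters -/
def base (i : Fin 2) : Set MZ :=
  if i = 0 then {M | M = hm 207 175 ∨ M = hm 9 25 ∨ M = hm 9 25 * hm 207 175}
  else {M | M = vm 207 175 ∨ M = vm 9 25 ∨ M = vm 9 25 * vm 207 175}

/-- the matrices of the letters -/
def letter (x : Fin 2 × Bool) : Set MZ := if x.2 then base x.1 else adj '' base x.1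

theorem base_finite (i : Fin 2) : (base i).Finite := by
  unfold base
  split_ifs
  · apply Set.Finite.subset (Set.toFinite {hm 207 175, hm 9 25, hm 9 25 * hm 207 175})
    rintro M (h | h | h) <;> simp [h]
  · apply Set.Finite.subset (Set.toFinite {vm 207 175, vm 9 25, vm 9 25 * vm 207 175})
    rintro M (h | h | h) <;> simp [h]

theorem letter_finite (x : Fin 2 × Bool) : (letter x).Finite := by
  unfold letter
  split_ifs
  · exact base_finite _
  · exact (base_finite _).image _

/-- direction of a letter modulo three -/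
def u (x : Fin 2 × Bool) : Fin 2 → ZMod 3 :=
  if x.1 = 0 then (if x.2 then ![0, 1] else ![1, 0]) else (if x.2 then ![1, 1] else ![1, -1])

theorem mod3 (x : Fin 2 × Bool) (M : MZ) (hM : M ∈ letter x) : ∃ c : ZMod 3, c ≠ 0 ∧
    ∀ i j, ((M i j : ℤ) : ZMod 3) = c * (u x i * u x j) := by
  obtain ⟨i, b⟩ := x
  fin_cases i <;> cases b
  · simp only [letter, base, Bool.false_eq_true, if_false] at hM
    obtain ⟨N, hN, rfl⟩ := hM
    rcases hN with rfl | rfl | rfl
    · refine ⟨1, by decide, ?_⟩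
      decide
    · refine ⟨1, by decide, ?_⟩
      decide
    · refine ⟨1, by decide, ?_⟩
      decide
  · simp only [letter, base] at hM
    rcases hM with rfl | rfl | rfl
    · refine ⟨1, by decide, ?_⟩
      decide
    · refine ⟨1, by decide, ?_⟩
      decide
    · refine ⟨1, by decide, ?_⟩
      decide
  · simp only [letter, base, Bool.false_eq_true, if_false] at hM
    obtain ⟨N, hN, rfl⟩ := hM
    rcases hN with rfl | rfl | rfl
    · refine ⟨1, by decide, ?_⟩
      decide
    · refine ⟨1, by decide, ?_⟩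
      decide
    · refine ⟨2, by decide, ?_⟩
      decide
  · simp only [letter, base] at hM
    rcases hM with rfl | rfl | rfl
    · refine ⟨1, by decide, ?_⟩
      decide
    · refine ⟨1, by decide, ?_⟩
      decide
    · refine ⟨2, by decide, ?_⟩
      decide

theorem base_det (i : Fin 2) (M : MZ) (hM : M ∈ base i) : M.det ≠ 0 := by
  have h1 : (hm 207 175).det ≠ 0 := by decide
  have h2 : (hm 9 25).det ≠ 0 := by decide
  have h3 : (vm 207 175).det ≠ 0 := by decide
  have h4 : (vm 9 25).det ≠ 0 := by decide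
  unfold base at hM
  split_ifs at hM
  · rcases hM with rfl | rfl | rfl
    · exact h1
    · exact h2
    · rw [Matrix.det_mul]
      exact mul_ne_zero h2 h1
  · rcases hM with rfl | rfl | rfl
    · exact h3
    · exact h4
    · rw [Matrix.det_mul]
      exact mul_ne_zero h4 h3

/-- the generators -/
noncomputable def ff : Fin 2 → Equiv.Perm (Q al) := ![Phi, Psi]

theorem be_eq : be * ((207 : ℤ) + (175 : ℤ) : ℝ) = (207 : ℤ) - (175 : ℤ) := by
  unfold be
  norm_num
theorem nal_eq : (-al) * ((9 : ℤ) + (25 : ℤ) : ℝ) = (9 : ℤ) - (25 : ℤ) := by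
  unfold al
  norm_num

theorem rel_base (i : Fin 2) (z : Q al) : ∃ M ∈ base i, Rel M z (ff i z : ℂ) := by
  have hz : ‖(z : ℂ)‖ < 1 := z.2.1
  have hsz : ‖sigma (z : ℂ)‖ < 1 := by rwa [sigma_norm]
  fin_cases i
  · show ∃ M ∈ base 0, Rel M z (fwd z)
    unfold fwd
    split_ifs
    · exact ⟨_, Or.inl rfl, rel_h (by norm_num) (by norm_num) be_abs be_eq hz⟩
    · exact ⟨_, Or.inr (Or.inl rfl), rel_h (by norm_num) (by norm_num) nal_abs nal_eq hz⟩
    · exact ⟨_, Or.inr (Or.inr rfl),
        rel_mul (rel_h (by norm_num) (by norm_num) be_abs be_eq hz)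
          (rel_h (by norm_num) (by norm_num) nal_abs nal_eq (tau_mem be_abs hz))⟩
  · show ∃ M ∈ base 1, Rel M z (sigma (fwd (sigma z)))
    unfold fwd
    split_ifs
    · exact ⟨_, Or.inl rfl, rel_v (by norm_num) (by norm_num) be_abs be_eq hz⟩
    · exact ⟨_, Or.inr (Or.inl rfl), rel_v (by norm_num) (by norm_num) nal_abs nal_eq hz⟩
    · refine ⟨_, Or.inr (Or.inr rfl),
        rel_mul (rel_v (by norm_num) (by norm_num) be_abs be_eq hz) ?_⟩
      have h := rel_v (n := 9) (d := 25) (by norm_num) (by norm_num) nal_abs nal_eq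
        (z := sigma (tau (be : ℝ) (sigma z))) (by rw [sigma_norm]; exact tau_mem be_abs hsz)
      rwa [sigma_sigma] at h

theorem rel_letter (x : Fin 2 × Bool) (z : Q al) :
    ∃ M ∈ letter x, Rel M z ((cond x.2 (ff x.1) (ff x.1)⁻¹ : Equiv.Perm (Q al)) z : ℂ) := by
  obtain ⟨i, b⟩ := x
  cases b
  · show ∃ M ∈ adj '' base i, Rel M z (((ff i)⁻¹ : Equiv.Perm (Q al)) z : ℂ)
    obtain ⟨M, hM, h⟩ := rel_base i (((ff i)⁻¹ : Equiv.Perm (Q al)) z)
    have e : ff i (((ff i)⁻¹ : Equiv.Perm (Q al)) z) = z := (ff i).apply_symm_apply z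
    rw [e] at h
    exact ⟨adj M, ⟨M, hM, rfl⟩, rel_adj h (base_det i M hM)⟩
  · exact rel_base i z

/-- the matrices of a word -/
def WM : List (Fin 2 × Bool) → Set MZ
  | [] => {1}
  | x :: L => Set.image2 (fun A B => A * B) (letter x) (WM L)

theorem WM_finite (L : List (Fin 2 × Bool)) : (WM L).Finite := by
  induction L with
  | nil => exact Set.finite_singleton _
  | cons x L ih => exact Set.Finite.image2 _ (letter_finite x) ih

theorem rel_word (L : List (Fin 2 × Bool)) (z : Q al) : ∃ M ∈ WM L, Rel M z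
    (((L.map fun x => cond x.2 (ff x.1) (ff x.1)⁻¹).prod : Equiv.Perm (Q al)) z : ℂ) := by
  induction L with
  | nil => exact ⟨1, rfl, rel_one _⟩
  | cons x L ih =>
    obtain ⟨M, hM, h⟩ := ih
    rw [List.map_cons, List.prod_cons]
    obtain ⟨N, hN, h'⟩ := rel_letter x
      (((L.map fun x => cond x.2 (ff x.1) (ff x.1)⁻¹).prod : Equiv.Perm (Q al)) z)
    exact ⟨N * M, ⟨N, hN, M, hM, rfl⟩, rel_mul h h'⟩

theorem u_ne (x y : Fin 2 × Bool) (h : x.1 = y.1 → x.2 = y.2) :
    u x 0 * u y 0 + u x 1 * u y 1 ≠ 0 := by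
  revert x y
  decide

theorem word_mod3 (L : List (Fin 2 × Bool)) : ∀ x : Fin 2 × Bool, FreeGroup.IsReduced (x :: L) →
    ∀ M ∈ WM (x :: L), ∃ v : Fin 2 → ZMod 3, v ≠ 0 ∧
      ∀ i j, ((M i j : ℤ) : ZMod 3) = u x i * v j := by
  induction L with
  | nil =>
    rintro x _ M ⟨A, hA, B, hB, rfl⟩
    have hB1 : B = 1 := hB
    subst hB1
    obtain ⟨c, hc, h⟩ := mod3 x A hA
    refine ⟨fun j => c * u x j, ?_, ?_⟩
    · intro h0
      have h1 := u_ne x x (fun _ => rfl)
      have e0 : c * u x 0 = 0 := congrFun h0 0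
      have e1 : c * u x 1 = 0 := congrFun h0 1
      have e2 := (mul_eq_zero.1 e0).resolve_left hc
      have e3 := (mul_eq_zero.1 e1).resolve_left hc
      rw [e2, e3] at h1
      simp at h1
    · intro i j
      show (((A * 1) i j : ℤ) : ZMod 3) = _
      rw [mul_one, h]
      ring
  | cons y L ih =>
    rintro x hred M ⟨A, hA, B, hB, rfl⟩
    rw [FreeGroup.isReduced_cons_cons] at hred
    obtain ⟨hxy, hred'⟩ := hred
    obtain ⟨c, hc, h⟩ := mod3 x A hA
    obtain ⟨v, hv, h'⟩ := ih y hred' B hB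
    have hu := u_ne x y hxy
    refine ⟨fun j => c * (u x 0 * u y 0 + u x 1 * u y 1) * v j, ?_, ?_⟩
    · intro h0
      apply hv
      funext j
      have e : c * (u x 0 * u y 0 + u x 1 * u y 1) * v j = 0 := congrFun h0 j
      exact (mul_eq_zero.1 e).resolve_left (mul_ne_zero hc hu)
    · intro i j
      show (((A * B) i j : ℤ) : ZMod 3) = _
      rw [Matrix.mul_apply, Fin.sum_univ_two]
      push_cast
      rw [h, h, h', h']
      ring

theorem u_nonzero (x : Fin 2 × Bool) : u x 0 ≠ 0 ∨ u x 1 ≠ 0 := by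
  revert x
  decide

theorem word_nonscalar (x : Fin 2 × Bool) (L : List (Fin 2 × Bool))
    (hred : FreeGroup.IsReduced (x :: L)) (M : MZ) (hM : M ∈ WM (x :: L)) :
    ¬ (M 0 1 = 0 ∧ M 1 0 = 0 ∧ M 0 0 = M 1 1) := by
  rintro ⟨h1, h2, h3⟩
  obtain ⟨v, hv, h⟩ := word_mod3 L x hred M hM
  have a01 := h 0 1
  have a10 := h 1 0
  have a00 := h 0 0
  have a11 := h 1 1
  rw [h1, Int.cast_zero] at a01
  rw [h2, Int.cast_zero] at a10
  rw [h3, a11] at a00
  apply hv
  rcases u_nonzero x with hu | hu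
  · have v1 : v 1 = 0 := (mul_eq_zero.1 a01.symm).resolve_left hu
    rw [v1, mul_zero] at a00
    have v0 : v 0 = 0 := (mul_eq_zero.1 a00.symm).resolve_left hu
    funext i
    fin_cases i
    · exact v0
    · exact v1
  · have v0 : v 0 = 0 := (mul_eq_zero.1 a10.symm).resolve_left hu
    rw [v0, mul_zero] at a00
    have v1 : v 1 = 0 := (mul_eq_zero.1 a00).resolve_left hu
    funext i
    fin_cases i
    · exact v0
    · exact v1

theorem fixed_finite (w : FreeGroup (Fin 2)) (hw : w ≠ 1) :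
    Set.Finite {z : Q al | FreeGroup.lift ff w z = z} := by
  have hL : w.toWord ≠ [] := by
    intro h
    exact hw (FreeGroup.toWord_eq_nil_iff.1 h)
  have hred : FreeGroup.IsReduced w.toWord := FreeGroup.isReduced_toWord
  have hl : FreeGroup.lift ff w =
      (w.toWord.map fun x => cond x.2 (ff x.1) (ff x.1)⁻¹).prod := by
    conv_lhs => rw [← FreeGroup.mk_toWord (x := w)]
    rw [FreeGroup.lift_mk]
  obtain ⟨x, L, hxL⟩ := List.exists_cons_of_ne_nil hL
  rw [hl]
  rw [hxL] at hred ⊢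
  have hfin : Set.Finite (⋃ M ∈ WM (x :: L), {z : ℂ | ‖z‖ < 1 ∧ Rel M z z}) := by
    apply Set.Finite.biUnion (WM_finite _)
    intro M hM
    exact fix_finite M (word_nonscalar x L hred M hM)
  apply Set.Finite.of_finite_image (f := fun z : Q al => (z : ℂ))
  · apply hfin.subset
    rintro _ ⟨z, hz, rfl⟩
    obtain ⟨M, hM, h⟩ := rel_word (x :: L) z
    rw [Set.mem_iUnion₂]
    refine ⟨M, hM, z.2.1, ?_⟩
    have hz' : ((((x :: L).map fun x => cond x.2 (ff x.1) (ff x.1)⁻¹).prod :
      Equiv.Perm (Q al)) z) = z := hz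
    rwa [hz'] at h
  · exact Subtype.val_injective.injOn

theorem Q_infinite : Infinite (Q al) := by
  have h1 : Set.Infinite (Set.Ioo (0 : ℝ) (1 / 10)) := Set.Ioo_infinite (by norm_num)
  have h2 : Set.Infinite ((fun x : ℝ => (x : ℂ)) '' Set.Ioo (0 : ℝ) (1 / 10)) :=
    h1.image (Complex.ofReal_injective.injOn)
  have h3 : (fun x : ℝ => (x : ℂ)) '' Set.Ioo (0 : ℝ) (1 / 10) ⊆ Q al := by
    rintro _ ⟨x, ⟨hx0, hx1⟩, rfl⟩
    have hn : ‖(x : ℂ)‖ = x := by
      rw [Complex.norm_real, Real.norm_eq_abs, abs_of_pos hx0]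
    have hz : ‖(x : ℂ)‖ < 1 := by
      rw [hn]
      linarith
    have hY : cY (x : ℂ) = 0 := by
      unfold cY
      simp
    have hX : cX (x : ℂ) = 2 * x / (1 - x ^ 2) := by
      unfold cX
      rw [hn]
      simp
    have hS := SS_sq
    have hSp := SS_pos
    have hS1 : 1 / 2 < SS := by nlinarith
    have hx2 : 0 < 1 - x ^ 2 := by nlinarith
    have hX0 : 0 < cX (x : ℂ) := by
      rw [hX]
      positivity
    have hX1 : cX (x : ℂ) < SS := by
      rw [hX, div_lt_iff₀ hx2]
      nlinarith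
    refine ⟨hz, ⟨?_, ?_⟩, ?_, ?_⟩
    · rw [del_eq hz]
      have := ba_pos
      have := Real.arsinh_pos_iff.2 hX0
      linarith
    · rw [del_eq hz, ← Real.arsinh_sinh (ba al), Real.arsinh_lt_arsinh]
      exact hX1
    · rw [del'_eq hz, hY, Real.arsinh_zero]
      have := ba_pos
      linarith
    · rw [del'_eq hz, hY, Real.arsinh_zero]
      exact ba_pos
  exact (h2.mono h3).to_subtype

theorem lift_inj : Function.Injective (FreeGroup.lift ff) := by
  rw [injective_iff_map_eq_one]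
  intro w hw
  by_contra h
  have hf := fixed_finite w h
  rw [hw] at hf
  have : {z : Q al | (1 : Equiv.Perm (Q al)) z = z} = Set.univ := by
    ext z
    simp
  rw [this] at hf
  have := Q_infinite
  exact Set.infinite_univ hf

theorem closure_fixed (g : Equiv.Perm (Q al)) (hg : g ∈ Subgroup.closure {Phi, Psi}) (h1 : g ≠ 1) :
    Set.Finite {z : Q al | g z = z} := by
  have hr : Set.range ff = {Phi, Psi} := by
    unfold ff
    rw [Matrix.range_cons, Matrix.range_cons, Matrix.range_empty]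
    simp [Set.pair_comm]
  rw [← hr, ← FreeGroup.range_lift_eq_closure] at hg
  obtain ⟨w, rfl⟩ := hg
  apply fixed_finite
  rintro rfl
  exact h1 (map_one _)

theorem al_range : 0 < al ∧ al < Real.sqrt (2 * Real.sqrt 3 - 3) := by
  refine ⟨by unfold al; norm_num, ?_⟩
  apply Real.lt_sqrt_of_sq_lt
  have h : (1.7 : ℝ) < Real.sqrt 3 := by
    apply Real.lt_sqrt_of_sq_lt
    norm_num
  unfold al
  norm_num at h ⊢
  linarith

end Pool.Agent.V11209.Bar
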