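import Mathlib

set_option autoImplicit false

/-!
# Lattices, translated theta functions and the grid-cell Fisher information
-/

namespace Pool.Agent.V11209.Grid

/-- `L` is a lattice of `ℝ^d` of unit volume: `L = ⨁ ℤ u_i` with `|det (u_1, …, u_d)| = 1`. -/
def IsUnimodular {d : ℕ} (L : Submodule ℤ (EuclideanSpace ℝ (Fin d))) : Prop :=
  ∃ u : Fin d → EuclideanSpace ℝ (Fin d),
    |(Matrix.of fun i j => u i j).det| = 1 ∧ L = Submodule.span ℤ (Set.range u)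

/-- The translated lattice theta function `θ_{L+y}(α) = ∑_{p ∈ L} exp (-π α |p + y|²)`. -/
noncomputable def theta {d : ℕ} (L : Submodule ℤ (EuclideanSpace ℝ (Fin d))) (α : ℝ)
    (y : EuclideanSpace ℝ (Fin d)) : ℝ :=
  ∑' p : L, Real.exp (-Real.pi * α * ‖(p : EuclideanSpace ℝ (Fin d)) + y‖ ^ 2)

/-- `Q_L^α(y) = |∇_y √θ_{L+y}(α)|²`. -/
noncomputable def density {d : ℕ} (L : Submodule ℤ (EuclideanSpace ℝ (Fin d))) (α : ℝ)
    (y : EuclideanSpace ℝ (Fin d)) : ℝ :=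
  ‖gradient (fun x => Real.sqrt (theta L α x)) y‖ ^ 2

/-- The functional `F_μ^α(L)` for `μ` the Lebesgue measure on the ball `B_R`. -/
noncomputable def fisher {d : ℕ} (R α : ℝ) (L : Submodule ℤ (EuclideanSpace ℝ (Fin d))) : ℝ :=
  ∫ y in Metric.closedBall (0 : EuclideanSpace ℝ (Fin d)) R, density L α y

/-- The image of a lattice under a linear isometry. -/
noncomputable def image {d : ℕ} (φ : EuclideanSpace ℝ (Fin d) ≃ₗᵢ[ℝ] EuclideanSpace ℝ (Fin d))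
    (L : Submodule ℤ (EuclideanSpace ℝ (Fin d))) : Submodule ℤ (EuclideanSpace ℝ (Fin d)) :=
  L.map (φ.toLinearEquiv.toLinearMap.restrictScalars ℤ)

/-- The triangular lattice `𝖠₂` of unit volume. -/
noncomputable def A2 : Submodule ℤ (EuclideanSpace ℝ (Fin 2)) :=
  Submodule.span ℤ {Real.sqrt (2 / Real.sqrt 3) • !₂[1, 0],
    Real.sqrt (2 / Real.sqrt 3) • !₂[1 / 2, Real.sqrt 3 / 2]}

/-- The face-centred-cubic lattice `𝖣₃` of unit volume. -/
noncomputable def D3 : Submodule ℤ (EuclideanSpace ℝ (Fin 3)) :=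
  Submodule.span ℤ {(2 : ℝ) ^ (-(1 / 3) : ℝ) • !₂[1, 0, 1], (2 : ℝ) ^ (-(1 / 3) : ℝ) • !₂[0, 1, 1],
    (2 : ℝ) ^ (-(1 / 3) : ℝ) • !₂[1, 1, 0]}

end Pool.Agent.V11209.Grid
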