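import Mathlib

set_option autoImplicit false

namespace Pool.Agent.V11209.Grid

open Filter Topology

/-- one-dimensional theta function `∑ exp (-a (m b + t)²)` -/
noncomputable def vt (a b t : ℝ) : ℝ := ∑' m : ℤ, Real.exp (-a * (m * b + t) ^ 2)

/-- the parameter `τ` -/
noncomputable def tt (a b : ℝ) : ℂ := ((a * b ^ 2 / Real.pi : ℝ) : ℂ) * Complex.I

/-- the parameter `z` -/
noncomputable def zz (a b t : ℝ) : ℂ := ((a * b / Real.pi : ℝ) : ℂ) * Complex.I * (t : ℂ)

theorem tt_im {a b : ℝ} (ha : 0 < a) (hb : 0 < b) : 0 < (tt a b).im := by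
  have : (tt a b).im = a * b ^ 2 / Real.pi := by
    unfold tt
    rw [Complex.im_ofReal_mul, Complex.I_im, mul_one]
  rw [this]
  positivity

theorem term_eq (a b t : ℝ) (n : ℤ) : jacobiTheta₂_term n (zz a b t) (tt a b) =
    ((Real.exp (-a * (n * b + t) ^ 2 + a * t ^ 2) : ℝ) : ℂ) := by
  unfold jacobiTheta₂_term zz tt
  rw [Complex.ofReal_exp]
  congr 1
  push_cast
  have hpi : (Real.pi : ℂ) ≠ 0 := by exact_mod_cast Real.pi_ne_zero
  have hI : Complex.I * Complex.I = -1 := Complex.I_mul_I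
  field_simp
  ring_nf
  rw [Complex.I_sq]
  ring

theorem hasSum_vt {a b : ℝ} (ha : 0 < a) (hb : 0 < b) (t : ℝ) :
    HasSum (fun m : ℤ => Real.exp (-a * (m * b + t) ^ 2))
      (Real.exp (-a * t ^ 2) * (jacobiTheta₂ (zz a b t) (tt a b)).re) := by
  have h := Complex.hasSum_re (hasSum_jacobiTheta₂_term (zz a b t) (tt_im ha hb))
  have h2 := h.mul_left (Real.exp (-a * t ^ 2))
  have e : (fun m : ℤ => Real.exp (-a * (m * b + t) ^ 2)) =
      fun m : ℤ => Real.exp (-a * t ^ 2) * (jacobiTheta₂_term m (zz a b t) (tt a b)).re := by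
    funext m
    rw [term_eq, Complex.ofReal_re, ← Real.exp_add]
    congr 1
    ring
  rw [e]
  exact h2

theorem summable_vt {a b : ℝ} (ha : 0 < a) (hb : 0 < b) (t : ℝ) :
    Summable (fun m : ℤ => Real.exp (-a * (m * b + t) ^ 2)) := (hasSum_vt ha hb t).summable

theorem vt_eq {a b : ℝ} (ha : 0 < a) (hb : 0 < b) (t : ℝ) :
    vt a b t = Real.exp (-a * t ^ 2) * (jacobiTheta₂ (zz a b t) (tt a b)).re :=
  (hasSum_vt ha hb t).tsum_eq

theorem vt_contDiff {a b : ℝ} (ha : 0 < a) (hb : 0 < b) : ContDiff ℝ 2 (vt a b) := by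
  have e : vt a b = fun t => Real.exp (-a * t ^ 2) * (jacobiTheta₂ (zz a b t) (tt a b)).re := by
    funext t
    exact vt_eq ha hb t
  rw [e]
  have h1 : Differentiable ℂ (fun z : ℂ => jacobiTheta₂ z (tt a b)) := fun z =>
    differentiableAt_jacobiTheta₂_fst z (tt_im ha hb)
  have h2 : ContDiff ℝ 2 (fun z : ℂ => jacobiTheta₂ z (tt a b)) :=
    (h1.contDiff (n := 2)).restrict_scalars ℝ
  have h3 : ContDiff ℝ 2 (fun t : ℝ => zz a b t) := by
    unfold zz
    exact contDiff_const.mul Complex.ofRealCLM.contDiff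
  have h4 : ContDiff ℝ 2 (fun t : ℝ => (jacobiTheta₂ (zz a b t) (tt a b)).re) :=
    Complex.reCLM.contDiff.comp (h2.comp h3)
  exact (Real.contDiff_exp.comp (contDiff_const.mul (contDiff_id.pow 2))).mul h4

theorem vt_pos {a b : ℝ} (ha : 0 < a) (hb : 0 < b) (t : ℝ) : 0 < vt a b t :=
  (summable_vt ha hb t).tsum_pos (fun m => (Real.exp_pos _).le) 0 (Real.exp_pos _)

theorem vt_ge {a b : ℝ} (ha : 0 < a) (hb : 0 < b) (t : ℝ) : Real.exp (-a * t ^ 2) ≤ vt a b t := by
  have := (summable_vt ha hb t).le_tsum 0 (fun _ _ => (Real.exp_pos _).le)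
  simpa [vt] using this

theorem vt_ge_nat {a s : ℝ} (ha : 0 < a) {N : ℕ} (hN : 1 ≤ N) {t : ℝ} (ht : |t| ≤ s) :
    (N : ℝ) * Real.exp (-a * (1 + s) ^ 2) ≤ vt a (1 / N) t := by
  have hN' : (0 : ℝ) < N := by exact_mod_cast hN
  have hs : Summable (fun m : ℤ => Real.exp (-a * (m * (1 / (N : ℝ)) + t) ^ 2)) :=
    summable_vt ha (by positivity) t
  have h1 := hs.sum_le_tsum (Finset.Ico (0 : ℤ) N) (fun _ _ => (Real.exp_pos _).le)
  refine le_trans ?_ h1
  have hc : (N : ℝ) * Real.exp (-a * (1 + s) ^ 2) =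
      ∑ _m ∈ Finset.Ico (0 : ℤ) N, Real.exp (-a * (1 + s) ^ 2) := by
    rw [Finset.sum_const, Int.card_Ico, nsmul_eq_mul]
    simp
  rw [hc]
  apply Finset.sum_le_sum
  intro m hm
  rw [Finset.mem_Ico] at hm
  apply Real.exp_le_exp.2
  have hm0 : (0 : ℝ) ≤ m := by exact_mod_cast hm.1
  have hm1 : (m : ℝ) ≤ N := by exact_mod_cast hm.2.le
  have h2 : (m : ℝ) * (1 / N) ≤ 1 := by
    rw [mul_one_div, div_le_one hN']
    exact hm1
  have h3 : 0 ≤ (m : ℝ) * (1 / N) := by positivity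
  rw [abs_le] at ht
  have h4 : ((m : ℝ) * (1 / N) + t) ^ 2 ≤ (1 + s) ^ 2 := by
    apply sq_le_sq'
    · linarith
    · linarith
  nlinarith

theorem vt_tendsto {a s : ℝ} (ha : 0 < a) (hs : 0 < s) (hs1 : s < 1) :
    Tendsto (fun N : ℕ => vt a (N : ℝ) s) atTop (𝓝 (Real.exp (-a * s ^ 2))) := by
  have key := tendsto_tsum_of_dominated_convergence (𝓕 := atTop)
    (f := fun (N : ℕ) (m : ℤ) => Real.exp (-a * (m * (N : ℝ) + s) ^ 2))
    (g := fun m : ℤ => if m = 0 then Real.exp (-a * s ^ 2) else 0)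
    (bound := fun m : ℤ => Real.exp (-a * (m * (1 - s) + 0) ^ 2))
    (summable_vt ha (by linarith) 0) ?_ ?_
  · rw [tsum_ite_eq] at key
    exact key
  · intro m
    by_cases hm : m = 0
    · subst hm
      simp
    · rw [if_neg hm]
      have h1 : Tendsto (fun N : ℕ => (m : ℝ) * (N : ℝ) + s) atTop (cocompact ℝ) := by
        have hm' : (m : ℝ) ≠ 0 := by exact_mod_cast hm
        have h2 : Tendsto (fun x : ℝ => (m : ℝ) * x + s) (cocompact ℝ) (cocompact ℝ) :=
          ((Homeomorph.mulLeft₀ (m : ℝ) hm').trans (Homeomorph.addRight s)).isClosedEmbedding.tendsto_cocompact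
        exact h2.comp (tendsto_natCast_atTop_atTop.mono_right atTop_le_cocompact)
      have h2 : Tendsto (fun N : ℕ => ((m : ℝ) * (N : ℝ) + s) ^ 2) atTop atTop := by
        have h3 : Tendsto (fun x : ℝ => x ^ 2) (cocompact ℝ) atTop := by
          have := (tendsto_pow_atTop (two_ne_zero) (α := ℝ)).comp (tendsto_norm_cocompact_atTop (E := ℝ))
          refine this.congr ?_
          intro x
          simp
        exact h3.comp h1
      have h3 : Tendsto (fun N : ℕ => -a * ((m : ℝ) * (N : ℝ) + s) ^ 2) atTop atBot := by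
        exact h2.const_mul_atTop_of_neg (by linarith)
      exact Real.tendsto_exp_atBot.comp h3
  · filter_upwards [eventually_ge_atTop 1] with N hN
    intro m
    rw [Real.norm_eq_abs, abs_of_pos (Real.exp_pos _)]
    apply Real.exp_le_exp.2
    have hN' : (1 : ℝ) ≤ N := by exact_mod_cast hN
    by_cases hm : m = 0
    · subst hm
      simp only [Int.cast_zero, zero_mul, zero_add, add_zero]
      nlinarith [sq_nonneg s]
    · have hm1 : (1 : ℝ) ≤ |(m : ℝ)| := by
        have : (1 : ℤ) ≤ |m| := Int.one_le_abs hm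
        exact_mod_cast this
      have h1 : |(m : ℝ)| * (1 - s) ≤ |(m : ℝ) * N + s| := by
        have h2 : |(m : ℝ) * N| - |s| ≤ |(m : ℝ) * N + s| := by
          have := abs_sub_abs_le_abs_sub ((m : ℝ) * N) (-s)
          rwa [abs_neg, sub_neg_eq_add] at this
        rw [abs_mul, abs_of_pos (by linarith : (0 : ℝ) < N), abs_of_pos hs] at h2
        nlinarith
      have h3 : ((m : ℝ) * (1 - s) + 0) ^ 2 ≤ ((m : ℝ) * N + s) ^ 2 := by
        have h4 : 0 ≤ |(m : ℝ)| * (1 - s) := by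
          apply mul_nonneg (abs_nonneg _)
          linarith
        have := pow_le_pow_left₀ h4 h1 2
        rw [sq_abs, mul_pow, sq_abs] at this
        nlinarith
      nlinarith

end Pool.Agent.V11209.Grid
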