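import Mathlib
import Pool.Agent.V11209.GridOne
import Pool.Agent.V11209.GridDefs

set_option autoImplicit false

namespace Pool.Agent.V11209.Grid

open Filter Topology MeasureTheory


theorem hasSum_mul_aux {β γ : Type} (f : β → ℝ) (g : γ → ℝ) (x y : ℝ) (hf : HasSum f x)
    (hg : HasSum g y) (f0 : ∀ b, 0 ≤ f b) (g0 : ∀ c, 0 ≤ g c) :
    HasSum (fun p : β × γ => f p.1 * g p.2) (x * y) := by
  have hs : Summable fun p : β × γ => f p.1 * g p.2 :=
    Summable.mul_of_nonneg hf.summable hg.summable f0 g0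
  exact HasSum.mul hf hg hs

theorem prod_nonneg_aux (d : ℕ) (f : Fin d → ℤ → ℝ) (h0 : ∀ i m, 0 ≤ f i m) (c : Fin d → ℤ) : 0 ≤ ∏ i, f i (c i) := by
  apply Finset.prod_nonneg
  intro i _
  exact h0 i (c i)

theorem hasSum_cons (d : ℕ) (f0 : ℤ → ℝ) (f : Fin d → ℤ → ℝ) (x y : ℝ) (hx : HasSum f0 x) (hf0 : ∀ m, 0 ≤ f0 m)
   (h0 : ∀ i m, 0 ≤ f i m) (hy : HasSum (fun c : Fin d → ℤ => ∏ i, f i (c i)) y) : 
   HasSum (fun c : Fin (d+1) → ℤ => f0 (c 0) * ∏ i, f i (c i.succ)) (x * y) := by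
  have h2 := hasSum_mul_aux f0 (fun c : Fin d → ℤ => ∏ i, f i (c i)) x y hx hy hf0 (prod_nonneg_aux d f h0)
  rw [← (Fin.consEquiv (fun _ => ℤ)).hasSum_iff]
  have e : ((fun c : Fin (d+1) → ℤ => f0 (c 0) * ∏ i, f i (c i.succ)) ∘ (Fin.consEquiv (fun _ => ℤ))) =
        fun p : ℤ × (Fin d → ℤ) => f0 p.1 * ∏ i, f i (p.2 i) := by
      funext x
      rfl
  rw [e]
  exact h2

theorem hasSum_zero' (f : Fin 0 → ℤ → ℝ) :
    HasSum (fun c : Fin 0 → ℤ => ∏ i, f i (c i)) 1 := by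
  have h : (fun c : Fin 0 → ℤ => ∏ i, f i (c i)) = fun _ => (1 : ℝ) := by
    funext c
    exact Fin.prod_univ_zero _
  rw [h]
  have := hasSum_fintype (fun _ : Fin 0 → ℤ => (1 : ℝ))
  rwa [Fintype.sum_unique] at this

theorem hasSum_first (d : ℕ) (f : Fin (d+1) → ℤ → ℝ) (hs : ∀ i, Summable (f i)) : HasSum (f 0) (∑' m, f 0 m) := (hs 0).hasSum

/-- sums over `ℤ^d` of products -/
theorem hasSum_prod : ∀ (d : ℕ) (f : Fin d → ℤ → ℝ), (∀ i, Summable (f i)) →
    (∀ i m, 0 ≤ f i m) → HasSum (fun c : Fin d → ℤ => ∏ i, f i (c i)) (∏ i, ∑' m, f i m) := by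
  intro d
  induction d with
  | zero =>
    intro f _ _
    rw [Fin.prod_univ_zero]
    exact hasSum_zero' f
  | succ d ih =>
    intro f hs h0
    have h1 := ih (fun i => f i.succ) (fun i => hs i.succ) (fun i m => h0 i.succ m)
    have h3 : ∀ m, 0 ≤ f 0 m := fun m => h0 0 m
    have h2 := hasSum_cons d (f 0) (fun i => f i.succ) _ _ (hasSum_first d f hs) h3 (fun i m => h0 i.succ m) h1
    rw [Fin.prod_univ_succ]
    exact HasSum.congr_fun h2 (fun x => Fin.prod_univ_succ _)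

variable {d : ℕ}

abbrev E (d : ℕ) := EuclideanSpace ℝ (Fin d)

/-- the diagonal lattice -/
noncomputable def dv (b : Fin d → ℝ) (i : Fin d) : E d := EuclideanSpace.single i (b i)

/-- the span -/
noncomputable def dL (b : Fin d → ℝ) : Submodule ℤ (E d) := Submodule.span ℤ (Set.range (dv b))

/-- the points of the lattice -/
noncomputable def pt (b : Fin d → ℝ) (c : Fin d → ℤ) : E d := ∑ i, c i • dv b i

theorem pt_apply (b : Fin d → ℝ) (c : Fin d → ℤ) (j : Fin d) : pt b c j = (c j : ℝ) * b j := by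
  unfold pt dv
  simp [Finset.sum_apply, Pi.single_apply]

theorem mem_dL (b : Fin d → ℝ) (x : E d) :
    x ∈ dL b ↔ ∃ c : Fin d → ℤ, pt b c = x := by
  unfold dL
  rw [Submodule.mem_span_range_iff_exists_fun]
  rfl

theorem det_dv (b : Fin d → ℝ) : (Matrix.of fun i j => dv b i j).det = ∏ i, b i := by
  have : (Matrix.of fun i j => dv b i j) = Matrix.diagonal b := by
    ext i j
    simp only [Matrix.of_apply, dv, Matrix.diagonal_apply]
    by_cases h : i = j
    · subst h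
      simp
    · rw [if_neg h]
      simp [Ne.symm h]
  rw [this, Matrix.det_diagonal]

/-- enumeration of the lattice -/
noncomputable def en (b : Fin d → ℝ) (hb : ∀ i, 0 < b i) : (Fin d → ℤ) ≃ dL b :=
  Equiv.ofBijective (fun c => ⟨pt b c, (mem_dL b _).2 ⟨c, rfl⟩⟩) (by
    constructor
    · intro c c' h
      have h1 : pt b c = pt b c' := congrArg Subtype.val h
      funext i
      have h2 := congrFun (congrArg (fun z : E d => (z : Fin d → ℝ)) h1) i
      have h3 : pt b c i = pt b c' i := h2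
      rw [pt_apply, pt_apply] at h3
      have h4 := mul_right_cancel₀ (hb i).ne' h3
      exact_mod_cast h4
    · rintro ⟨x, hx⟩
      obtain ⟨c, rfl⟩ := (mem_dL b x).1 hx
      exact ⟨c, rfl⟩)

theorem theta_dL (b : Fin d → ℝ) (hb : ∀ i, 0 < b i) {α : ℝ} (hα : 0 < α) (y : E d) :
    theta (dL b) α y = ∏ i, vt (Real.pi * α) (b i) (y i) := by
  have ha : 0 < Real.pi * α := by positivity
  unfold theta
  rw [← (en b hb).tsum_eq]
  have h := hasSum_prod d (fun i m => Real.exp (-(Real.pi * α) * (m * b i + y i) ^ 2))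
    (fun i => summable_vt ha (hb i) (y i)) (fun i m => (Real.exp_pos _).le)
  rw [show (∏ i, vt (Real.pi * α) (b i) (y i)) =
    ∏ i, ∑' m : ℤ, Real.exp (-(Real.pi * α) * (m * b i + y i) ^ 2) from rfl, ← h.tsum_eq]
  congr 1
  funext c
  show Real.exp (-Real.pi * α * ‖pt b c + y‖ ^ 2) = _
  rw [← Real.exp_sum, EuclideanSpace.norm_sq_eq, Finset.mul_sum]
  congr 1
  apply Finset.sum_congr rfl
  intro i _
  have : (pt b c + y) i = c i * b i + y i := by
    rw [← pt_apply]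
    rfl
  rw [this, Real.norm_eq_abs, sq_abs]
  ring

end Pool.Agent.V11209.Grid
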