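import Mathlib
import Pool.Agent.V11209.GridMain

set_option autoImplicit false

namespace Pool.Agent.V11209.Grid

open Filter Topology MeasureTheory

variable {d : ℕ}

/-- the factors -/
noncomputable def hh (v : Fin d → ℝ → ℝ) (i1 : Fin d) (i : Fin d) (t : ℝ) : ℝ :=
  if i = i1 then (deriv (fun t => Real.sqrt (v i t)) t) ^ 2 else v i t

/-- the intervals -/
def II (s : ℝ) (i1 i : Fin d) : Set ℝ := if i = i1 then Set.Icc 0 s else Set.Icc (-s) s

theorem grad_norm (S : E d → ℝ) (y : E d) : ‖gradient S y‖ = ‖fderiv ℝ S y‖ := by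
  unfold gradient
  rw [LinearIsometryEquiv.norm_map]

theorem S_contDiff (v : Fin d → ℝ → ℝ) (hv : ∀ i, ContDiff ℝ 2 (v i)) (hpos : ∀ i t, 0 < v i t) :
    ContDiff ℝ 2 (fun x : E d => Real.sqrt (∏ i, v i (x i))) := by
  apply ContDiff.sqrt
  · apply contDiff_prod
    intro i _
    apply (hv i).comp
    exact (EuclideanSpace.proj (𝕜 := ℝ) i).contDiff
  · intro x
    exact (Finset.prod_pos fun i _ => hpos i _).ne'

theorem pointwise (v : Fin d → ℝ → ℝ) (hv : ∀ i, ContDiff ℝ 2 (v i)) (hpos : ∀ i t, 0 < v i t)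
    (i1 : Fin d) (y : E d) : ∏ i, hh v i1 i (y i) ≤
      ‖gradient (fun x : E d => Real.sqrt (∏ i, v i (x i))) y‖ ^ 2 := by
  rw [grad_norm]
  set S : E d → ℝ := fun x : E d => Real.sqrt (∏ i, v i (x i)) with hS
  have hd : DifferentiableAt ℝ S y := ((S_contDiff v hv hpos).differentiable (by norm_num)) y
  set e : E d := EuclideanSpace.single i1 1 with he
  have h1 : |fderiv ℝ S y e| ≤ ‖fderiv ℝ S y‖ := by
    have := (fderiv ℝ S y).le_opNorm e
    rwa [he, PiLp.norm_single, norm_one, mul_one, Real.norm_eq_abs] at this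
  have h2 : (fderiv ℝ S y e) ^ 2 ≤ ‖fderiv ℝ S y‖ ^ 2 := by
    rw [← sq_abs]
    exact pow_le_pow_left₀ (abs_nonneg _) h1 2
  refine le_trans (le_of_eq ?_) h2
  rw [← hd.lineDeriv_eq_fderiv]
  unfold lineDeriv
  set P : ℝ := ∏ i ∈ Finset.univ.erase i1, v i (y i) with hP
  have hP0 : 0 ≤ P := Finset.prod_nonneg fun i _ => (hpos i _).le
  have e1 : (fun t : ℝ => S (y + t • e)) =
      fun t : ℝ => Real.sqrt P * Real.sqrt (v i1 (y i1 + t)) := by
    funext t
    show Real.sqrt (∏ i, v i ((y + t • e) i)) = _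
    rw [← Real.sqrt_mul hP0]
    congr 1
    rw [← Finset.mul_prod_erase _ _ (Finset.mem_univ i1), mul_comm]
    congr 1
    · apply Finset.prod_congr rfl
      intro i hi
      congr 1
      have : i ≠ i1 := Finset.ne_of_mem_erase hi
      simp [he, this]
    · congr 1
      simp [he]
  rw [e1, deriv_const_mul_field, mul_pow, Real.sq_sqrt hP0]
  have e2 : deriv (fun t : ℝ => Real.sqrt (v i1 (y i1 + t))) 0 =
      deriv (fun t => Real.sqrt (v i1 t)) (y i1) := by
    have := deriv_comp_const_add (f := fun t => Real.sqrt (v i1 t)) (y i1) 0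
    rw [add_zero] at this
    exact this
  rw [e2, ← Finset.mul_prod_erase _ _ (Finset.mem_univ i1), mul_comm]
  congr 1
  · rw [hP]
    apply Finset.prod_congr rfl
    intro i hi
    have : i ≠ i1 := Finset.ne_of_mem_erase hi
    unfold hh
    rw [if_neg this]
  · unfold hh
    rw [if_pos rfl]

theorem hh_cont (v : Fin d → ℝ → ℝ) (hv : ∀ i, ContDiff ℝ 2 (v i)) (hpos : ∀ i t, 0 < v i t)
    (i1 i : Fin d) : Continuous (hh v i1 i) := by
  by_cases h : i = i1
  · have : hh v i1 i = fun t => (deriv (fun t => Real.sqrt (v i t)) t) ^ 2 := by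
      funext t
      unfold hh
      rw [if_pos h]
    rw [this]
    have h1 : ContDiff ℝ 2 (fun t => Real.sqrt (v i t)) :=
      (hv i).sqrt fun t => (hpos i t).ne'
    exact (h1.continuous_deriv (by norm_num)).pow 2
  · have : hh v i1 i = v i := by
      funext t
      unfold hh
      rw [if_neg h]
    rw [this]
    exact (hv i).continuous

theorem hh_nonneg (v : Fin d → ℝ → ℝ) (hpos : ∀ i t, 0 < v i t) (i1 i : Fin d) (t : ℝ) :
    0 ≤ hh v i1 i t := by
  unfold hh
  split_ifs
  · positivity
  · exact (hpos i t).le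

theorem lower (v : Fin d → ℝ → ℝ) (hv : ∀ i, ContDiff ℝ 2 (v i)) (hpos : ∀ i t, 0 < v i t)
    (i1 : Fin d) (R s : ℝ) (hs : 0 < s) (hR0 : 0 ≤ R) (hR : d * s ^ 2 ≤ R ^ 2) :
    ∏ i, ∫ t in II s i1 i, hh v i1 i t ≤
      ∫ y in Metric.closedBall (0 : E d) R,
        ‖gradient (fun x : E d => Real.sqrt (∏ i, v i (x i))) y‖ ^ 2 := by
  set B : Set (E d) := {y | ∀ i, y i ∈ II s i1 i} with hB
  have hBsub : B ⊆ Metric.closedBall (0 : E d) R := by
    intro y hy
    rw [Metric.mem_closedBall, dist_zero_right, EuclideanSpace.norm_eq]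
    apply Real.sqrt_le_iff.2
    refine ⟨hR0, ?_⟩
    calc ∑ i, ‖y i‖ ^ 2 ≤ ∑ _i : Fin d, s ^ 2 := by
          apply Finset.sum_le_sum
          intro i _
          rw [Real.norm_eq_abs]
          apply pow_le_pow_left₀ (abs_nonneg _)
          have := hy i
          unfold II at this
          rw [abs_le]
          split_ifs at this
          · exact ⟨by linarith [this.1], this.2⟩
          · exact ⟨this.1, this.2⟩
      _ = d * s ^ 2 := by simp
      _ ≤ R ^ 2 := hR
  have hIm : ∀ i, MeasurableSet (II s i1 i) := by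
    intro i
    unfold II
    split_ifs
    · exact measurableSet_Icc
    · exact measurableSet_Icc
  have hBm : MeasurableSet B := by
    have : B = ⋂ i, (fun y : E d => y i) ⁻¹' (II s i1 i) := by
      ext y
      simp [hB]
    rw [this]
    apply MeasurableSet.iInter
    intro i
    exact (EuclideanSpace.proj (𝕜 := ℝ) i).continuous.measurable (hIm i)
  have hc1 : Continuous fun y : E d =>
      ‖gradient (fun x : E d => Real.sqrt (∏ i, v i (x i))) y‖ ^ 2 := by
    have : (fun y : E d => ‖gradient (fun x : E d => Real.sqrt (∏ i, v i (x i))) y‖ ^ 2) =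
        fun y : E d => ‖fderiv ℝ (fun x : E d => Real.sqrt (∏ i, v i (x i))) y‖ ^ 2 := by
      funext y
      rw [grad_norm]
    rw [this]
    exact ((S_contDiff v hv hpos).continuous_fderiv (by norm_num)).norm.pow 2
  have hc2 : Continuous fun y : E d => ∏ i, hh v i1 i (y i) := by
    apply continuous_finsetProd
    intro i _
    exact (hh_cont v hv hpos i1 i).comp (EuclideanSpace.proj (𝕜 := ℝ) i).continuous
  have hi1 : IntegrableOn (fun y : E d =>
      ‖gradient (fun x : E d => Real.sqrt (∏ i, v i (x i))) y‖ ^ 2) (Metric.closedBall 0 R) :=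
    hc1.continuousOn.integrableOn_compact (isCompact_closedBall _ _)
  have hi2 : IntegrableOn (fun y : E d => ∏ i, hh v i1 i (y i)) (Metric.closedBall 0 R) :=
    hc2.continuousOn.integrableOn_compact (isCompact_closedBall _ _)
  have step1 : ∫ y in B, ∏ i, hh v i1 i (y i) ≤
      ∫ y in Metric.closedBall (0 : E d) R,
        ‖gradient (fun x : E d => Real.sqrt (∏ i, v i (x i))) y‖ ^ 2 := by
    calc ∫ y in B, ∏ i, hh v i1 i (y i)
        ≤ ∫ y in B, ‖gradient (fun x : E d => Real.sqrt (∏ i, v i (x i))) y‖ ^ 2 := by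
          apply setIntegral_mono_on (hi2.mono_set hBsub) (hi1.mono_set hBsub) hBm
          intro y _
          exact pointwise v hv hpos i1 y
      _ ≤ _ := by
          apply setIntegral_mono_set hi1
          · filter_upwards with y
            positivity
          · exact hBsub.eventuallyLE
  refine le_trans (le_of_eq ?_) step1
  rw [← integral_indicator hBm]
  rw [← (PiLp.volume_preserving_toLp (Fin d)).integral_comp
    (MeasurableEquiv.toLp 2 _).measurableEmbedding]
  have e : (fun x : Fin d → ℝ => B.indicator (fun y : E d => ∏ i, hh v i1 i (y i))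
      (WithLp.toLp 2 x)) = fun x : Fin d → ℝ => ∏ i, (II s i1 i).indicator (hh v i1 i) (x i) := by
    funext x
    by_cases hx : WithLp.toLp 2 x ∈ B
    · rw [Set.indicator_of_mem hx]
      apply Finset.prod_congr rfl
      intro i _
      rw [Set.indicator_of_mem]
      exact hx i
    · rw [Set.indicator_of_notMem hx]
      have : ∃ i, x i ∉ II s i1 i := by
        by_contra hc
        push Not at hc
        exact hx hc
      obtain ⟨i, hi⟩ := this
      symm
      apply Finset.prod_eq_zero (Finset.mem_univ i)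
      rw [Set.indicator_of_notMem hi]
  rw [e, integral_fintype_prod_volume_eq_prod]
  apply Finset.prod_congr rfl
  intro i _
  rw [integral_indicator (hIm i)]

end Pool.Agent.V11209.Grid
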