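import Mathlib
import Pool.Agent.V11209.GridLower

set_option autoImplicit false

namespace Pool.Agent.V11209.Grid

open Filter Topology MeasureTheory

theorem cs_deriv (g : ℝ → ℝ) (hg : ContDiff ℝ 2 g) (s : ℝ) (hs : 0 < s) :
    (g 0 - g s) ^ 2 / s ≤ ∫ t in Set.Icc 0 s, (deriv g t) ^ 2 := by
  have hc : Continuous (deriv g) := hg.continuous_deriv (by norm_num)
  rw [integral_Icc_eq_integral_Ioc, ← intervalIntegral.integral_of_le hs.le]
  set k : ℝ := (g 0 - g s) / s with hk
  have h1 : ∫ t in (0 : ℝ)..s, (-2 * k * deriv g t - k ^ 2) ≤ ∫ t in (0 : ℝ)..s, (deriv g t) ^ 2 := by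
    apply intervalIntegral.integral_mono_on hs.le
    · exact ((continuous_const.mul hc).sub continuous_const).intervalIntegrable _ _
    · exact (hc.pow 2).intervalIntegrable _ _
    · intro t _
      nlinarith [sq_nonneg (deriv g t + k)]
  refine le_trans (le_of_eq ?_) h1
  have hi1 : IntervalIntegrable (fun t => -2 * k * deriv g t) volume 0 s :=
    (continuous_const.mul hc).intervalIntegrable _ _
  have hi2 : IntervalIntegrable (fun _ : ℝ => k ^ 2) volume 0 s :=
    continuous_const.intervalIntegrable _ _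
  rw [intervalIntegral.integral_sub hi1 hi2, intervalIntegral.integral_const_mul,
    intervalIntegral.integral_deriv_eq_sub (fun x _ => (hg.differentiable (by norm_num)) x)
      (hc.intervalIntegrable _ _), intervalIntegral.integral_const, smul_eq_mul]
  have e : k * s = g 0 - g s := div_mul_cancel₀ _ hs.ne'
  have e2 : (g 0 - g s) ^ 2 / s = k * (g 0 - g s) := by
    rw [hk]
    ring
  rw [e2]
  have e3 : (s - 0) * k ^ 2 = k * (k * s) := by ring
  rw [e3, e]
  ring

/-- the side lengths -/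
noncomputable def bN (n N : ℕ) : Fin (n + 2) → ℝ :=
  Fin.cons (1 / (N : ℝ)) (Fin.cons (N : ℝ) (fun _ => 1))

theorem bN_pos (n : ℕ) {N : ℕ} (hN : 1 ≤ N) (i : Fin (n + 2)) : 0 < bN n N i := by
  have hN' : (0 : ℝ) < N := by exact_mod_cast hN
  refine Fin.cases ?_ (fun i => ?_) i
  · show 0 < 1 / (N : ℝ)
    positivity
  · refine Fin.cases ?_ (fun i => ?_) i
    · exact hN'
    · exact one_pos

theorem bN_prod (n : ℕ) {N : ℕ} (hN : 1 ≤ N) : ∏ i, bN n N i = 1 := by
  have hN' : (0 : ℝ) < N := by exact_mod_cast hN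
  rw [Fin.prod_univ_succ, Fin.prod_univ_succ]
  show 1 / (N : ℝ) * ((N : ℝ) * ∏ _i : Fin n, (1 : ℝ)) = 1
  rw [Finset.prod_const_one, mul_one]
  field_simp

theorem bN_uni (n : ℕ) {N : ℕ} (hN : 1 ≤ N) : IsUnimodular (dL (bN n N)) := by
  refine ⟨dv (bN n N), ?_, rfl⟩
  rw [det_dv, bN_prod n hN, abs_one]

theorem fisher_lower (n : ℕ) {α R s : ℝ} (hα : 0 < α) (hs : 0 < s) (hR0 : 0 ≤ R)
    (hR : ((n + 2 : ℕ) : ℝ) * s ^ 2 ≤ R ^ 2) {N : ℕ} (hN : 1 ≤ N)
    (hv : vt (Real.pi * α) N s ≤ 1) :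
    2 * s * (N * Real.exp (-(Real.pi * α) * (1 + s) ^ 2)) *
      ((1 - Real.sqrt (vt (Real.pi * α) N s)) ^ 2 / s *
        (2 * s * Real.exp (-(Real.pi * α) * s ^ 2)) ^ n) ≤
      fisher R α (dL (bN n N)) := by
  have ha : 0 < Real.pi * α := by positivity
  have hN' : (0 : ℝ) < N := by exact_mod_cast hN
  set a := Real.pi * α with ha'
  set v : Fin (n + 2) → ℝ → ℝ := fun i => vt a (bN n N i) with hvdef
  have hvc : ∀ i, ContDiff ℝ 2 (v i) := fun i => vt_contDiff ha (bN_pos n hN i)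
  have hvp : ∀ i t, 0 < v i t := fun i t => vt_pos ha (bN_pos n hN i) t
  have h := lower v hvc hvp 1 R s hs hR0 hR
  have e : fisher R α (dL (bN n N)) = ∫ y in Metric.closedBall (0 : E (n + 2)) R,
        ‖gradient (fun x : E (n + 2) => Real.sqrt (∏ i, v i (x i))) y‖ ^ 2 := by
    unfold fisher density
    have : (fun x => Real.sqrt (theta (dL (bN n N)) α x)) =
        fun x : E (n + 2) => Real.sqrt (∏ i, v i (x i)) := by
      funext x
      rw [theta_dL _ (bN_pos n hN) hα]
    rw [this]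
  rw [e]
  refine le_trans ?_ h
  rw [Fin.prod_univ_succ, Fin.prod_univ_succ]
  have hv0 : v 0 = vt a (1 / N) := rfl
  have hv1 : v 1 = vt a N := rfl
  have k0 : 2 * s * (N * Real.exp (-a * (1 + s) ^ 2)) ≤
      ∫ t in II s (1 : Fin (n + 2)) 0, hh v 1 0 t := by
    have h01 : (0 : Fin (n + 2)) ≠ 1 := by
      intro h
      have := congrArg Fin.val h
      simp at this
    have e1 : II s (1 : Fin (n + 2)) 0 = Set.Icc (-s) s := by
      unfold II
      rw [if_neg h01]
    have e2 : hh v 1 0 = vt a (1 / N) := by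
      funext t
      unfold hh
      rw [if_neg h01, hv0]
    rw [e1, e2]
    have hi : IntegrableOn (vt a (1 / N)) (Set.Icc (-s) s) :=
      (hvc 0).continuous.continuousOn.integrableOn_compact isCompact_Icc
    have h2 : ∫ _t in Set.Icc (-s) s, (N * Real.exp (-a * (1 + s) ^ 2)) ≤
        ∫ t in Set.Icc (-s) s, vt a (1 / N) t := by
      apply setIntegral_mono_on _ hi measurableSet_Icc
      · intro t ht
        exact vt_ge_nat ha hN (abs_le.2 ht)
      · exact integrableOn_const (by simp)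
    refine le_trans (le_of_eq ?_) h2
    rw [setIntegral_const]
    simp only [measureReal_def, Real.volume_Icc, smul_eq_mul]
    rw [ENNReal.toReal_ofReal (by linarith)]
    ring
  have k1 : (1 - Real.sqrt (vt a N s)) ^ 2 / s ≤
      ∫ t in II s (1 : Fin (n + 2)) (Fin.succ 0), hh v 1 (Fin.succ 0) t := by
    have h11 : (Fin.succ 0 : Fin (n + 2)) = 1 := rfl
    rw [h11]
    have e1 : II s (1 : Fin (n + 2)) 1 = Set.Icc 0 s := by
      unfold II
      rw [if_pos rfl]
    have e2 : hh v 1 1 = fun t => (deriv (fun t => Real.sqrt (vt a N t)) t) ^ 2 := by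
      funext t
      unfold hh
      rw [if_pos rfl, hv1]
    rw [e1, e2]
    have hg : ContDiff ℝ 2 (fun t => Real.sqrt (vt a N t)) :=
      (hvc 1).sqrt fun t => (hvp 1 t).ne'
    refine le_trans ?_ (cs_deriv _ hg s hs)
    apply div_le_div_of_nonneg_right _ hs.le
    have g0 : 1 ≤ Real.sqrt (vt a N 0) := by
      rw [Real.one_le_sqrt]
      have := vt_ge ha hN' 0
      simpa using this
    have gs : Real.sqrt (vt a N s) ≤ 1 := by
      rw [Real.sqrt_le_one]
      exact hv
    apply pow_le_pow_left₀ (by linarith)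
    linarith
  have k2 : (2 * s * Real.exp (-a * s ^ 2)) ^ n ≤ ∏ i : Fin n,
      ∫ t in II s (1 : Fin (n + 2)) i.succ.succ, hh v 1 i.succ.succ t := by
    rw [← Fin.prod_const]
    apply Finset.prod_le_prod
    · intro i _
      positivity
    · intro i _
      have hne : (i.succ.succ : Fin (n + 2)) ≠ 1 := by
        intro h
        have := congrArg Fin.val h
        simp at this
      have e1 : II s (1 : Fin (n + 2)) i.succ.succ = Set.Icc (-s) s := by
        unfold II
        rw [if_neg hne]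
      have hvi : v i.succ.succ = vt a 1 := rfl
      have e2 : hh v 1 i.succ.succ = vt a 1 := by
        funext t
        unfold hh
        rw [if_neg hne, hvi]
      rw [e1, e2]
      have hi : IntegrableOn (vt a 1) (Set.Icc (-s) s) :=
        (vt_contDiff ha one_pos).continuous.continuousOn.integrableOn_compact isCompact_Icc
      have h2 : ∫ _t in Set.Icc (-s) s, (Real.exp (-a * s ^ 2)) ≤
          ∫ t in Set.Icc (-s) s, vt a 1 t := by
        apply setIntegral_mono_on _ hi measurableSet_Icc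
        · intro t ht
          refine le_trans ?_ (vt_ge ha one_pos t)
          apply Real.exp_le_exp.2
          have : t ^ 2 ≤ s ^ 2 := sq_le_sq' ht.1 ht.2
          nlinarith
        · exact integrableOn_const (by simp)
      refine le_trans (le_of_eq ?_) h2
      rw [setIntegral_const]
      simp only [measureReal_def, Real.volume_Icc, smul_eq_mul]
      rw [ENNReal.toReal_ofReal (by linarith)]
      ring
  have p0 : 0 ≤ 2 * s * (N * Real.exp (-a * (1 + s) ^ 2)) := by positivity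
  have p1 : 0 ≤ (1 - Real.sqrt (vt a N s)) ^ 2 / s := by positivity
  have p2 : 0 ≤ (2 * s * Real.exp (-a * s ^ 2)) ^ n := by positivity
  exact mul_le_mul k0 (mul_le_mul k1 k2 p2 (p1.trans k1)) (mul_nonneg p1 p2) (p0.trans k0)

theorem unbounded (n : ℕ) {α R : ℝ} (hα : 0 < α) (hR : 0 < R) (C : ℝ) :
    ∃ L : Submodule ℤ (E (n + 2)), IsUnimodular L ∧ C < fisher R α L := by
  have ha : 0 < Real.pi * α := by positivity
  obtain ⟨s, hs, hs1, hsR⟩ : ∃ s : ℝ, 0 < s ∧ s < 1 ∧ ((n + 2 : ℕ) : ℝ) * s ^ 2 ≤ R ^ 2 := by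
    have hn : (0 : ℝ) < ((n + 2 : ℕ) : ℝ) := by positivity
    have hn1 : (1 : ℝ) ≤ ((n + 2 : ℕ) : ℝ) := by
      have : 1 ≤ n + 2 := by omega
      exact_mod_cast this
    refine ⟨min (1 / 2) (R / ((n + 2 : ℕ) : ℝ)), by positivity, ?_, ?_⟩
    · exact lt_of_le_of_lt (min_le_left _ _) (by norm_num)
    · have h1 : (min (1 / 2) (R / ((n + 2 : ℕ) : ℝ))) ^ 2 ≤ (R / ((n + 2 : ℕ) : ℝ)) ^ 2 :=
        pow_le_pow_left₀ (by positivity) (min_le_right _ _) 2
      calc ((n + 2 : ℕ) : ℝ) * (min (1 / 2) (R / ((n + 2 : ℕ) : ℝ))) ^ 2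
          ≤ ((n + 2 : ℕ) : ℝ) * (R / ((n + 2 : ℕ) : ℝ)) ^ 2 :=
            mul_le_mul_of_nonneg_left h1 hn.le
        _ = R ^ 2 / ((n + 2 : ℕ) : ℝ) := by
            field_simp
        _ ≤ R ^ 2 := div_le_self (by positivity) hn1
  set a := Real.pi * α with ha'
  have hlim := vt_tendsto ha hs hs1
  have hl1 : Real.exp (-a * s ^ 2) < 1 := by
    rw [Real.exp_lt_one_iff]
    have : 0 < a * s ^ 2 := by positivity
    linarith
  have hlim2 : Tendsto (fun N : ℕ => (1 - Real.sqrt (vt a N s)) ^ 2) atTop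
      (𝓝 ((1 - Real.sqrt (Real.exp (-a * s ^ 2))) ^ 2)) :=
    ((tendsto_const_nhds.sub ((Real.continuous_sqrt.tendsto _).comp hlim))).pow 2
  have hl2 : 0 < (1 - Real.sqrt (Real.exp (-a * s ^ 2))) ^ 2 := by
    have : Real.sqrt (Real.exp (-a * s ^ 2)) < 1 := by
      rw [Real.sqrt_lt' one_pos, one_pow]
      exact hl1
    have h2 : 0 < 1 - Real.sqrt (Real.exp (-a * s ^ 2)) := by linarith
    positivity
  set c0 := (1 - Real.sqrt (Real.exp (-a * s ^ 2))) ^ 2 / 2 with hc0
  have hc0p : 0 < c0 := by positivity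
  have ev1 := hlim.eventually (gt_mem_nhds hl1)
  have ev2 := hlim2.eventually (lt_mem_nhds (show c0 < (1 - Real.sqrt (Real.exp (-a * s ^ 2))) ^ 2 by
    rw [hc0]
    linarith))
  set K := 2 * s * Real.exp (-a * (1 + s) ^ 2) * (c0 / s * (2 * s * Real.exp (-a * s ^ 2)) ^ n)
    with hK
  have hKp : 0 < K := by positivity
  have ev3 : ∀ᶠ N : ℕ in atTop, C / K < N :=
    (tendsto_natCast_atTop_atTop (R := ℝ)).eventually_gt_atTop _
  obtain ⟨N, h1, h2, h3, hN⟩ := (ev1.and (ev2.and (ev3.and (eventually_ge_atTop 1)))).exists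
  refine ⟨dL (bN n N), bN_uni n hN, ?_⟩
  have h := fisher_lower n hα hs hR.le hsR hN h1.le
  refine lt_of_lt_of_le ?_ h
  have e1 : C < N * K := by
    rwa [div_lt_iff₀ hKp] at h3
  refine lt_of_lt_of_le e1 ?_
  have e2 : (N : ℝ) * K = 2 * s * (N * Real.exp (-a * (1 + s) ^ 2)) *
      (c0 / s * (2 * s * Real.exp (-a * s ^ 2)) ^ n) := by
    rw [hK]
    ring
  rw [e2]
  apply mul_le_mul_of_nonneg_left _ (by positivity)
  apply mul_le_mul_of_nonneg_right _ (by positivity)
  exact div_le_div_of_nonneg_right h2.le hs.le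

end Pool.Agent.V11209.Grid
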