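import Mathlib
import Pool.Agent.V11209.GridFinal

set_option autoImplicit false

namespace Pool.Agent.V11209.Grid

open Filter Topology MeasureTheory

variable {d : ℕ}

theorem theta_image (φ : E d ≃ₗᵢ[ℝ] E d) (L : Submodule ℤ (E d)) (α : ℝ) (y : E d) :
    theta (image φ L) α y = theta L α (φ.symm y) := by
  unfold theta
  let e : L ≃ image φ L :=
    (LinearEquiv.submoduleMap (φ.toLinearEquiv.restrictScalars ℤ) L).toEquiv
  rw [← e.tsum_eq]
  congr 1
  funext p
  have h : ((e p : image φ L) : E d) = φ (p : E d) := rfl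
  rw [h]
  congr 3
  have : φ (p : E d) + y = φ ((p : E d) + φ.symm y) := by
    rw [map_add, φ.apply_symm_apply]
  rw [this, φ.norm_map]

theorem density_image (φ : E d ≃ₗᵢ[ℝ] E d) (L : Submodule ℤ (E d)) (α : ℝ) (y : E d) :
    density (image φ L) α y = density L α (φ.symm y) := by
  unfold density
  rw [grad_norm, grad_norm]
  have e : (fun x => Real.sqrt (theta (image φ L) α x)) =
      (fun x => Real.sqrt (theta L α x)) ∘ φ.symm := by
    funext x
    show Real.sqrt _ = Real.sqrt _
    rw [theta_image]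
  rw [e]
  have h := φ.symm.toContinuousLinearEquiv.comp_right_fderiv
    (f := fun x => Real.sqrt (theta L α x)) (x := y)
  have h2 : fderiv ℝ ((fun x => Real.sqrt (theta L α x)) ∘ φ.symm) y =
    (fderiv ℝ (fun x => Real.sqrt (theta L α x)) (φ.symm y)).comp
      (φ.symm.toContinuousLinearEquiv : E d →L[ℝ] E d) := h
  rw [h2]
  congr 1
  exact ContinuousLinearMap.opNorm_comp_linearIsometryEquiv _ φ.symm

theorem fisher_image (φ : E d ≃ₗᵢ[ℝ] E d) (L : Submodule ℤ (E d)) (R α : ℝ) :
    fisher R α (image φ L) = fisher R α L := by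
  unfold fisher
  have h := φ.symm.measurePreserving.setIntegral_preimage_emb
    φ.symm.toHomeomorph.measurableEmbedding (density L α) (Metric.closedBall 0 R)
  have hb : φ.symm ⁻¹' (Metric.closedBall (0 : E d) R) = Metric.closedBall 0 R := by
    ext x
    simp
  rw [hb] at h
  rw [← h]
  congr 1
  funext y
  exact density_image φ L α y

theorem final (n : ℕ) {α R : ℝ} (hα : 0 < α) (hR : 0 < R) (L₀ : Submodule ℤ (E (n + 2))) :
    ∃ L : Submodule ℤ (E (n + 2)), IsUnimodular L ∧ (∀ φ, L ≠ image φ L₀) ∧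
      fisher R α L₀ < fisher R α L := by
  obtain ⟨L, h1, h2⟩ := unbounded n hα hR (fisher R α L₀)
  refine ⟨L, h1, ?_, h2⟩
  rintro φ rfl
  rw [fisher_image] at h2
  exact lt_irrefl _ h2

end Pool.Agent.V11209.Grid
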