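import Mathlib
import Pool.Agent.V11209.GridIso

set_option autoImplicit false

namespace Pool.Agent.V11209.Grid

theorem A2_uni : IsUnimodular A2 := by
  refine ⟨![Real.sqrt (2 / Real.sqrt 3) • !₂[1, 0],
    Real.sqrt (2 / Real.sqrt 3) • !₂[1 / 2, Real.sqrt 3 / 2]], ?_, ?_⟩
  · have h3 : (0 : ℝ) < Real.sqrt 3 := Real.sqrt_pos.2 (by norm_num)
    rw [Matrix.det_fin_two]
    simp only [Matrix.of_apply, Matrix.cons_val_zero, Matrix.cons_val_one, PiLp.smul_apply,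
      smul_eq_mul]
    have e : Real.sqrt (2 / Real.sqrt 3) * 1 * (Real.sqrt (2 / Real.sqrt 3) * (Real.sqrt 3 / 2)) -
      Real.sqrt (2 / Real.sqrt 3) * 0 * (Real.sqrt (2 / Real.sqrt 3) * (1 / 2)) = 1 := by
      have h := Real.mul_self_sqrt (show 0 ≤ 2 / Real.sqrt 3 by positivity)
      calc _ = (Real.sqrt (2 / Real.sqrt 3) * Real.sqrt (2 / Real.sqrt 3)) * (Real.sqrt 3 / 2) := by
            ring
        _ = 1 := by
            rw [h]
            field_simp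
    rw [e, abs_one]
  · unfold A2
    congr 1
    ext x
    simp
    tauto

theorem D3_uni : IsUnimodular D3 := by
  refine ⟨![(2 : ℝ) ^ (-(1 / 3) : ℝ) • !₂[1, 0, 1], (2 : ℝ) ^ (-(1 / 3) : ℝ) • !₂[0, 1, 1],
    (2 : ℝ) ^ (-(1 / 3) : ℝ) • !₂[1, 1, 0]], ?_, ?_⟩
  · rw [Matrix.det_fin_three]
    simp only [Matrix.of_apply, Matrix.cons_val_zero, Matrix.cons_val_one, Matrix.cons_val,
      PiLp.smul_apply, smul_eq_mul]
    have h : ((2 : ℝ) ^ (-(1 / 3) : ℝ)) ^ 3 = 1 / 2 := by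
      rw [← Real.rpow_natCast, ← Real.rpow_mul (by norm_num)]
      norm_num
    set c : ℝ := (2 : ℝ) ^ (-(1 / 3) : ℝ)
    have e : ∀ z : ℝ, z = -2 * c ^ 3 → |z| = 1 := by
      rintro z rfl
      rw [h]
      norm_num
    apply e
    ring
  · unfold D3
    congr 1
    ext x
    simp
    tauto

end Pool.Agent.V11209.Grid
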