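import Mathlib

set_option autoImplicit false
open Matrix

namespace Pool.Agent.V11209.Cox

/-- positive definite binary forms `(p, q, r)` -/
def Cn : Set (Fin 3 → ℝ) := {x | 0 < x 0 ∧ 0 < x 0 * x 2 - x 1 ^ 2}

/-- positive semidefinite forms -/
def Cb : Set (Fin 3 → ℝ) := {x | 0 ≤ x 0 ∧ 0 ≤ x 2 ∧ 0 ≤ x 0 * x 2 - x 1 ^ 2}

theorem mem_Cn {x : Fin 3 → ℝ} : x ∈ Cn ↔ 0 < x 0 ∧ 0 < x 0 * x 2 - x 1 ^ 2 := Iff.rfl
theorem mem_Cb {x : Fin 3 → ℝ} : x ∈ Cb ↔ 0 ≤ x 0 ∧ 0 ≤ x 2 ∧ 0 ≤ x 0 * x 2 - x 1 ^ 2 := Iff.rfl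

theorem r_pos {x : Fin 3 → ℝ} (h : x ∈ Cn) : 0 < x 2 := by
  obtain ⟨h0, h1⟩ := h
  by_contra hc
  push Not at hc
  nlinarith [sq_nonneg (x 1), mul_nonneg h0.le (neg_nonneg.2 hc)]

theorem Cn_sub : Cn ⊆ Cb := fun _ h => ⟨h.1.le, (r_pos h).le, h.2.le⟩

theorem Cb_closed : IsClosed Cb := by
  have h0 : Continuous fun x : Fin 3 → ℝ => x 0 := continuous_apply 0
  have h1 : Continuous fun x : Fin 3 → ℝ => x 1 := continuous_apply 1
  have h2 : Continuous fun x : Fin 3 → ℝ => x 2 := continuous_apply 2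
  apply IsClosed.inter (isClosed_le continuous_const h0)
  apply IsClosed.inter (isClosed_le continuous_const h2)
  exact isClosed_le continuous_const ((h0.mul h2).sub (h1.pow 2))

theorem Cn_open : IsOpen Cn := by
  have h0 : Continuous fun x : Fin 3 → ℝ => x 0 := continuous_apply 0
  have h1 : Continuous fun x : Fin 3 → ℝ => x 1 := continuous_apply 1
  have h2 : Continuous fun x : Fin 3 → ℝ => x 2 := continuous_apply 2
  apply IsOpen.inter (isOpen_lt continuous_const h0)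
  exact isOpen_lt continuous_const ((h0.mul h2).sub (h1.pow 2))

theorem closure_sub : closure Cn ⊆ Cb := closure_minimal Cn_sub Cb_closed

theorem Cn_smul {x : Fin 3 → ℝ} (h : x ∈ Cn) {t : ℝ} (ht : 0 < t) : t • x ∈ Cn := by
  obtain ⟨h0, h1⟩ := h
  refine ⟨?_, ?_⟩
  · simp only [Pi.smul_apply, smul_eq_mul]
    positivity
  · simp only [Pi.smul_apply, smul_eq_mul]
    have : t * x 0 * (t * x 2) - (t * x 1) ^ 2 = t ^ 2 * (x 0 * x 2 - x 1 ^ 2) := by ring
    rw [this]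
    positivity

theorem Cn_add {x y : Fin 3 → ℝ} (hx : x ∈ Cn) (hy : y ∈ Cn) : x + y ∈ Cn := by
  obtain ⟨h0, h1⟩ := hx
  obtain ⟨k0, k1⟩ := hy
  refine ⟨?_, ?_⟩
  · simp only [Pi.add_apply]
    positivity
  · simp only [Pi.add_apply]
    have e : 0 < x 0 * y 0 * (x 0 * y 2 + y 0 * x 2 - 2 * x 1 * y 1) := by
      have : x 0 * y 0 * (x 0 * y 2 + y 0 * x 2 - 2 * x 1 * y 1) =
        x 0 ^ 2 * (y 0 * y 2 - y 1 ^ 2) + y 0 ^ 2 * (x 0 * x 2 - x 1 ^ 2) +
          (x 0 * y 1 - y 0 * x 1) ^ 2 := by ring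
      rw [this]
      positivity
    have e2 : 0 < x 0 * y 2 + y 0 * x 2 - 2 * x 1 * y 1 := by
      by_contra hc
      push Not at hc
      have := mul_nonneg (mul_pos h0 k0).le (neg_nonneg.2 hc)
      linarith
    nlinarith

/-- for `x ∈ Cb`, `x + ε (1,0,1)` is positive definite -/
theorem Cb_perturb {x : Fin 3 → ℝ} (h : x ∈ Cb) {ε : ℝ} (hε : 0 < ε) : x + ε • ![1, 0, 1] ∈ Cn := by
  obtain ⟨h0, h2, h1⟩ := h
  refine ⟨?_, ?_⟩
  · simp
    linarith
  · simp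
    nlinarith [mul_pos hε hε, mul_nonneg hε.le h0, mul_nonneg hε.le h2]

theorem sub_closure : Cb ⊆ closure Cn := by
  intro x hx
  have hf : Continuous fun ε : ℝ => x + ε • (![1, 0, 1] : Fin 3 → ℝ) := by fun_prop
  have ht : Filter.Tendsto (fun ε : ℝ => x + ε • (![1, 0, 1] : Fin 3 → ℝ))
      (nhdsWithin 0 (Set.Ioi 0)) (nhds x) := by
    have := (hf.tendsto 0).mono_left (nhdsWithin_le_nhds (s := Set.Ioi (0 : ℝ)))
    simpa using this
  apply mem_closure_of_tendsto ht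
  filter_upwards [self_mem_nhdsWithin] with ε hε
  exact Cb_perturb hx hε

theorem closure_eq : closure Cn = Cb := Set.Subset.antisymm closure_sub sub_closure

theorem Cn_convex : Convex ℝ Cn := by
  intro x hx y hy a b ha hb hab
  rcases ha.eq_or_lt with h | h
  · subst h
    rw [zero_add] at hab
    subst hab
    simpa using hy
  · rcases hb.eq_or_lt with h' | h'
    · subst h'
      rw [add_zero] at hab
      subst hab
      simpa using hx
    · exact Cn_add (Cn_smul hx h) (Cn_smul hy h')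

theorem Cn_nonempty : Cn.Nonempty := ⟨![1, 0, 1], by simp [mem_Cn]⟩

theorem Cn_proper (x v : Fin 3 → ℝ) (hv : v ≠ 0) : ∃ t : ℝ, x + t • v ∉ closure Cn := by
  by_contra hc
  push Not at hc
  rw [closure_eq] at hc
  have key : ∀ a b : ℝ, (∀ t : ℝ, 0 ≤ a + t * b) → b = 0 := by
    intro a b h
    by_contra hb
    have := h (-(a + 1) / b)
    rw [div_mul_cancel₀ _ hb] at this
    linarith
  have h0 : v 0 = 0 := key (x 0) (v 0) fun t => (hc t).1
  have h2 : v 2 = 0 := key (x 2) (v 2) fun t => (hc t).2.1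
  have h1 : v 1 = 0 := by
    by_contra hb
    have h := (hc ((x 0 * x 2 + 1 - x 1) / v 1)).2.2
    simp only [Pi.add_apply, Pi.smul_apply, smul_eq_mul, h0, h2, mul_zero, add_zero] at h
    rw [div_mul_cancel₀ _ hb] at h
    have e : x 1 + (x 0 * x 2 + 1 - x 1) = x 0 * x 2 + 1 := by ring
    rw [e] at h
    nlinarith [sq_nonneg (x 0 * x 2)]
  apply hv
  ext i
  fin_cases i
  · exact h0
  · exact h1
  · exact h2

/-! ### the matrices -/

def mA : Matrix (Fin 3) (Fin 3) ℝ := !![0, 0, 1; 0, -1, 0; 1, 0, 0]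
def mB : Matrix (Fin 3) (Fin 3) ℝ := !![0, 0, 1; 0, 1, 0; 1, 0, 0]
def mC : Matrix (Fin 3) (Fin 3) ℝ := !![1, -4, 4; 0, -1, 2; 0, 0, 1]

theorem mA_vec (x : Fin 3 → ℝ) : mA *ᵥ x = ![x 2, - x 1, x 0] := by
  ext i
  fin_cases i <;> simp [mA, Matrix.mulVec, dotProduct, Fin.sum_univ_three]
theorem mB_vec (x : Fin 3 → ℝ) : mB *ᵥ x = ![x 2, x 1, x 0] := by
  ext i
  fin_cases i <;> simp [mB, Matrix.mulVec, dotProduct, Fin.sum_univ_three]
theorem mC_vec (x : Fin 3 → ℝ) : mC *ᵥ x = ![x 0 - 4 * x 1 + 4 * x 2, - x 1 + 2 * x 2, x 2] := by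
  ext i
  fin_cases i <;> simp [mC, Matrix.mulVec, dotProduct, Fin.sum_univ_three] <;> ring

theorem mA_sq : mA * mA = 1 := by
  ext i j
  fin_cases i <;> fin_cases j <;> simp [mA, Matrix.mul_apply, Fin.sum_univ_three]
theorem mB_sq : mB * mB = 1 := by
  ext i j
  fin_cases i <;> fin_cases j <;> simp [mB, Matrix.mul_apply, Fin.sum_univ_three]
theorem mC_sq : mC * mC = 1 := by
  ext i j
  fin_cases i <;> fin_cases j <;> simp [mC, Matrix.mul_apply, Fin.sum_univ_three] <;> norm_num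
theorem mAB : mA * mB = mB * mA := by
  ext i j
  fin_cases i <;> fin_cases j <;> simp [mA, mB, Matrix.mul_apply, Fin.sum_univ_three]

theorem mA_det : mA.det = 1 := by
  simp [mA, Matrix.det_fin_three]
theorem mB_det : mB.det = -1 := by
  simp [mB, Matrix.det_fin_three]
theorem mC_det : mC.det = -1 := by
  simp [mC, Matrix.det_fin_three]

theorem mA_C {x : Fin 3 → ℝ} (h : x ∈ Cn) : mA *ᵥ x ∈ Cn := by
  have h2 := r_pos h
  obtain ⟨h0, h1⟩ := h
  rw [mA_vec]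
  refine ⟨h2, ?_⟩
  simp only [Matrix.cons_val_zero, Matrix.cons_val_one, Matrix.cons_val]
  nlinarith
theorem mB_C {x : Fin 3 → ℝ} (h : x ∈ Cn) : mB *ᵥ x ∈ Cn := by
  have h2 := r_pos h
  obtain ⟨h0, h1⟩ := h
  rw [mB_vec]
  refine ⟨h2, ?_⟩
  simp only [Matrix.cons_val_zero, Matrix.cons_val_one, Matrix.cons_val]
  nlinarith
theorem mC_C {x : Fin 3 → ℝ} (h : x ∈ Cn) : mC *ᵥ x ∈ Cn := by
  have h2 := r_pos h
  obtain ⟨h0, h1⟩ := h
  rw [mC_vec]
  refine ⟨?_, ?_⟩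
  · simp only [Matrix.cons_val_zero]
    by_contra hc
    push Not at hc
    nlinarith [sq_nonneg (x 1 - 2 * x 2), mul_nonneg h2.le (neg_nonneg.2 hc)]
  · simp only [Matrix.cons_val_zero, Matrix.cons_val_one, Matrix.cons_val]
    nlinarith

end Pool.Agent.V11209.Cox
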