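import Mathlib
import Pool.Agent.V11209.CoxCone

set_option autoImplicit false
open Matrix

namespace Pool.Agent.V11209.Cox

/-- the Coxeter matrix of type `(2, ∞, ∞)` -/
def Mx : CoxeterMatrix (Fin 3) where
  M := !![1, 2, 0; 2, 1, 0; 0, 0, 1]
  isSymm := by
    ext i j
    fin_cases i <;> fin_cases j <;> rfl
  diagonal i := by fin_cases i <;> rfl
  off_diagonal i j h := by
    fin_cases i <;> fin_cases j <;> first | exact absurd rfl h | (show (_ : ℕ) ≠ 1; decide)

abbrev W : Type := Mx.Group

def cs : CoxeterSystem Mx W := Mx.toCoxeterSystem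

def uA : (Matrix (Fin 3) (Fin 3) ℝ)ˣ := ⟨mA, mA, mA_sq, mA_sq⟩
def uB : (Matrix (Fin 3) (Fin 3) ℝ)ˣ := ⟨mB, mB, mB_sq, mB_sq⟩
def uC : (Matrix (Fin 3) (Fin 3) ℝ)ˣ := ⟨mC, mC, mC_sq, mC_sq⟩

def gens : Fin 3 → (Matrix (Fin 3) (Fin 3) ℝ)ˣ := ![uA, uB, uC]

theorem uA_sq : uA * uA = 1 := Units.ext mA_sq
theorem uB_sq : uB * uB = 1 := Units.ext mB_sq
theorem uC_sq : uC * uC = 1 := Units.ext mC_sq
theorem uAB : uA * uB = uB * uA := Units.ext mAB

theorem gens_lift : Mx.IsLiftable gens := by
  intro i j
  have hab : (uA * uB) ^ 2 = 1 := by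
    rw [pow_two, mul_assoc, ← mul_assoc uB uA uB, ← uAB, mul_assoc uA uB uB, uB_sq, mul_one, uA_sq]
  have hba : (uB * uA) ^ 2 = 1 := by rw [← uAB, hab]
  fin_cases i <;> fin_cases j
  · show (uA * uA) ^ 1 = 1
    rw [uA_sq, one_pow]
  · exact hab
  · exact pow_zero _
  · exact hba
  · show (uB * uB) ^ 1 = 1
    rw [uB_sq, one_pow]
  · exact pow_zero _
  · exact pow_zero _
  · exact pow_zero _
  · show (uC * uC) ^ 1 = 1
    rw [uC_sq, one_pow]

/-- the representation -/
noncomputable def rho : W →* (Matrix (Fin 3) (Fin 3) ℝ)ˣ := cs.lift ⟨gens, gens_lift⟩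

theorem rho_simple (i : Fin 3) : rho (cs.simple i) = gens i := cs.lift_apply_simple gens_lift i

/-- action on vectors -/
noncomputable def ac (w : W) (x : Fin 3 → ℝ) : Fin 3 → ℝ := (rho w).val *ᵥ x

theorem ac_one (x : Fin 3 → ℝ) : ac 1 x = x := by
  unfold ac
  rw [map_one, Units.val_one, Matrix.one_mulVec]

theorem ac_mul (v w : W) (x : Fin 3 → ℝ) : ac (v * w) x = ac v (ac w x) := by
  unfold ac
  rw [map_mul, Units.val_mul, Matrix.mulVec_mulVec]

noncomputable def a : W := cs.simple 0
noncomputable def b : W := cs.simple 1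
noncomputable def c : W := cs.simple 2

theorem ac_a (x : Fin 3 → ℝ) : ac a x = ![x 2, - x 1, x 0] := by
  unfold ac a
  rw [rho_simple]
  exact mA_vec x
theorem ac_b (x : Fin 3 → ℝ) : ac b x = ![x 2, x 1, x 0] := by
  unfold ac b
  rw [rho_simple]
  exact mB_vec x
theorem ac_c (x : Fin 3 → ℝ) : ac c x = ![x 0 - 4 * x 1 + 4 * x 2, - x 1 + 2 * x 2, x 2] := by
  unfold ac c
  rw [rho_simple]
  exact mC_vec x

theorem aa : a * a = 1 := cs.simple_mul_simple_self 0
theorem bb : b * b = 1 := cs.simple_mul_simple_self 1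
theorem cc : c * c = 1 := cs.simple_mul_simple_self 2
theorem ab_comm : a * b = b * a := by
  have h : (a * b) ^ 2 = 1 := cs.simple_mul_simple_pow 0 1
  have h1 : (a * b) * (a * b) = 1 := by rw [← pow_two]; exact h
  have h2 : (a * b)⁻¹ = a * b := inv_eq_of_mul_eq_one_left h1
  have ha : a⁻¹ = a := inv_eq_of_mul_eq_one_left aa
  have hb : b⁻¹ = b := inv_eq_of_mul_eq_one_left bb
  rw [← h2, _root_.mul_inv_rev, ha, hb]

theorem W_ind {p : W → Prop} (w : W) (one : p 1) (ha : ∀ w, p w → p (a * w))
    (hb : ∀ w, p w → p (b * w)) (hc : ∀ w, p w → p (c * w)) : p w := by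
  refine cs.simple_induction_left w one ?_
  intro w i hw
  fin_cases i
  · exact ha w hw
  · exact hb w hw
  · exact hc w hw

theorem ac_C (w : W) {x : Fin 3 → ℝ} (h : x ∈ Cn) : ac w x ∈ Cn := by
  induction w using W_ind with
  | one => rwa [ac_one]
  | ha w ih =>
    rw [ac_mul]
    have := mA_C ih
    rwa [mA_vec, ← ac_a] at this
  | hb w ih =>
    rw [ac_mul]
    have := mB_C ih
    rwa [mB_vec, ← ac_b] at this
  | hc w ih =>
    rw [ac_mul]
    have := mC_C ih
    rwa [mC_vec, ← ac_c] at this

theorem gen_ind {p : W → Prop} (w : W) (one : p 1)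
    (hs : ∀ w i, p w → p (cs.simple i * w)) : p w :=
  cs.simple_induction_left w one hs

theorem rho_det (w : W) : (rho w).val.det = 1 ∨ (rho w).val.det = -1 := by
  have h : ∀ i, (gens i).val.det = 1 ∨ (gens i).val.det = -1 := by
    intro i
    fin_cases i
    · exact Or.inl mA_det
    · exact Or.inr mB_det
    · exact Or.inr mC_det
  refine gen_ind (p := fun w => (rho w).val.det = 1 ∨ (rho w).val.det = -1) w ?_ ?_
  · left
    rw [map_one, Units.val_one, Matrix.det_one]
  · intro w i hw
    rw [map_mul, Units.val_mul, Matrix.det_mul, rho_simple]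
    rcases h i with h | h <;> rcases hw with hw | hw <;> rw [h, hw] <;> norm_num

/-- `ρ w` is an integral matrix -/
theorem rho_int (w : W) : ∃ A : Matrix (Fin 3) (Fin 3) ℤ, (rho w).val = A.map (Int.castRingHom ℝ) := by
  have h : ∀ i, ∃ A : Matrix (Fin 3) (Fin 3) ℤ, (gens i).val = A.map (Int.castRingHom ℝ) := by
    intro i
    fin_cases i
    · refine ⟨!![0, 0, 1; 0, -1, 0; 1, 0, 0], ?_⟩
      ext i j
      fin_cases i <;> fin_cases j <;> simp [gens, uA, mA]
    · refine ⟨!![0, 0, 1; 0, 1, 0; 1, 0, 0], ?_⟩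
      ext i j
      fin_cases i <;> fin_cases j <;> simp [gens, uB, mB]
    · refine ⟨!![1, -4, 4; 0, -1, 2; 0, 0, 1], ?_⟩
      ext i j
      fin_cases i <;> fin_cases j <;> simp [gens, uC, mC]
  refine gen_ind (p := fun w => ∃ A : Matrix (Fin 3) (Fin 3) ℤ,
    (rho w).val = A.map (Int.castRingHom ℝ)) w ?_ ?_
  · refine ⟨1, ?_⟩
    rw [map_one, Units.val_one]
    ext i j
    rw [Matrix.map_apply]
    by_cases hij : i = j
    · subst hij
      simp
    · simp [hij]
  · rintro w i ⟨A, hA⟩
    obtain ⟨A', hA'⟩ := h i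
    refine ⟨A' * A, ?_⟩
    rw [map_mul, Units.val_mul, rho_simple, hA, hA', Matrix.map_mul]

theorem rho_discrete (w : W)
    (h : ∀ i j, |(rho w).val i j - (1 : Matrix (Fin 3) (Fin 3) ℝ) i j| < 1) : rho w = 1 := by
  obtain ⟨A, hA⟩ := rho_int w
  apply Units.ext
  rw [Units.val_one, hA]
  ext i j
  have := h i j
  rw [hA, Matrix.map_apply] at this
  rw [Matrix.map_apply]
  by_cases hij : i = j
  · subst hij
    rw [Matrix.one_apply_eq] at this ⊢
    have h2 : |A i i - 1| < 1 := by
      have : |((A i i - 1 : ℤ) : ℝ)| < 1 := by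
        push_cast
        exact this
      exact_mod_cast this
    have h3 : A i i = 1 := by
      have := Int.abs_lt_one_iff.1 h2
      omega
    rw [h3]
    simp
  · rw [Matrix.one_apply_ne hij] at this ⊢
    rw [sub_zero] at this
    have h2 : |A i j| < 1 := by
      have : |((A i j : ℤ) : ℝ)| < 1 := this
      exact_mod_cast this
    have h3 : A i j = 0 := Int.abs_lt_one_iff.1 h2
    rw [h3]
    simp

/-! ### injectivity -/

inductive Red : Bool → W → Prop
  | one (s : Bool) : Red s 1
  | ka (w : W) : Red false w → Red true (a * w)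
  | kb (w : W) : Red false w → Red true (b * w)
  | kab (w : W) : Red false w → Red true (a * b * w)
  | kc (w : W) : Red true w → Red false (c * w)

theorem red_all (w : W) : Red true w ∨ Red false w := by
  induction w using W_ind with
  | one => exact Or.inl (Red.one _)
  | ha w ih =>
    rcases ih with h | h
    · cases h with
      | one =>
        exact Or.inl (Red.ka _ (Red.one _))
      | ka w h =>
        right
        rwa [← mul_assoc, aa, one_mul]
      | kb w h =>
        left
        rw [← mul_assoc]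
        exact Red.kab _ h
      | kab w h =>
        left
        rw [← mul_assoc, ← mul_assoc, aa, one_mul]
        exact Red.kb _ h
    · exact Or.inl (Red.ka _ h)
  | hb w ih =>
    rcases ih with h | h
    · cases h with
      | one =>
        exact Or.inl (Red.kb _ (Red.one _))
      | ka w h =>
        left
        rw [← mul_assoc, ← ab_comm]
        exact Red.kab _ h
      | kb w h =>
        right
        rwa [← mul_assoc, bb, one_mul]
      | kab w h =>
        left
        rw [ab_comm, ← mul_assoc, ← mul_assoc, bb, one_mul]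
        exact Red.ka _ h
    · exact Or.inl (Red.kb _ h)
  | hc w ih =>
    rcases ih with h | h
    · exact Or.inr (Red.kc _ h)
    · cases h with
      | one => exact Or.inr (Red.kc _ (Red.one _))
      | kc w h =>
        left
        rwa [← mul_assoc, cc, one_mul]

/-- ping-pong sets -/
def X1 : Set (Fin 3 → ℝ) := {x | x 2 < x 1}
def X0 : Set (Fin 3 → ℝ) := {x | x 1 < 0 ∨ x 0 < x 2}

def q0 : Fin 3 → ℝ := ![3, 1, 2]

theorem q0_C : q0 ∈ Cn := by
  simp only [mem_Cn, q0]
  simp
  norm_num

theorem red_pp (s : Bool) (w : W) (h : Red s w) :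
    (w = 1 ∨ (s = true ∧ ac w q0 ∈ X0) ∨ (s = false ∧ ac w q0 ∈ X1)) := by
  induction h with
  | one s => exact Or.inl rfl
  | ka w _ ih =>
    right; left
    refine ⟨rfl, ?_⟩
    rw [ac_mul, ac_a]
    have hC := ac_C w q0_C
    have h2 := r_pos hC
    rcases ih with rfl | ⟨h, _⟩ | ⟨_, h⟩
    · rw [ac_one]
      left
      simp [q0]
    · cases h
    · left
      have : ac w q0 2 < ac w q0 1 := h
      show - ac w q0 1 < 0
      linarith
  | kb w _ ih =>
    right; left
    refine ⟨rfl, ?_⟩
    rw [ac_mul, ac_b]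
    have hC := ac_C w q0_C
    have h2 := r_pos hC
    rcases ih with rfl | ⟨h, _⟩ | ⟨_, h⟩
    · rw [ac_one]
      right
      simp [q0]
      norm_num
    · cases h
    · right
      have : ac w q0 2 < ac w q0 1 := h
      show ac w q0 2 < ac w q0 0
      have h3 := hC.2
      by_contra hc
      push Not at hc
      nlinarith [mul_nonneg h2.le (sub_nonneg.2 hc)]
  | kab w _ ih =>
    right; left
    refine ⟨rfl, ?_⟩
    rw [ac_mul, ac_mul, ac_b, ac_a]
    have hC := ac_C w q0_C
    have h2 := r_pos hC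
    rcases ih with rfl | ⟨h, _⟩ | ⟨_, h⟩
    · rw [ac_one]
      left
      simp [q0]
    · cases h
    · left
      have : ac w q0 2 < ac w q0 1 := h
      show - ac w q0 1 < 0
      linarith
  | kc w _ ih =>
    right; right
    refine ⟨rfl, ?_⟩
    rw [ac_mul, ac_c]
    have hC := ac_C w q0_C
    have h2 := r_pos hC
    rcases ih with rfl | ⟨_, h⟩ | ⟨h, _⟩
    · rw [ac_one]
      simp [X1, q0]
      norm_num
    · show ac w q0 2 < - ac w q0 1 + 2 * ac w q0 2
      rcases h with h | h
      · linarith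
      · have h3 := hC.2
        have h4 := hC.1
        by_contra hc
        push Not at hc
        have h5 : ac w q0 2 ≤ ac w q0 1 := by linarith
        nlinarith [mul_nonneg h2.le (sub_nonneg.2 h5), mul_pos h2 (sub_pos.2 h)]
    · cases h

theorem rho_inj : Function.Injective rho := by
  rw [injective_iff_map_eq_one]
  intro w hw
  have e : ac w q0 = q0 := by
    unfold ac
    rw [hw, Units.val_one, Matrix.one_mulVec]
  rcases red_all w with h | h
  · rcases red_pp _ _ h with h | ⟨_, h⟩ | ⟨h, _⟩
    · exact h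
    · rw [e] at h
      exfalso
      simp [X0, q0] at h
      norm_num at h
    · cases h
  · rcases red_pp _ _ h with h | ⟨h, _⟩ | ⟨_, h⟩
    · exact h
    · cases h
    · rw [e] at h
      exfalso
      simp [X1, q0] at h

theorem not_refl (α v : Fin 3 → ℝ) (h : α ⬝ᵥ v = 2)
    (h2 : (rho (cs.simple 0)).val = 1 - Matrix.vecMulVec v α) : False := by
  rw [rho_simple] at h2
  have h3 := congrArg Matrix.trace h2
  have e1 : Matrix.trace (gens 0).val = -1 := by
    show Matrix.trace mA = -1
    simp [mA, Matrix.trace_fin_three]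
  rw [e1, Matrix.trace_sub, Matrix.trace_vecMulVec, Matrix.trace_one, dotProduct_comm, h] at h3
  norm_num at h3

end Pool.Agent.V11209.Cox
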