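import Mathlib
import Pool.Agent.V11209.CoxCone
import Pool.Agent.V11209.CoxGroup

set_option autoImplicit false
open Matrix

namespace Pool.Agent.V11209.Cox

/-- the fundamental domain -/
def Fd : Set (Fin 3 → ℝ) := {x | x ∈ Cn ∧ 0 ≤ x 1 ∧ x 1 ≤ x 2 ∧ x 2 ≤ x 0}

theorem ac_Cb (w : W) {x : Fin 3 → ℝ} (h : x ∈ Cb) : ac w x ∈ Cb := by
  rw [← closure_eq] at h ⊢
  have hc : Continuous (ac w) := by
    unfold ac
    fun_prop
  exact map_mem_closure hc h (fun y hy => ac_C w hy)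

/-- the trace -/
def tr (x : Fin 3 → ℝ) : ℝ := x 0 + x 2

theorem Cb_bound {x : Fin 3 → ℝ} (h : x ∈ Cb) (i : Fin 3) : |x i| ≤ tr x := by
  obtain ⟨h0, h2, h1⟩ := h
  unfold tr
  fin_cases i
  · show |x 0| ≤ _
    rw [abs_of_nonneg h0]
    linarith
  · show |x 1| ≤ _
    apply abs_le_of_sq_le_sq _ (by linarith)
    nlinarith
  · show |x 2| ≤ _
    rw [abs_of_nonneg h2]
    linarith

theorem tr_nonneg {x : Fin 3 → ℝ} (h : x ∈ Cb) : 0 ≤ tr x := by
  obtain ⟨h0, h2, h1⟩ := h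
  unfold tr
  linarith

theorem ac_sub (w : W) (x y : Fin 3 → ℝ) (t : ℝ) : ac w (x - t • y) = ac w x - t • ac w y := by
  unfold ac
  rw [Matrix.mulVec_sub, Matrix.mulVec_smul]

theorem lam_exists {x : Fin 3 → ℝ} (h : x ∈ Cn) : ∃ l : ℝ, 0 < l ∧ x - l • ![1, 0, 0] ∈ Cb ∧
    x - l • ![0, 0, 1] ∈ Cb ∧ x - l • ![1, 1, 1] ∈ Cb := by
  have h2 := r_pos h
  obtain ⟨h0, h1⟩ := h
  have hs : 0 < 2 * (x 0 + x 2) := by linarith
  have hD : x 0 * x 2 - x 1 ^ 2 ≤ x 0 * x 2 := by nlinarith [sq_nonneg (x 1)]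
  refine ⟨(x 0 * x 2 - x 1 ^ 2) / (2 * (x 0 + x 2)), div_pos h1 hs, ?_⟩
  set l := (x 0 * x 2 - x 1 ^ 2) / (2 * (x 0 + x 2)) with hl
  have hl0 : 0 < l := div_pos h1 hs
  have el : l * (2 * (x 0 + x 2)) = x 0 * x 2 - x 1 ^ 2 := div_mul_cancel₀ _ hs.ne'
  have l0 : l ≤ x 0 / 2 := by
    rw [hl, div_le_div_iff₀ hs (by norm_num)]
    nlinarith
  have l2 : l ≤ x 2 / 2 := by
    rw [hl, div_le_div_iff₀ hs (by norm_num)]
    nlinarith
  refine ⟨?_, ?_, ?_⟩
  · refine ⟨?_, ?_, ?_⟩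
    · simp
      linarith
    · simp
      linarith
    · simp
      nlinarith [mul_pos hl0 h0, mul_pos hl0 h2]
  · refine ⟨?_, ?_, ?_⟩
    · simp
      linarith
    · simp
      linarith
    · simp
      nlinarith [mul_pos hl0 h0, mul_pos hl0 h2]
  · have hq : x 0 + x 2 + 2 * x 1 ≥ 0 := by
      by_contra hc
      push Not at hc
      nlinarith [sq_nonneg (x 0 - x 2), mul_pos h0 h2]
    refine ⟨?_, ?_, ?_⟩
    · simp
      linarith
    · simp
      linarith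
    · simp
      nlinarith [mul_nonneg hl0.le hq]

/-- `ρ w` has bounded entries when the trace of `ρ w x` is bounded -/
theorem entries_bdd {x : Fin 3 → ℝ} (h : x ∈ Cn) : ∃ K : ℝ, ∀ w : W, tr (ac w x) ≤ tr x →
    ∀ i j, |(rho w).val i j| ≤ K := by
  obtain ⟨l, hl, h1, h2, h3⟩ := lam_exists h
  refine ⟨3 * (tr x / l), ?_⟩
  intro w hw i j
  have key : ∀ e : Fin 3 → ℝ, e ∈ Cb → x - l • e ∈ Cb → ∀ i, |ac w e i| ≤ tr x / l := by
    intro e he hxe i
    have a1 := ac_Cb w hxe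
    rw [ac_sub] at a1
    have a2 := tr_nonneg a1
    have a3 : tr (ac w x - l • ac w e) = tr (ac w x) - l * tr (ac w e) := by
      unfold tr
      simp
      ring
    rw [a3] at a2
    have a4 := Cb_bound (ac_Cb w he) i
    have a5 : tr (ac w e) ≤ tr x / l := by
      rw [le_div_iff₀ hl]
      linarith
    exact a4.trans a5
  have k1 := key ![1, 0, 0] (by simp [mem_Cb]) h1 i
  have k2 := key ![0, 0, 1] (by simp [mem_Cb]) h2 i
  have k3 := key ![1, 1, 1] (by simp [mem_Cb]) h3 i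
  have e1 : ac w ![1, 0, 0] i = (rho w).val i 0 := by
    simp [ac, Matrix.mulVec, dotProduct, Fin.sum_univ_three]
  have e2 : ac w ![0, 0, 1] i = (rho w).val i 2 := by
    simp [ac, Matrix.mulVec, dotProduct, Fin.sum_univ_three]
  have e3 : ac w ![1, 1, 1] i = (rho w).val i 0 + (rho w).val i 1 + (rho w).val i 2 := by
    simp [ac, Matrix.mulVec, dotProduct, Fin.sum_univ_three]
  rw [e1] at k1
  rw [e2] at k2
  rw [e3] at k3
  have hpos : 0 ≤ tr x / l := (abs_nonneg _).trans k1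
  fin_cases j
  · show |(rho w).val i 0| ≤ _
    linarith
  · show |(rho w).val i 1| ≤ _
    rw [abs_le] at k1 k2 k3 ⊢
    constructor <;> linarith [k1.1, k1.2, k2.1, k2.2, k3.1, k3.2]
  · show |(rho w).val i 2| ≤ _
    linarith

theorem finite_bdd (K : ℝ) : Set.Finite {g : Matrix (Fin 3) (Fin 3) ℝ |
    (∃ A : Matrix (Fin 3) (Fin 3) ℤ, g = A.map (Int.castRingHom ℝ)) ∧ ∀ i j, |g i j| ≤ K} := by
  have hf : Set.Finite {A : Matrix (Fin 3) (Fin 3) ℤ | ∀ i j, A i j ∈ Set.Icc (-⌈K⌉) ⌈K⌉} := by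
    have h1 : Set.Finite (Set.pi Set.univ (fun _ : Fin 3 => Set.pi Set.univ
        (fun _ : Fin 3 => Set.Icc (-⌈K⌉) ⌈K⌉))) :=
      Set.Finite.pi' (fun _ => Set.Finite.pi' fun _ => Set.finite_Icc _ _)
        |>.subset (by
          intro f hf i j
          exact hf i (Set.mem_univ _) j (Set.mem_univ _))
    apply h1.subset
    intro A hA i _ j _
    exact hA i j
  apply (hf.image fun A => A.map (Int.castRingHom ℝ)).subset
  rintro g ⟨⟨A, rfl⟩, hg⟩
  refine ⟨A, ?_, rfl⟩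
  intro i j
  have h := hg i j
  rw [Matrix.map_apply] at h
  have h2 : |((A i j : ℤ) : ℝ)| ≤ K := h
  rw [abs_le] at h2
  constructor
  · have : (-(⌈K⌉ : ℤ) : ℝ) ≤ (A i j : ℝ) := by
      have := Int.le_ceil K
      linarith [h2.1]
    exact_mod_cast this
  · have : (A i j : ℝ) ≤ (⌈K⌉ : ℝ) := h2.2.trans (Int.le_ceil K)
    exact_mod_cast this

theorem exists_min {x : Fin 3 → ℝ} (h : x ∈ Cn) : ∃ w : W, ∀ v : W, tr (ac w x) ≤ tr (ac v x) := by
  obtain ⟨K, hK⟩ := entries_bdd h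
  let E : Set (Matrix (Fin 3) (Fin 3) ℝ) := {g | ∃ w : W, (rho w).val = g ∧ tr (ac w x) ≤ tr x}
  have hE : E.Finite := by
    apply (finite_bdd K).subset
    rintro g ⟨w, rfl, hw⟩
    exact ⟨rho_int w, hK w hw⟩
  have hne : E.Nonempty := ⟨(rho 1).val, 1, rfl, by rw [ac_one]⟩
  obtain ⟨g, ⟨w, rfl, hw⟩, hmin⟩ := Set.exists_min_image E (fun g => tr (g *ᵥ x)) hE hne
  refine ⟨w, ?_⟩
  intro v
  by_cases hv : tr (ac v x) ≤ tr x
  · exact hmin _ ⟨v, rfl, hv⟩
  · push Not at hv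
    exact hw.trans hv.le

theorem covers {x : Fin 3 → ℝ} (h : x ∈ Cn) : ∃ w : W, ac w x ∈ Fd := by
  obtain ⟨w, hw⟩ := exists_min h
  -- make `q ≥ 0`
  have step1 : ∃ w : W, (∀ v : W, tr (ac w x) ≤ tr (ac v x)) ∧ 0 ≤ ac w x 1 := by
    by_cases hq : 0 ≤ ac w x 1
    · exact ⟨w, hw, hq⟩
    · refine ⟨a * w, ?_, ?_⟩
      · intro v
        rw [ac_mul, ac_a]
        have := hw v
        unfold tr at this ⊢
        simp only [Matrix.cons_val_zero, Matrix.cons_val]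
        linarith
      · rw [ac_mul, ac_a]
        push Not at hq
        show 0 ≤ - ac w x 1
        linarith
  obtain ⟨w, hw, hq⟩ := step1
  have step2 : ∃ w : W, (∀ v : W, tr (ac w x) ≤ tr (ac v x)) ∧ 0 ≤ ac w x 1 ∧
      ac w x 2 ≤ ac w x 0 := by
    by_cases hp : ac w x 2 ≤ ac w x 0
    · exact ⟨w, hw, hq, hp⟩
    · refine ⟨b * w, ?_, ?_, ?_⟩
      · intro v
        rw [ac_mul, ac_b]
        have := hw v
        unfold tr at this ⊢
        simp only [Matrix.cons_val_zero, Matrix.cons_val]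
        linarith
      · rw [ac_mul, ac_b]
        exact hq
      · rw [ac_mul, ac_b]
        push Not at hp
        exact hp.le
  obtain ⟨w, hw, hq, hp⟩ := step2
  refine ⟨w, ac_C w h, hq, ?_, hp⟩
  have := hw (c * w)
  rw [ac_mul, ac_c] at this
  unfold tr at this
  simp only [Matrix.cons_val_zero, Matrix.cons_val] at this
  linarith

end Pool.Agent.V11209.Cox
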