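import Mathlib
import Pool.Agent.V11209.CoxCone
import Pool.Agent.V11209.CoxGroup
import Pool.Agent.V11209.CoxCover

set_option autoImplicit false
open Matrix

namespace Pool.Agent.V11209.Cox

/-- the Hilbert metric of the problem -/
noncomputable def dd (x y : Fin 3 → ℝ) : ℝ :=
  (1/2) * Real.log (sInf {t : ℝ | t • y - x ∈ closure Cn} * sInf {t : ℝ | t • x - y ∈ closure Cn})

/-- the diameter of the problem -/
noncomputable def dm (U : Set (Fin 3 → ℝ)) : ENNReal := ⨆ x ∈ U, ⨆ y ∈ U, ENNReal.ofReal (dd x y)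

theorem sInf_bd {x y : Fin 3 → ℝ} (hx : x ∈ Cn) (hy : y ∈ Cn) {t : ℝ} (h : t • y - x ∈ Cb) :
    0 ≤ sInf {t : ℝ | t • y - x ∈ closure Cn} ∧ sInf {t : ℝ | t • y - x ∈ closure Cn} ≤ t := by
  rw [closure_eq]
  have hlb : ∀ s ∈ {t : ℝ | t • y - x ∈ Cb}, 0 ≤ s := by
    rintro s ⟨h0, _⟩
    simp only [Pi.sub_apply, Pi.smul_apply, smul_eq_mul] at h0
    by_contra hc
    push Not at hc
    have := hx.1
    nlinarith [mul_neg_of_neg_of_pos hc hy.1]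
  refine ⟨Real.sInf_nonneg hlb, csInf_le ⟨0, hlb⟩ h⟩

theorem dd_le {x y : Fin 3 → ℝ} (hx : x ∈ Cn) (hy : y ∈ Cn) {t s τ : ℝ} (h : t • y - x ∈ Cb)
    (h' : s • x - y ∈ Cb) (ht : t * s = τ ^ 2) (hτ : 1 ≤ τ) : dd x y ≤ τ - 1 := by
  obtain ⟨a1, a2⟩ := sInf_bd hx hy h
  obtain ⟨b1, b2⟩ := sInf_bd hy hx h'
  unfold dd
  set A := sInf {t : ℝ | t • y - x ∈ closure Cn}
  set B := sInf {t : ℝ | t • x - y ∈ closure Cn}
  have hAB : A * B ≤ τ ^ 2 := by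
    rw [← ht]
    exact mul_le_mul a2 b2 b1 (a1.trans a2)
  have hlog : Real.log (A * B) ≤ 2 * (τ - 1) := by
    rcases (mul_nonneg a1 b1).eq_or_lt with h0 | h0
    · rw [← h0, Real.log_zero]
      linarith
    · have h1 := Real.log_le_log h0 hAB
      rw [Real.log_pow] at h1
      have h2 := Real.log_le_sub_one_of_pos (lt_of_lt_of_le one_pos hτ)
      push_cast at h1
      linarith
  linarith

/-- the square of the height times `r ^ 2` -/
def Dc (x : Fin 3 → ℝ) : ℝ := x 0 * x 2 - x 1 ^ 2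

theorem key_ineq {e v1 v2 u1 u2 : ℝ} (he : 0 < e) (he1 : e ≤ 1) (hv1 : 0 < v1) (hv2 : 0 < v2)
    (h : v1 ≤ v2 * (1 + e)) (hu : (u1 - u2) ^ 2 ≤ v2 ^ 2 * e ^ 2) :
    0 ≤ (1 + 5 * e - 1) * ((1 + 5 * e) * v2 ^ 2 - v1 ^ 2) - (1 + 5 * e) * (u1 - u2) ^ 2 := by
  have h1 : v1 ^ 2 ≤ v2 ^ 2 * (1 + e) ^ 2 := by
    have := pow_le_pow_left₀ hv1.le h 2
    rwa [mul_pow] at this
  have h2 : 5 * e * v1 ^ 2 ≤ 5 * e * (v2 ^ 2 * (1 + e) ^ 2) :=
    mul_le_mul_of_nonneg_left h1 (by positivity)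
  have h3 : (1 + 5 * e) * (u1 - u2) ^ 2 ≤ (1 + 5 * e) * (v2 ^ 2 * e ^ 2) :=
    mul_le_mul_of_nonneg_left hu (by positivity)
  have h4 : 0 ≤ v2 ^ 2 * e ^ 2 * (14 - 10 * e) := by
    apply mul_nonneg (by positivity)
    linarith
  nlinarith

/-- `x` and `y` are close: `τ (x₂/y₂) y - x` is positive semidefinite -/
theorem close_mem {x y : Fin 3 → ℝ} (hx : x ∈ Cn) (hy : y ∈ Cn) {e : ℝ} (he : 0 < e) (he1 : e ≤ 1)
    (hv : Real.sqrt (Dc x) / x 2 ≤ Real.sqrt (Dc y) / y 2 * (1 + e))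
    (hu : (x 1 / x 2 - y 1 / y 2) ^ 2 ≤ (Real.sqrt (Dc y) / y 2) ^ 2 * e ^ 2) :
    ((1 + 5 * e) * (x 2 / y 2)) • y - x ∈ Cb := by
  have hx2 := r_pos hx
  have hy2 := r_pos hy
  have hxD : 0 < Dc x := hx.2
  have hyD : 0 < Dc y := hy.2
  set v1 := Real.sqrt (Dc x) / x 2 with hv1
  set v2 := Real.sqrt (Dc y) / y 2 with hv2
  set u1 := x 1 / x 2 with hu1
  set u2 := y 1 / y 2 with hu2
  have v1p : 0 < v1 := div_pos (Real.sqrt_pos.2 hxD) hx2
  have v2p : 0 < v2 := div_pos (Real.sqrt_pos.2 hyD) hy2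
  have ex1 : x 1 = x 2 * u1 := by rw [hu1]; field_simp
  have ey1 : y 1 = y 2 * u2 := by rw [hu2]; field_simp
  have ex0 : x 0 = x 2 * (u1 ^ 2 + v1 ^ 2) := by
    have : v1 ^ 2 = Dc x / x 2 ^ 2 := by
      rw [hv1, div_pow, Real.sq_sqrt hxD.le]
    rw [this, hu1]
    unfold Dc
    field_simp
    ring
  have ey0 : y 0 = y 2 * (u2 ^ 2 + v2 ^ 2) := by
    have : v2 ^ 2 = Dc y / y 2 ^ 2 := by
      rw [hv2, div_pow, Real.sq_sqrt hyD.le]
    rw [this, hu2]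
    unfold Dc
    field_simp
    ring
  have key := key_ineq he he1 v1p v2p hv hu
  have c0 : (((1 + 5 * e) * (x 2 / y 2)) • y - x) 0 =
      x 2 * ((1 + 5 * e) * (u2 ^ 2 + v2 ^ 2) - (u1 ^ 2 + v1 ^ 2)) := by
    simp only [Pi.sub_apply, Pi.smul_apply, smul_eq_mul]
    rw [ex0, ey0]
    field_simp
  have c1 : (((1 + 5 * e) * (x 2 / y 2)) • y - x) 1 = x 2 * ((1 + 5 * e) * u2 - u1) := by
    simp only [Pi.sub_apply, Pi.smul_apply, smul_eq_mul]
    rw [ex1, ey1]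
    field_simp
  have c2 : (((1 + 5 * e) * (x 2 / y 2)) • y - x) 2 = x 2 * (5 * e) := by
    simp only [Pi.sub_apply, Pi.smul_apply, smul_eq_mul]
    field_simp
    ring
  have hdet : 0 ≤ (((1 + 5 * e) * (x 2 / y 2)) • y - x) 0 * (((1 + 5 * e) * (x 2 / y 2)) • y - x) 2
      - (((1 + 5 * e) * (x 2 / y 2)) • y - x) 1 ^ 2 := by
    rw [c0, c1, c2]
    have : x 2 * ((1 + 5 * e) * (u2 ^ 2 + v2 ^ 2) - (u1 ^ 2 + v1 ^ 2)) * (x 2 * (5 * e)) -
        (x 2 * ((1 + 5 * e) * u2 - u1)) ^ 2 = x 2 ^ 2 *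
        ((1 + 5 * e - 1) * ((1 + 5 * e) * v2 ^ 2 - v1 ^ 2) - (1 + 5 * e) * (u1 - u2) ^ 2) := by ring
    rw [this]
    exact mul_nonneg (by positivity) key
  refine ⟨?_, ?_, hdet⟩
  · have h2 : 0 < (((1 + 5 * e) * (x 2 / y 2)) • y - x) 2 := by
      rw [c2]
      positivity
    by_contra hc
    push Not at hc
    nlinarith [mul_neg_of_neg_of_pos hc h2, sq_nonneg ((((1 + 5 * e) * (x 2 / y 2)) • y - x) 1)]
  · rw [c2]
    positivity

/-- the cells -/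
def cell (N j i : ℕ) : Set (Fin 3 → ℝ) :=
  {x | x ∈ Cn ∧ (i : ℝ) / N ≤ x 1 / x 2 ∧ x 1 / x 2 ≤ (i + 1) / N ∧
    (j : ℝ) / N ≤ Real.sqrt (Dc x) / x 2 ∧ Real.sqrt (Dc x) / x 2 ≤ (j + 1) / N}

theorem cell_dd {N j i : ℕ} (hN : 1 ≤ N) (hj : 1 ≤ j) {x y : Fin 3 → ℝ} (hx : x ∈ cell N j i)
    (hy : y ∈ cell N j i) : dd x y ≤ 5 / j := by
  have hN' : (0 : ℝ) < N := by exact_mod_cast hN
  have hj' : (1 : ℝ) ≤ j := by exact_mod_cast hj
  have hj0 : (0 : ℝ) < j := by linarith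
  obtain ⟨xC, xi, xi', xj, xj'⟩ := hx
  obtain ⟨yC, yi, yi', yj, yj'⟩ := hy
  have he : (0 : ℝ) < 1 / j := by positivity
  have he1 : (1 : ℝ) / j ≤ 1 := by
    rw [div_le_one hj0]
    exact hj'
  have key : ∀ v1 v2 : ℝ, (j : ℝ) / N ≤ v2 → v1 ≤ (j + 1) / N → v1 ≤ v2 * (1 + 1 / j) := by
    intro v1 v2 h1 h2
    calc v1 ≤ (j + 1) / N := h2
      _ = j / N * (1 + 1 / j) := by field_simp
      _ ≤ v2 * (1 + 1 / j) := mul_le_mul_of_nonneg_right h1 (by positivity)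
  have key2 : ∀ u1 u2 v : ℝ, (i : ℝ) / N ≤ u1 → u1 ≤ (i + 1) / N → (i : ℝ) / N ≤ u2 →
      u2 ≤ (i + 1) / N → (j : ℝ) / N ≤ v → (u1 - u2) ^ 2 ≤ v ^ 2 * (1 / j) ^ 2 := by
    intro u1 u2 v h1 h2 h3 h4 h5
    have h6 : |u1 - u2| ≤ 1 / N := by
      rw [abs_le]
      have : ((i : ℝ) + 1) / N = i / N + 1 / N := by ring
      rw [this] at h2 h4
      constructor <;> linarith
    have h7 : (1 : ℝ) / N ≤ v * (1 / j) := by
      calc (1 : ℝ) / N = j / N * (1 / j) := by field_simp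
        _ ≤ v * (1 / j) := mul_le_mul_of_nonneg_right h5 (by positivity)
    have h8 : |u1 - u2| ≤ v * (1 / j) := h6.trans h7
    have := pow_le_pow_left₀ (abs_nonneg _) h8 2
    rwa [sq_abs, mul_pow] at this
  have m1 := close_mem xC yC he he1 (key _ _ yj xj') (key2 _ _ _ xi xi' yi yi' yj)
  have m2 := close_mem yC xC he he1 (key _ _ xj yj') (key2 _ _ _ yi yi' xi xi' xj)
  have hx2 := r_pos xC
  have hy2 := r_pos yC
  have := dd_le xC yC m1 m2 (τ := 1 + 5 * (1 / j)) (by field_simp) (by linarith)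
  calc dd x y ≤ 1 + 5 * (1 / (j : ℝ)) - 1 := this
    _ = 5 / j := by ring

/-- the symmetry exchanging the two cusps -/
def G (x : Fin 3 → ℝ) : Fin 3 → ℝ := ![x 0 + 2 * x 1 + x 2, x 0 - x 2, x 0 - 2 * x 1 + x 2]

theorem G0 (x : Fin 3 → ℝ) : G x 0 = x 0 + 2 * x 1 + x 2 := rfl
theorem G1 (x : Fin 3 → ℝ) : G x 1 = x 0 - x 2 := rfl
theorem G2 (x : Fin 3 → ℝ) : G x 2 = x 0 - 2 * x 1 + x 2 := rfl

theorem G_Cn {x : Fin 3 → ℝ} (h : x ∈ Cn) : G x ∈ Cn := by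
  have h2 := r_pos h
  obtain ⟨h0, h1⟩ := h
  refine ⟨?_, ?_⟩
  · rw [G0]
    by_contra hc
    push Not at hc
    nlinarith [sq_nonneg (x 0 - x 2), mul_pos h0 h2]
  · rw [G0, G1, G2]
    nlinarith

theorem G_Cb {x : Fin 3 → ℝ} : G x ∈ Cb ↔ x ∈ Cb := by
  have fwd : ∀ x : Fin 3 → ℝ, x ∈ Cb → G x ∈ Cb := by
    rintro x ⟨h0, h2, h1⟩
    have hq : (x 1) ^ 2 ≤ ((x 0 + x 2) / 2) ^ 2 := by nlinarith [sq_nonneg (x 0 - x 2)]
    have hq2 := abs_le_of_sq_le_sq hq (by linarith)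
    rw [abs_le] at hq2
    refine ⟨?_, ?_, ?_⟩
    · rw [G0]
      linarith [hq2.1]
    · rw [G2]
      linarith [hq2.2]
    · rw [G0, G1, G2]
      nlinarith
  refine ⟨?_, fwd x⟩
  intro h
  obtain ⟨h0, h2, h1⟩ := fwd _ h
  simp only [G0, G1, G2] at h0 h1 h2
  refine ⟨?_, ?_, ?_⟩ <;> nlinarith

theorem G_lin (x y : Fin 3 → ℝ) (t : ℝ) : G (t • y - x) = t • G y - G x := by
  ext i
  fin_cases i
  · show G (t • y - x) 0 = t * G y 0 - G x 0
    rw [G0, G0, G0]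
    simp only [Pi.sub_apply, Pi.smul_apply, smul_eq_mul]
    ring
  · show G (t • y - x) 1 = t * G y 1 - G x 1
    rw [G1, G1, G1]
    simp only [Pi.sub_apply, Pi.smul_apply, smul_eq_mul]
    ring
  · show G (t • y - x) 2 = t * G y 2 - G x 2
    rw [G2, G2, G2]
    simp only [Pi.sub_apply, Pi.smul_apply, smul_eq_mul]
    ring

theorem dd_G (x y : Fin 3 → ℝ) : dd (G x) (G y) = dd x y := by
  unfold dd
  rw [closure_eq]
  have : ∀ x y : Fin 3 → ℝ, {t : ℝ | t • G y - G x ∈ Cb} = {t : ℝ | t • y - x ∈ Cb} := by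
    intro x y
    ext t
    show t • G y - G x ∈ Cb ↔ _
    rw [← G_lin, G_Cb]
    rfl
  rw [this, this]

/-- all cells -/
def cells (N j l : ℕ) : Set (Fin 3 → ℝ) :=
  if l ≤ N then cell N (N + j) l
  else if l ≤ 2 * N + 1 then {x | x ∈ Cn ∧ G x ∈ cell N (N + j) (l - (N + 1))}
  else ∅

theorem cells_sub (N j l : ℕ) : cells N j l ⊆ Cn := by
  unfold cells
  split_ifs
  · intro x hx
    exact hx.1
  · intro x hx
    exact hx.1
  · exact Set.empty_subset _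

theorem cells_dm {N j l : ℕ} (hN : 1 ≤ N) : dm (cells N j l) ≤ ENNReal.ofReal (5 / (N + j : ℕ)) := by
  unfold dm
  apply iSup₂_le
  intro x hx
  apply iSup₂_le
  intro y hy
  apply ENNReal.ofReal_le_ofReal
  unfold cells at hx hy
  split_ifs at hx hy with h1 h2
  · exact cell_dd hN (by omega) hx hy
  · rw [← dd_G]
    exact cell_dd hN (by omega) hx.2 hy.2
  · exact absurd hx (Set.notMem_empty _)

theorem cells_zero {N j l : ℕ} (h : 2 * N + 2 ≤ l) : dm (cells N j l) = 0 := by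
  unfold cells
  rw [if_neg (by omega), if_neg (by omega)]
  simp [dm]

theorem cells_cover {N : ℕ} (hN : 1 ≤ N) {x : Fin 3 → ℝ} (hx : x ∈ Fd) : ∃ j l, x ∈ cells N j l := by
  have hN' : (0 : ℝ) < N := by exact_mod_cast hN
  have key : ∀ y : Fin 3 → ℝ, y ∈ Cn → 0 ≤ y 1 → y 1 ≤ y 2 → y 2 ^ 2 ≤ Dc y →
      ∃ j l, l ≤ N ∧ y ∈ cell N (N + j) l := by
    intro y hy h0 h1 h2
    have hy2 := r_pos hy
    have hu0 : 0 ≤ y 1 / y 2 := by positivity
    have hu1 : y 1 / y 2 ≤ 1 := by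
      rw [div_le_one hy2]
      exact h1
    have hv1 : 1 ≤ Real.sqrt (Dc y) / y 2 := by
      rw [le_div_iff₀ hy2, one_mul]
      exact Real.le_sqrt_of_sq_le h2
    obtain ⟨j, hj⟩ : ∃ j, ⌊(N : ℝ) * (Real.sqrt (Dc y) / y 2)⌋₊ = N + j := by
      apply Nat.exists_eq_add_of_le
      apply Nat.le_floor
      nlinarith
    refine ⟨j, ⌊(N : ℝ) * (y 1 / y 2)⌋₊, ?_, hy, ?_, ?_, ?_, ?_⟩
    · apply Nat.floor_le_of_le
      nlinarith
    · rw [div_le_iff₀ hN']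
      have := Nat.floor_le (show 0 ≤ (N : ℝ) * (y 1 / y 2) by positivity)
      linarith
    · rw [le_div_iff₀ hN']
      have := Nat.lt_floor_add_one ((N : ℝ) * (y 1 / y 2))
      linarith
    · rw [← hj, div_le_iff₀ hN']
      have := Nat.floor_le (show 0 ≤ (N : ℝ) * (Real.sqrt (Dc y) / y 2) by positivity)
      linarith
    · rw [← hj, le_div_iff₀ hN']
      have := Nat.lt_floor_add_one ((N : ℝ) * (Real.sqrt (Dc y) / y 2))
      linarith
  obtain ⟨hC, h1, h2, h3⟩ := hx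
  have hx2 := r_pos hC
  by_cases hD : x 2 ^ 2 ≤ Dc x
  · obtain ⟨j, l, hl, hm⟩ := key x hC h1 h2 hD
    refine ⟨j, l, ?_⟩
    unfold cells
    rw [if_pos hl]
    exact hm
  · push Not at hD
    have hDp : 0 < Dc x := hC.2
    have hg : G x 2 ^ 2 ≤ Dc (G x) := by
      unfold Dc at hD hDp ⊢
      rw [G0, G1, G2]
      have e1 : (x 0 + 2 * x 1 + x 2) * (x 0 - 2 * x 1 + x 2) - (x 0 - x 2) ^ 2 =
        4 * (x 0 * x 2 - x 1 ^ 2) := by ring
      rw [e1]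
      -- `r (p - 2 q + r) = D + (r - q)^2 ≤ 2 D`
      have e2 : x 2 * (x 0 - 2 * x 1 + x 2) = (x 0 * x 2 - x 1 ^ 2) + (x 2 - x 1) ^ 2 := by ring
      have e3 : (x 2 - x 1) ^ 2 ≤ x 0 * x 2 - x 1 ^ 2 := by nlinarith
      have e4 : x 2 * (x 0 - 2 * x 1 + x 2) ≤ 2 * (x 0 * x 2 - x 1 ^ 2) := by linarith
      have e5 : 0 ≤ x 2 * (x 0 - 2 * x 1 + x 2) := by
        rw [e2]
        positivity
      have e6 : (x 2 * (x 0 - 2 * x 1 + x 2)) ^ 2 ≤ (2 * (x 0 * x 2 - x 1 ^ 2)) ^ 2 :=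
        pow_le_pow_left₀ e5 e4 2
      have e7 : x 2 ^ 2 * (x 0 - 2 * x 1 + x 2) ^ 2 ≤ x 2 ^ 2 * (4 * (x 0 * x 2 - x 1 ^ 2)) := by
        nlinarith
      exact le_of_mul_le_mul_left e7 (by positivity)
    obtain ⟨j, l, hl, hm⟩ := key (G x) (G_Cn hC) (by rw [G1]; linarith)
      (by rw [G1, G2]; linarith) hg
    refine ⟨j, l + (N + 1), ?_⟩
    unfold cells
    rw [if_neg (by omega), if_pos (by omega), Nat.add_sub_cancel]
    exact ⟨hC, hm⟩

theorem sum_bound {N : ℕ} (hN : 1 ≤ N) (n : ℕ) :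
    ∑ j ∈ Finset.range n, (2 * N + 2 : ℝ) * (5 / ((N + j : ℕ) : ℝ)) ^ 2 ≤ 200 := by
  have hN' : (0 : ℝ) < N := by exact_mod_cast hN
  have hN1 : (1 : ℝ) ≤ N := by exact_mod_cast hN
  have key : ∀ n : ℕ, ∑ j ∈ Finset.range n, (1 / ((N + j : ℕ) : ℝ)) ^ 2 ≤
      2 / (N : ℝ) - 2 / ((N + n : ℕ) : ℝ) := by
    intro n
    induction n with
    | zero => simp
    | succ n ih =>
      rw [Finset.sum_range_succ]
      have hp : (0 : ℝ) < ((N + n : ℕ) : ℝ) := by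
        have : 0 < N + n := by omega
        exact_mod_cast this
      have hp1 : (1 : ℝ) ≤ ((N + n : ℕ) : ℝ) := by
        have : 1 ≤ N + n := by omega
        exact_mod_cast this
      have e : (((N + (n + 1) : ℕ) : ℝ)) = ((N + n : ℕ) : ℝ) + 1 := by
        push_cast
        ring
      rw [e]
      set z := ((N + n : ℕ) : ℝ)
      have : (1 / z) ^ 2 ≤ 2 / z - 2 / (z + 1) := by
        rw [div_pow, one_pow, div_sub_div _ _ hp.ne' (by linarith), div_le_div_iff₀ (by positivity)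
          (by positivity)]
        nlinarith
      linarith
  have h1 : ∑ j ∈ Finset.range n, (2 * N + 2 : ℝ) * (5 / ((N + j : ℕ) : ℝ)) ^ 2 =
      (2 * N + 2 : ℝ) * 25 * ∑ j ∈ Finset.range n, (1 / ((N + j : ℕ) : ℝ)) ^ 2 := by
    rw [Finset.mul_sum]
    apply Finset.sum_congr rfl
    intro j _
    ring
  rw [h1]
  have h2 := key n
  have h3 : (0 : ℝ) ≤ 2 / ((N + n : ℕ) : ℝ) := by positivity
  calc (2 * N + 2 : ℝ) * 25 * ∑ j ∈ Finset.range n, (1 / ((N + j : ℕ) : ℝ)) ^ 2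
      ≤ (2 * N + 2 : ℝ) * 25 * (2 / N) := by
        apply mul_le_mul_of_nonneg_left _ (by positivity)
        linarith
    _ ≤ 200 := by
        rw [mul_div_assoc', div_le_iff₀ hN']
        nlinarith

theorem haus (r : ℝ) (hr : 0 < r) : ∃ U : ℕ → Set (Fin 3 → ℝ), Fd ⊆ ⋃ i, U i ∧
    (∀ i, U i ⊆ Cn ∧ dm (U i) ≤ ENNReal.ofReal r) ∧ ∑' i, dm (U i) ^ 2 ≤ ENNReal.ofReal 200 := by
  obtain ⟨N, hN⟩ := exists_nat_ge (5 / r + 1)
  have h5 : 0 < 5 / r := by positivity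
  have hN1 : 1 ≤ N := by
    have : (1 : ℝ) ≤ N := by linarith
    exact_mod_cast this
  have hN' : (0 : ℝ) < N := by exact_mod_cast hN1
  have hNr : 5 / (N : ℝ) ≤ r := by
    rw [div_le_iff₀ hN', ← div_le_iff₀' hr]
    linarith
  refine ⟨fun n => cells N (Nat.unpair n).1 (Nat.unpair n).2, ?_, ?_, ?_⟩
  · intro x hx
    obtain ⟨j, l, h⟩ := cells_cover hN1 hx
    rw [Set.mem_iUnion]
    refine ⟨Nat.pair j l, ?_⟩
    rw [Nat.unpair_pair]
    exact h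
  · intro n
    refine ⟨cells_sub _ _ _, (cells_dm hN1).trans (ENNReal.ofReal_le_ofReal ?_)⟩
    apply le_trans _ hNr
    apply div_le_div_of_nonneg_left (by norm_num) hN'
    push_cast
    have : (0 : ℝ) ≤ ((Nat.unpair n).1 : ℝ) := by positivity
    linarith
  · have e1 : ∑' n : ℕ, dm (cells N (Nat.unpair n).1 (Nat.unpair n).2) ^ 2 =
        ∑' p : ℕ × ℕ, dm (cells N p.1 p.2) ^ 2 :=
      Nat.pairEquiv.symm.tsum_eq (fun p : ℕ × ℕ => dm (cells N p.1 p.2) ^ 2)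
    rw [e1, ENNReal.tsum_prod (f := fun j l => dm (cells N j l) ^ 2)]
    have e2 : ∀ j, ∑' l, dm (cells N j l) ^ 2 ≤
        ENNReal.ofReal ((2 * N + 2 : ℝ) * (5 / ((N + j : ℕ) : ℝ)) ^ 2) := by
      intro j
      rw [tsum_eq_sum (s := Finset.range (2 * N + 2))]
      · calc ∑ l ∈ Finset.range (2 * N + 2), dm (cells N j l) ^ 2
            ≤ (Finset.range (2 * N + 2)).card • (ENNReal.ofReal (5 / (N + j : ℕ))) ^ 2 := by
              apply Finset.sum_le_card_nsmul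
              intro l _
              exact pow_le_pow_left₀ zero_le (cells_dm hN1) 2
          _ = ENNReal.ofReal ((2 * N + 2 : ℝ) * (5 / ((N + j : ℕ) : ℝ)) ^ 2) := by
              rw [Finset.card_range, nsmul_eq_mul, ENNReal.ofReal_mul (by positivity),
                ENNReal.ofReal_pow (by positivity)]
              congr 1
              rw [← ENNReal.ofReal_natCast]
              push_cast
              rfl
      · intro l hl
        rw [Finset.mem_range, not_lt] at hl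
        rw [cells_zero hl]
        norm_num
    calc ∑' j, ∑' l, dm (cells N j l) ^ 2
        ≤ ∑' j, ENNReal.ofReal ((2 * N + 2 : ℝ) * (5 / ((N + j : ℕ) : ℝ)) ^ 2) :=
          ENNReal.tsum_le_tsum e2
      _ ≤ ENNReal.ofReal 200 := by
          apply ENNReal.tsum_le_of_sum_range_le
          intro n
          rw [← ENNReal.ofReal_sum_of_nonneg (fun i _ => by positivity)]
          exact ENNReal.ofReal_le_ofReal (sum_bound hN1 n)

end Pool.Agent.V11209.Cox
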